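import Mathlib

/-!
# Orders on a field of characteristic `p`, additive polynomials
-/

set_option autoImplicit false

namespace Pool.Agent.TH923.DM

/-- The additive polynomial function with coefficients `f 0, ..., f m`:
`x ↦ ∑ i ≤ m, f i * x ^ (p ^ i)`. -/
noncomputable def ev {L : Type*} [Field L] (p : ℕ) (f : ℕ → L) (m : ℕ) (x : L) : L :=
  ∑ i ∈ Finset.range (m + 1), f i * x ^ (p ^ i)

/-- An integer valued order on a field (junk value at `0`). -/
structure IsOrd {L : Type*} [Field L] (u : L → ℤ) : Prop where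
  mul : ∀ x y, x ≠ 0 → y ≠ 0 → u (x * y) = u x + u y
  add : ∀ x y, x ≠ 0 → y ≠ 0 → x + y ≠ 0 → min (u x) (u y) ≤ u (x + y)

/-- `x` has order at least `m` (true for `x = 0`). -/
def GE {L : Type*} [Field L] (u : L → ℤ) (x : L) (m : ℝ) : Prop := x = 0 ∨ m ≤ (u x : ℝ)

section API

variable {L : Type*} [Field L] {u : L → ℤ}

lemma IsOrd.one (hu : IsOrd u) : u 1 = 0 := by
  have h := hu.mul 1 1 one_ne_zero one_ne_zero
  rw [one_mul] at h
  linarith

lemma IsOrd.inv (hu : IsOrd u) {x : L} (hx : x ≠ 0) : u x⁻¹ = - u x := by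
  have h := hu.mul x x⁻¹ hx (inv_ne_zero hx)
  rw [mul_inv_cancel₀ hx, hu.one] at h
  linarith

lemma IsOrd.div (hu : IsOrd u) {x y : L} (hx : x ≠ 0) (hy : y ≠ 0) : u (x / y) = u x - u y := by
  rw [div_eq_mul_inv, hu.mul x _ hx (inv_ne_zero hy), hu.inv hy]
  ring

lemma IsOrd.pow (hu : IsOrd u) {x : L} (hx : x ≠ 0) (n : ℕ) : u (x ^ n) = n * u x := by
  induction n with
  | zero => simp [hu.one]
  | succ n ih =>
    rw [pow_succ, hu.mul _ _ (pow_ne_zero n hx) hx, ih]
    push_cast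
    ring

lemma IsOrd.zpow (hu : IsOrd u) {x : L} (hx : x ≠ 0) (n : ℤ) : u (x ^ n) = n * u x := by
  rcases Int.eq_nat_or_neg n with ⟨m, rfl | rfl⟩
  · rw [zpow_natCast, hu.pow hx]
  · rw [zpow_neg, zpow_natCast, hu.inv (pow_ne_zero _ hx), hu.pow hx]
    push_cast
    ring

lemma IsOrd.neg (hu : IsOrd u) (x : L) : u (-x) = u x := by
  by_cases hx : x = 0
  · simp [hx]
  have h := hu.mul (-1) (-1) (by simp) (by simp)
  rw [neg_mul_neg, one_mul, hu.one] at h
  have h2 := hu.mul (-1) x (by simp) hx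
  rw [neg_one_mul] at h2
  omega

lemma IsOrd.prod (hu : IsOrd u) {ι : Type*} (s : Finset ι) (f : ι → L) (h : ∀ i ∈ s, f i ≠ 0) :
    u (∏ i ∈ s, f i) = ∑ i ∈ s, u (f i) := by
  classical
  induction s using Finset.induction_on with
  | empty => simp [hu.one]
  | insert a s ha ih =>
    rw [Finset.prod_insert ha, Finset.sum_insert ha, hu.mul _ _ (h a (Finset.mem_insert_self _ _))
      (Finset.prod_ne_zero_iff.2 fun i hi => h i (Finset.mem_insert_of_mem hi)),
      ih fun i hi => h i (Finset.mem_insert_of_mem hi)]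

/-- Composing an order with a field automorphism (or any injective ring hom). -/
lemma IsOrd.comp (hu : IsOrd u) {L' : Type*} [Field L'] (g : L' →+* L) :
    IsOrd (fun x => u (g x)) where
  mul := fun x y hx hy => by
    show u (g (x * y)) = _
    rw [map_mul]
    exact hu.mul _ _ ((map_ne_zero g).2 hx) ((map_ne_zero g).2 hy)
  add := fun x y hx hy hxy => by
    show _ ≤ u (g (x + y))
    rw [map_add]
    exact hu.add _ _ ((map_ne_zero g).2 hx) ((map_ne_zero g).2 hy)
      (by rw [← map_add]; exact (map_ne_zero g).2 hxy)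

lemma GE.zero (m : ℝ) : GE u (0 : L) m := Or.inl rfl

lemma GE.self (x : L) : GE u x (u x) := Or.inr le_rfl

lemma GE.mono {x : L} {m n : ℝ} (h : GE u x m) (hm : n ≤ m) : GE u x n :=
  h.imp id fun h => hm.trans h

lemma GE.ord {x : L} {m : ℝ} (h : GE u x m) (hx : x ≠ 0) : m ≤ (u x : ℝ) := h.resolve_left hx

lemma GE.add (hu : IsOrd u) {x y : L} {m : ℝ} (hx : GE u x m) (hy : GE u y m) :
    GE u (x + y) m := by
  by_cases h1 : x = 0
  · rwa [h1, zero_add]
  by_cases h2 : y = 0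
  · rwa [h2, add_zero]
  by_cases h3 : x + y = 0
  · exact Or.inl h3
  refine Or.inr ?_
  have h4 := hu.add x y h1 h2 h3
  have h5 : ((min (u x) (u y) : ℤ) : ℝ) ≤ (u (x + y) : ℝ) := by exact_mod_cast h4
  refine le_trans ?_ h5
  push_cast
  exact le_min (hx.ord h1) (hy.ord h2)

lemma GE.neg (hu : IsOrd u) {x : L} {m : ℝ} (hx : GE u x m) : GE u (-x) m := by
  rcases hx with h | h
  · exact Or.inl (by rw [h, neg_zero])
  · exact Or.inr (by rwa [hu.neg])

lemma GE.sub (hu : IsOrd u) {x y : L} {m : ℝ} (hx : GE u x m) (hy : GE u y m) :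
    GE u (x - y) m := by
  rw [sub_eq_add_neg]
  exact hx.add hu (hy.neg hu)

lemma GE.sum (hu : IsOrd u) {ι : Type*} (s : Finset ι) (f : ι → L) {m : ℝ}
    (h : ∀ i ∈ s, GE u (f i) m) : GE u (∑ i ∈ s, f i) m := by
  classical
  induction s using Finset.induction_on with
  | empty => simp [GE]
  | insert a s ha ih =>
    rw [Finset.sum_insert ha]
    exact (h a (Finset.mem_insert_self _ _)).add hu
      (ih fun i hi => h i (Finset.mem_insert_of_mem hi))

lemma GE.mul (hu : IsOrd u) {x y : L} {m n : ℝ} (hx : GE u x m) (hy : GE u y n) :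
    GE u (x * y) (m + n) := by
  by_cases h1 : x = 0
  · exact Or.inl (by rw [h1, zero_mul])
  by_cases h2 : y = 0
  · exact Or.inl (by rw [h2, mul_zero])
  refine Or.inr ?_
  rw [hu.mul x y h1 h2]
  push_cast
  exact add_le_add (hx.ord h1) (hy.ord h2)

lemma GE.pow (hu : IsOrd u) {x : L} {m : ℝ} (hx : GE u x m) {n : ℕ} (hn : n ≠ 0) :
    GE u (x ^ n) (n * m) := by
  by_cases h1 : x = 0
  · exact Or.inl (by rw [h1, zero_pow hn])
  refine Or.inr ?_
  rw [hu.pow h1]
  push_cast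
  exact mul_le_mul_of_nonneg_left (hx.ord h1) (Nat.cast_nonneg n)

/-- The dominant term of a sum: if `u x < u y` then `x + y ≠ 0` and `u (x + y) = u x`. -/
lemma IsOrd.add_eq (hu : IsOrd u) {x y : L} (hx : x ≠ 0) (hy : y = 0 ∨ u x < u y) :
    x + y ≠ 0 ∧ u (x + y) = u x := by
  by_cases hy0 : y = 0
  · subst hy0; simp [hx]
  have hlt := hy.resolve_left hy0
  have hne : x + y ≠ 0 := by
    intro h
    have : x = -y := by linear_combination h
    rw [this, hu.neg] at hlt
    exact lt_irrefl _ hlt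
  refine ⟨hne, le_antisymm ?_ ?_⟩
  · have h1 := hu.add (x + y) (-y) hne (neg_ne_zero.2 hy0) (by simpa using hx)
    rw [add_neg_cancel_right, hu.neg] at h1
    rcases min_le_iff.1 h1 with h2 | h2
    · exact h2
    · omega
  · have h1 := hu.add x y hx hy0 hne
    rwa [min_eq_left hlt.le] at h1

end API

section CharP

variable {L : Type*} [Field L] {u : L → ℤ} (p : ℕ) [Fact p.Prime] [CharP L p]

lemma IsOrd.algZMod (hu : IsOrd u) [Algebra (ZMod p) L] {c : ZMod p} (hc : c ≠ 0) :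
    u (algebraMap (ZMod p) L c) = 0 := by
  have h0 : algebraMap (ZMod p) L c ≠ 0 := by simpa using hc
  have h1 : (algebraMap (ZMod p) L c) ^ (p - 1) = 1 := by
    rw [← map_pow, ZMod.pow_card_sub_one_eq_one hc, map_one]
  have h2 := hu.pow h0 (p - 1)
  rw [h1, hu.one] at h2
  have h3 : ((p - 1 : ℕ) : ℤ) ≠ 0 := by
    have := (Fact.out : p.Prime).one_lt
    omega
  rcases mul_eq_zero.1 h2.symm with h | h
  · exact absurd h h3
  · exact h

lemma IsOrd.zsmul (hu : IsOrd u) [Algebra (ZMod p) L] {c : ZMod p} (hc : c ≠ 0) (x : L) :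
    u (c • x) = u x := by
  by_cases hx : x = 0
  · simp [hx]
  have h0 : algebraMap (ZMod p) L c ≠ 0 := by simpa using hc
  rw [Algebra.smul_def, hu.mul _ _ h0 hx, hu.algZMod p hc, zero_add]

lemma GE.zsmul (hu : IsOrd u) [Algebra (ZMod p) L] (c : ZMod p) {x : L} {m : ℝ}
    (h : GE u x m) : GE u (c • x) m := by
  by_cases hc : c = 0
  · left; simp [hc]
  by_cases hx : x = 0
  · left; simp [hx]
  right
  rw [hu.zsmul p hc]
  exact h.ord hx

/-- The elements of `M` of order at least `t`. -/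
def lev [Algebra (ZMod p) L] (hu : IsOrd u) (M : Submodule (ZMod p) L) (t : ℝ) :
    Submodule (ZMod p) L where
  carrier := {x | x ∈ M ∧ GE u x t}
  add_mem' := fun ha hb => ⟨M.add_mem ha.1 hb.1, ha.2.add hu hb.2⟩
  zero_mem' := ⟨M.zero_mem, Or.inl rfl⟩
  smul_mem' := fun c _ hx => ⟨M.smul_mem c hx.1, hx.2.zsmul p hu c⟩

lemma mem_lev [Algebra (ZMod p) L] (hu : IsOrd u) (M : Submodule (ZMod p) L) (t : ℝ) (x : L) :
    x ∈ lev p hu M t ↔ x ∈ M ∧ GE u x t := Iff.rfl

/-- The elements of `M` of order larger than `t`. -/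
def levG [Algebra (ZMod p) L] (hu : IsOrd u) (M : Submodule (ZMod p) L) (t : ℝ) :
    Submodule (ZMod p) L where
  carrier := {x | x ∈ M ∧ (x = 0 ∨ t < (u x : ℝ))}
  add_mem' := by
    rintro a b ⟨ha, ha'⟩ ⟨hb, hb'⟩
    refine ⟨M.add_mem ha hb, ?_⟩
    by_cases h1 : a = 0
    · rw [h1, zero_add]; exact hb'
    by_cases h2 : b = 0
    · rw [h2, add_zero]; exact ha'
    by_cases h3 : a + b = 0
    · exact Or.inl h3
    refine Or.inr ?_
    have h4 := hu.add a b h1 h2 h3
    have h5 : ((min (u a) (u b) : ℤ) : ℝ) ≤ (u (a + b) : ℝ) := by exact_mod_cast h4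
    refine lt_of_lt_of_le ?_ h5
    push_cast
    exact lt_min (ha'.resolve_left h1) (hb'.resolve_left h2)
  zero_mem' := ⟨M.zero_mem, Or.inl rfl⟩
  smul_mem' := by
    rintro c x ⟨hx, hx'⟩
    refine ⟨M.smul_mem c hx, ?_⟩
    by_cases hc : c = 0
    · left; simp [hc]
    rcases hx' with h | h
    · left; simp [h]
    · right; rwa [hu.zsmul p hc]

lemma mem_levG [Algebra (ZMod p) L] (hu : IsOrd u) (M : Submodule (ZMod p) L) (t : ℝ) (x : L) :
    x ∈ levG p hu M t ↔ x ∈ M ∧ (x = 0 ∨ t < (u x : ℝ)) := Iff.rfl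

lemma ev_add (f : ℕ → L) (m : ℕ) (x y : L) : ev p f m (x + y) = ev p f m x + ev p f m y := by
  unfold ev
  rw [← Finset.sum_add_distrib]
  refine Finset.sum_congr rfl fun i _ => ?_
  rw [add_pow_char_pow, mul_add]

omit [CharP L p] in
lemma ev_zero (f : ℕ → L) (m : ℕ) : ev p f m 0 = 0 := by
  unfold ev
  refine Finset.sum_eq_zero fun i _ => ?_
  rw [zero_pow (pow_ne_zero _ (Fact.out : p.Prime).ne_zero), mul_zero]

/-- `ev` as a linear map over `ZMod p`. -/
noncomputable def evL [Algebra (ZMod p) L] (f : ℕ → L) (m : ℕ) : L →ₗ[ZMod p] L :=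
  AddMonoidHom.toZModLinearMap p
    { toFun := ev p f m, map_zero' := ev_zero p f m, map_add' := ev_add p f m }

lemma evL_apply [Algebra (ZMod p) L] (f : ℕ → L) (m : ℕ) (x : L) :
    evL p f m x = ev p f m x := rfl

end CharP

end Pool.Agent.TH923.DM
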