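import Mathlib
import Pool.Agent.TH923.Y0.Rat
import Pool.Agent.TH923.DM.Basic

/-!
# Statements of the steps
-/

set_option autoImplicit false

namespace Pool.Agent.TH923.DM

open Polynomial

universe w v

/-- `u (∑ i, f i X ^ (p ^ i))` large on a space `Y` forces `dim Y ≤ m`. -/
def S_N : Prop := ∀ (p : ℕ) [Fact p.Prime] (L : Type w) [Field L] [CharP L p]
  [Algebra (ZMod p) L] (u : L → ℤ), IsOrd u → ∀ (m : ℕ) (f : ℕ → L) (β : ℝ → ℝ),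
  Antitone (fun t => β t - t) → ∀ (Y : Submodule (ZMod p) L) [FiniteDimensional (ZMod p) Y],
  (∀ y ∈ Y, y ≠ 0 → GE u (ev p f m y) (β (u y))) →
  (∀ y ∈ Y, y ≠ 0 → ∃ i ≤ m, f i ≠ 0 ∧ (u (f i) : ℝ) + (p : ℝ) ^ i * u y < β (u y)) →
  Module.finrank (ZMod p) Y ≤ m

/-- `c` is the critical radius of the additive polynomial `g` at `u`:
`c = max_{1 ≤ i ≤ r, g i ≠ 0} - u (g i) / (p ^ i - 1)`. -/
structure Loc {L : Type*} [Field L] (p : ℕ) (u : L → ℤ) (g : ℕ → L) (r : ℕ) (c : ℝ) : Prop where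
  ge : ∀ i, 1 ≤ i → i ≤ r → GE u (g i) (-((p : ℝ) ^ i - 1) * c)
  eq : ∃ i, 1 ≤ i ∧ i ≤ r ∧ g i ≠ 0 ∧ (u (g i) : ℝ) = -((p : ℝ) ^ i - 1) * c

def S_L1 : Prop := ∀ (p : ℕ) [Fact p.Prime] (L : Type w) [Field L] [CharP L p]
  [Algebra (ZMod p) L] (u : L → ℤ) (hu : IsOrd u) (g : ℕ → L) (r : ℕ) (c : ℝ), 1 ≤ r →
  Loc p u g r c → GE u (g 0) 0 → ∀ (M : Submodule (ZMod p) L) [FiniteDimensional (ZMod p) M],
  (∀ x ∈ M, ev p g r x ∈ M) → ∀ V : Submodule (ZMod p) L, V ≤ M → ∀ x : ℝ, 0 < x →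
  Module.finrank (ZMod p) (lev p hu V (c - p * x)) ≤
    Module.finrank (ZMod p) (lev p hu V (c - x)) + (r - 1)

def S_Linf : Prop := ∀ (p : ℕ) [Fact p.Prime] (L : Type w) [Field L] [CharP L p]
  [Algebra (ZMod p) L] (u : L → ℤ) (hu : IsOrd u) (g : ℕ → L) (r : ℕ), 1 ≤ r →
  g 0 ≠ 0 → u (g 0) ≤ -1 → ∀ (M : Submodule (ZMod p) L) [FiniteDimensional (ZMod p) M],
  (∀ x ∈ M, ev p g r x ∈ M) → ∀ V : Submodule (ZMod p) L, V ≤ M → ∀ t : ℝ,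
  Module.finrank (ZMod p) (lev p hu V t) ≤
    Module.finrank (ZMod p) (lev p hu V (t + 1)) + r

/-- special places -/
def S_SPEC : Prop := ∀ (p : ℕ) [Fact p.Prime] (L : Type w) [Field L] [CharP L p]
  [Algebra (ZMod p) L] (u : L → ℤ) (hu : IsOrd u) (g : ℕ → L) (r : ℕ) (c : ℝ), 1 ≤ r →
  Loc p u g r c → GE u (g 0) 0 → ∀ (M : Submodule (ZMod p) L) [FiniteDimensional (ZMod p) M],
  (∀ x ∈ M, ev p g r x ∈ M) →
  ∃ a : (ZMod p)[X], a.Monic ∧ a.natDegree = Module.finrank (ZMod p) (levG p hu M c) ∧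
    GE u (aeval (g 0) a)
      (((p : ℝ) ^ (Module.finrank (ZMod p) (levG p hu M c)) - 1) / ((p : ℝ) ^ r - 1))

/-- adapted basis of a finite dimensional `ZMod p`-subspace -/
structure AdBasis {L : Type*} [Field L] (p : ℕ) [Fact p.Prime] [Algebra (ZMod p) L] (u : L → ℤ)
    (V : Submodule (ZMod p) L) (h : ℕ) (b : Fin h → L) : Prop where
  li : LinearIndependent (ZMod p) b
  span : Submodule.span (ZMod p) (Set.range b) = V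
  mono : Monotone (fun i => u (b i))
  val : ∀ (a : Fin h → ZMod p) (i : Fin h), a i ≠ 0 → (∀ j < i, a j = 0) →
    u (∑ j, a j • b j) = u (b i)

def S_ADAPT : Prop := ∀ (p : ℕ) [Fact p.Prime] (L : Type w) [Field L] [CharP L p]
  [Algebra (ZMod p) L] (u : L → ℤ), IsOrd u → ∀ (V : Submodule (ZMod p) L)
  [FiniteDimensional (ZMod p) V] (h : ℕ), Module.finrank (ZMod p) V = h →
  ∃ b : Fin h → L, AdBasis p u V h b

def S_IND : Prop := ∀ (p : ℕ) [Fact p.Prime] (L : Type w) [Field L] [CharP L p]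
  [Algebra (ZMod p) L] (u : L → ℤ), IsOrd u → ∀ (V : Submodule (ZMod p) L)
  (h : ℕ) (b : Fin h → L), 0 < h → AdBasis p u V h b →
  ∃ ind : L → Fin h, (∀ x ∈ V, x ≠ 0 → u x = u (b (ind x))) ∧
    ∀ (X : Finset L), (∀ x ∈ X, x ∈ V ∧ x ≠ 0) → ∀ i ≤ h,
      (X.filter (fun x => i ≤ (ind x : ℕ))).card ≤ p ^ (h - i)

/-- geometric decay of the norms at a finite place -/
def S_DEC : Prop := ∀ (p : ℕ) [Fact p.Prime] (L : Type w) [Field L] [CharP L p]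
  [Algebra (ZMod p) L] (u : L → ℤ), IsOrd u → ∀ (g : ℕ → L) (r : ℕ) (c : ℝ), 1 ≤ r →
  Loc p u g r c → GE u (g 0) 0 → ∀ (M : Submodule (ZMod p) L) [FiniteDimensional (ZMod p) M],
  (∀ x ∈ M, ev p g r x ∈ M) → ∀ V : Submodule (ZMod p) L, V ≤ M →
  ∀ (h : ℕ) (b : Fin h → L), AdBasis p u V h b → ∀ (j : ℕ) (i i0 : Fin h), (i : ℕ) = 0 →
  (r - 1) * j ≤ i0 → (p : ℝ) ^ j * (c - u (b i0)) ≤ max 0 (c - u (b i))

/-- strict decrease of the norms at an infinite place -/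
def S_DECinf : Prop := ∀ (p : ℕ) [Fact p.Prime] (L : Type w) [Field L] [CharP L p]
  [Algebra (ZMod p) L] (u : L → ℤ), IsOrd u → ∀ (g : ℕ → L) (r : ℕ), 1 ≤ r →
  g 0 ≠ 0 → u (g 0) ≤ -1 → ∀ (M : Submodule (ZMod p) L) [FiniteDimensional (ZMod p) M],
  (∀ x ∈ M, ev p g r x ∈ M) → ∀ V : Submodule (ZMod p) L, V ≤ M →
  ∀ (h : ℕ) (b : Fin h → L), AdBasis p u V h b → ∀ (i i0 : Fin h), (i : ℕ) = 0 →
  r ≤ i0 → u (b i) + 1 ≤ u (b i0)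

/-- the rigidity lemma -/
def S_RIG : Prop := ∀ (p : ℕ) [Fact p.Prime] (n r a b : ℕ), 1 ≤ r → ∃ N1 : ℕ,
  ∀ (L : Type w) [Field L] [CharP L p] [Algebra (ZMod p) L] (G : Type w) [Group G] [Fintype G]
  [MulSemiringAction G L], Fintype.card G ≤ n → ∀ (D : Derivation ℤ L L) (g : ℕ → L), g r ≠ 0 →
  (∀ i j : ℕ, i ≠ j → (g 0) ^ (p ^ i) ≠ (g 0) ^ (p ^ j)) →
  ∀ (M : Submodule (ZMod p) L) [FiniteDimensional (ZMod p) M], (∀ x ∈ M, ev p g r x ∈ M) →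
  N1 ≤ Module.finrank (ZMod p) M → ∀ c : G → ℕ → L,
  (∀ x ∈ M, (D x) ^ (p ^ b) = ∑ σ : G, ∑ l ∈ Finset.range a, c σ l * (σ • x) ^ (p ^ l)) →
  D (g 0) = 0 ∧ ∃ α : L, ∀ x ∈ M, D x = α * x

/-- nested families of rows -/
def S_ROWS : Prop := ∀ (p : ℕ) [Fact p.Prime] (L : Type w) [Field L] [CharP L p]
  [Algebra (ZMod p) L] (G : Type w) [Group G] [Fintype G] [MulSemiringAction G L]
  (M : Submodule (ZMod p) L) [FiniteDimensional (ZMod p) M] (A : ℕ), 1 ≤ A →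
  Fintype.card G * A < Module.finrank (ZMod p) M →
  ∃ ℓ : G → ℕ, ℓ 1 = A ∧ (∀ σ, ℓ σ ≤ A) ∧
    LinearIndependent L (fun (ρ : Σ σ : G, Fin (ℓ σ)) (x : M) =>
      (ρ.1 • (x : L)) ^ (p ^ (ρ.2 : ℕ))) ∧
    ∀ (σ : G) (l : ℕ), l < A → (fun x : M => (σ • (x : L)) ^ (p ^ l)) ∈
      Submodule.span L (Set.range (fun (ρ : Σ σ : G, Fin (ℓ σ)) (x : M) =>
        (ρ.1 • (x : L)) ^ (p ^ (ρ.2 : ℕ))))

def S_PTS : Prop := ∀ (L : Type w) [Field L] (ι : Type w) (R : Type w) [Fintype R]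
  [DecidableEq R] (f : R → ι → L), LinearIndependent L f →
  ∃ x : R → ι, (Matrix.of fun i j => f i (x j)).det ≠ 0

/-- the determinant estimate -/
def S_DET : Prop := ∀ (p : ℕ) [Fact p.Prime] (L : Type w) [Field L] [CharP L p]
  [Algebra (ZMod p) L] (u : L → ℤ), IsOrd u → ∀ (R : Type w) [Fintype R] [DecidableEq R]
  (h : ℕ), Fintype.card R = h → ∀ (row : R → L →+ L) (x : R → L) (B : Type w) (β : R → B)
  (bb : B → Fin h → L), (∀ β j, x j ∈ Submodule.span (ZMod p) (Set.range (bb β))) →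
  (Matrix.of fun ρ j => row ρ (x j)).det ≠ 0 →
  ∃ s : R → Fin h, (∀ ρ ρ', β ρ = β ρ' → s ρ = s ρ' → ρ = ρ') ∧
    (∀ ρ, row ρ (bb (β ρ) (s ρ)) ≠ 0) ∧
    ∑ ρ, u (row ρ (bb (β ρ) (s ρ))) ≤ u (Matrix.of fun ρ j => row ρ (x j)).det

/-- places of `L / k(T)` with a product formula -/
structure PD (k : Type w) (L : Type w) [Field k] [Field L] [Algebra (RatFunc k) L] (E : ℕ) where
  Pl : Type w
  wt : Pl → ℤ
  u : Pl → L → ℤ
  wt_pos : ∀ v, 1 ≤ wt v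
  isOrd : ∀ v, IsOrd (u v)
  const : ∀ v (c : k), c ≠ 0 → u v (algebraMap (RatFunc k) L (RatFunc.C c)) = 0
  fin : ∀ x, x ≠ 0 → {v | u v x ≠ 0}.Finite
  prod : ∀ x, x ≠ 0 → ∀ T : Finset Pl, (∀ v, v ∉ T → u v x = 0) → ∑ v ∈ T, wt v * u v x = 0
  cases : ∀ v, (∃ a : k, 0 < u v (algebraMap (RatFunc k) L (RatFunc.X - RatFunc.C a))) ∨
    u v (algebraMap (RatFunc k) L RatFunc.X) < 0
  exists_inf : ∃ v, u v (algebraMap (RatFunc k) L RatFunc.X) < 0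
  inf_bound : ∀ T : Finset Pl, (∀ v ∈ T, u v (algebraMap (RatFunc k) L RatFunc.X) < 0) →
    ∑ v ∈ T, wt v * (- u v (algebraMap (RatFunc k) L RatFunc.X)) ≤ E

def S_PD : Prop := ∀ (k : Type w) [Field k] [IsAlgClosed k] (L : Type w) [Field L]
  [Algebra (RatFunc k) L] [FiniteDimensional (RatFunc k) L] [Algebra.IsSeparable (RatFunc k) L],
  Nonempty (PD k L (Module.finrank (RatFunc k) L))

/-- bound for the special finite places -/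
def S_SPC : Prop := ∀ (p : ℕ) [Fact p.Prime] (r E s : ℕ), 1 ≤ r → ∃ t1 S1 : ℕ,
  ∀ (k : Type w) [Field k] [IsAlgClosed k] [CharP k p] (L : Type w) [Field L] [CharP L p]
  [Algebra (ZMod p) L] [Algebra (RatFunc k) L] (P : PD k L E) (g : ℕ → L),
  g 0 = (algebraMap (RatFunc k) L RatFunc.X) ^ (p ^ s) →
  ∀ (M : Submodule (ZMod p) L) [FiniteDimensional (ZMod p) M], (∀ x ∈ M, ev p g r x ∈ M) →
  ∀ c : P.Pl → ℝ, (∀ v, Loc p (P.u v) g r (c v)) →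
  (∀ v, ¬ (P.u v (algebraMap (RatFunc k) L RatFunc.X) < 0) →
    Module.finrank (ZMod p) (levG p (P.isOrd v) M (c v)) ≤ t1) ∧
  ∀ T : Finset P.Pl, (∀ v ∈ T, ¬ (P.u v (algebraMap (RatFunc k) L RatFunc.X) < 0) ∧
    levG p (P.isOrd v) M (c v) ≠ ⊥) → T.card ≤ S1

/-- the derivation `d / dT` on a finite separable extension of `k(T)` and its kernel -/
def S_DER : Prop := ∀ (p : ℕ) [Fact p.Prime] (k : Type w) [Field k] [IsAlgClosed k] [CharP k p]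
  (L : Type w) [Field L] [Algebra (RatFunc k) L] [FiniteDimensional (RatFunc k) L]
  [Algebra.IsSeparable (RatFunc k) L],
  ∃ D : Derivation ℤ L L, (∀ f : RatFunc k, D (algebraMap (RatFunc k) L f) =
    algebraMap (RatFunc k) L (Y0.ratD k f)) ∧ ∀ x, D x = 0 → ∃ y, y ^ p = x

/-- approximation of `D` by `D` minus a linear map, finite place -/
def S_NAB : Prop := ∀ (p : ℕ) [Fact p.Prime] (k : Type w) [Field k] [IsAlgClosed k] [CharP k p]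
  (L : Type w) [Field L] [Algebra (RatFunc k) L] [FiniteDimensional (RatFunc k) L]
  [IsGalois (RatFunc k) L] (D : Derivation ℤ L L), (∀ f : RatFunc k,
    D (algebraMap (RatFunc k) L f) = algebraMap (RatFunc k) L (Y0.ratD k f)) →
  ∀ (u : L → ℤ), IsOrd u → (∀ c : k, c ≠ 0 → u (algebraMap (RatFunc k) L (RatFunc.C c)) = 0) →
  ∀ S : Finset L,
  (∀ (a : k), 0 < u (algebraMap (RatFunc k) L (RatFunc.X - RatFunc.C a)) → ∀ c : ℝ,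
    ∃ ν : (L ≃ₐ[RatFunc k] L) → L, ∀ x ∈ S, x ≠ 0 →
      GE u (D x - ∑ σ, ν σ * σ x)
        (u x - u (algebraMap (RatFunc k) L (RatFunc.X - RatFunc.C a))) ∧
      (c ≤ u x → GE u (D x - ∑ σ, ν σ * σ x) c)) ∧
  (u (algebraMap (RatFunc k) L RatFunc.X) < 0 →
    ∃ ν : (L ≃ₐ[RatFunc k] L) → L, ∀ x ∈ S, x ≠ 0 → GE u (D x - ∑ σ, ν σ * σ x) (u x))

/-- the local inequality at a finite place -/
def S_LOC : Prop := ∀ (p n A b w' h J1 : ℕ), 2 ≤ p → b ≤ w' → w' ≤ A → A + 1 ≤ h →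
  2 * J1 ≤ p ^ A → 2 * (n + 2 * (n + 1) * J1 + 1) ≤ p ^ b →
  ∀ (G : Type w) [Fintype G] (e : G), Fintype.card G ≤ n → ∀ (ℓ : G → ℕ), ℓ e = A →
  (∀ σ, ℓ σ ≤ A) → ∀ (s : G → ℕ → Fin h) (sD : Fin h),
  (∀ σ, ∀ l < ℓ σ, ∀ l' < ℓ σ, s σ l = s σ l' → l = l') → (∀ l < A, s e l ≠ sD) →
  ∀ (T : Type w) (X : Finset T) (ind : T → Fin h),
  (∀ i ≤ h, (X.filter (fun x => i ≤ (ind x : ℕ))).card ≤ p ^ (h - i)) →
  p ^ h ≤ X.card + J1 * p ^ (h - A) →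
  ∀ (a : Fin h → ℝ), Antitone a → (∀ i, 0 ≤ a i) →
  (∀ i i0 : Fin h, (i : ℕ) = 0 → (i0 : ℕ) = A - w' → (1 + (p : ℝ) ^ w') * a i0 ≤ a i) →
  (∑ σ, ∑ l ∈ Finset.range (ℓ σ), (p : ℝ) ^ l * a (s σ l) + (p : ℝ) ^ w' * a sD) * X.card ≤
    (∑ σ, ∑ l ∈ Finset.range (ℓ σ), (p : ℝ) ^ l + (p : ℝ) ^ b) * ∑ x ∈ X, a (ind x)

/-- the local inequality at an infinite place -/
def S_LOCinf : Prop := ∀ (p n A b b2 h J1 : ℕ), 2 ≤ p → b2 ≤ b → 2 * b ≤ A → A + 1 ≤ h →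
  2 * J1 ≤ p ^ A → 2 * (n + 2 * (n + 1) * J1 + 1) ≤ p ^ b → n + 3 ≤ p ^ b2 →
  2 * (n + 1) * J1 ≤ p ^ (A - b) →
  ∀ (G : Type w) [Fintype G] (e : G), Fintype.card G ≤ n → ∀ (ℓ : G → ℕ), ℓ e = A →
  (∀ σ, ℓ σ ≤ A) → ∀ (s : G → ℕ → Fin h) (sD : Fin h),
  (∀ σ, ∀ l < ℓ σ, ∀ l' < ℓ σ, s σ l = s σ l' → l = l') → (∀ l < A, s e l ≠ sD) →
  ∀ (T : Type w) (X : Finset T) (ind : T → Fin h),
  (∀ i ≤ h, (X.filter (fun x => i ≤ (ind x : ℕ))).card ≤ p ^ (h - i)) →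
  p ^ h ≤ X.card + J1 * p ^ (h - A) →
  ∀ (a : Fin h → ℝ), Antitone a → (∀ i, 0 ≤ a i) →
  (∀ i : Fin h, A - b2 ≤ (i : ℕ) → a i = 0) →
  ∀ i : Fin h, (i : ℕ) = 0 →
  (∑ σ, ∑ l ∈ Finset.range (ℓ σ), (p : ℝ) ^ l * a (s σ l) + (p : ℝ) ^ b * a sD + a i) *
      X.card ≤
    (∑ σ, ∑ l ∈ Finset.range (ℓ σ), (p : ℝ) ^ l + (p : ℝ) ^ b) * ∑ x ∈ X, a (ind x)

/-- the descent step -/
def S_DESC : Prop := ∀ (p : ℕ) [Fact p.Prime] (L : Type w) [Field L] [CharP L p]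
  [Algebra (ZMod p) L] (D : Derivation ℤ L L), (∀ x, D x = 0 → ∃ y, y ^ p = x) →
  ∀ (g : ℕ → L) (r : ℕ), g r ≠ 0 → D (g 0) = 0 →
  ∀ (M : Submodule (ZMod p) L) [FiniteDimensional (ZMod p) M], (∀ x ∈ M, ev p g r x ∈ M) →
  r < Module.finrank (ZMod p) M → ∀ α : L, (∀ x ∈ M, D x = α * x) →
  ∃ (g' : ℕ → L) (M' : Submodule (ZMod p) L), (g' 0) ^ p = g 0 ∧ g' r ≠ 0 ∧
    FiniteDimensional (ZMod p) M' ∧ (∀ x ∈ M', ev p g' r x ∈ M') ∧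
    Module.finrank (ZMod p) M' = Module.finrank (ZMod p) M

/-- the main statement for Galois extensions of `k(T)`, `k` algebraically closed -/
def S_CLAIM : Prop := ∀ (p : ℕ) [Fact p.Prime] (r n s : ℕ), 1 ≤ r → ∃ N : ℕ,
  ∀ (k : Type w) [Field k] [IsAlgClosed k] [CharP k p] (L : Type w) [Field L] [CharP L p]
  [Algebra (ZMod p) L] [Algebra (RatFunc k) L] [FiniteDimensional (RatFunc k) L]
  [IsGalois (RatFunc k) L], Module.finrank (RatFunc k) L ≤ n → ∀ g : ℕ → L,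
  g 0 = (algebraMap (RatFunc k) L RatFunc.X) ^ (p ^ s) → g r ≠ 0 →
  ∀ (M : Submodule (ZMod p) L) [FiniteDimensional (ZMod p) M], (∀ x ∈ M, ev p g r x ∈ M) →
  Module.finrank (ZMod p) M ≤ N

/-- the general statement -/
def S_GEN : Prop := ∀ (p : ℕ) [Fact p.Prime] (r d : ℕ), 1 ≤ r → ∃ N : ℕ,
  ∀ (k : Type w) [Field k] [CharP k p] (L : Type v) [Field L] [CharP L p]
  [Algebra (ZMod p) L] [Algebra (RatFunc k) L] [FiniteDimensional (RatFunc k) L],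
  Module.finrank (RatFunc k) L ≤ d → ∀ g : ℕ → L,
  g 0 = algebraMap (RatFunc k) L RatFunc.X → g r ≠ 0 →
  ∀ (M : Submodule (ZMod p) L) [FiniteDimensional (ZMod p) M], (∀ x ∈ M, ev p g r x ∈ M) →
  Module.finrank (ZMod p) M ≤ N

/-- reduction to the Galois case -/
def S_RED : Prop := S_CLAIM.{w} → S_GEN.{w, v}

end Pool.Agent.TH923.DM
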