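import Mathlib
import Pool.Agent.TH923.DM.Basic
import Pool.Agent.TH923.Y0.Rat

/-!
# Orders on `k(T)`
-/

set_option autoImplicit false

namespace Pool.Agent.TH923.DM

open Polynomial

variable {k L : Type*} [Field k] [Field L] [Algebra (RatFunc k) L] {u : L → ℤ}

lemma pl_ne {f : k[X]} (hf : f ≠ 0) : (fun f : k[X] => algebraMap (RatFunc k) L (algebraMap k[X] (RatFunc k) f)) f ≠ 0 := by
  show algebraMap (RatFunc k) L (algebraMap k[X] (RatFunc k) f) ≠ 0
  rw [Ne, map_eq_zero_iff _ (algebraMap (RatFunc k) L).injective]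
  exact RatFunc.algebraMap_ne_zero hf

lemma const_GE (hu : IsOrd u)
    (hc : ∀ c : k, c ≠ 0 → u (algebraMap (RatFunc k) L (RatFunc.C c)) = 0) (c : k) :
    GE u (algebraMap (RatFunc k) L (RatFunc.C c)) 0 := by
  by_cases h : c = 0
  · left; simp [h]
  · right; rw [hc c h]; simp

lemma pl_GE (hu : IsOrd u)
    (hc : ∀ c : k, c ≠ 0 → u (algebraMap (RatFunc k) L (RatFunc.C c)) = 0)
    (hX : GE u (algebraMap (RatFunc k) L RatFunc.X) 0) (f : k[X]) : GE u ((fun f : k[X] => algebraMap (RatFunc k) L (algebraMap k[X] (RatFunc k) f)) f) 0 := by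
  induction f using Polynomial.induction_on with
  | C a =>
    show GE u (algebraMap (RatFunc k) L (algebraMap k[X] (RatFunc k) (C a))) 0
    rw [RatFunc.algebraMap_C]
    exact const_GE hu hc a
  | add f g hf hg =>
    show GE u (algebraMap (RatFunc k) L (algebraMap k[X] (RatFunc k) (f + g))) 0
    rw [map_add, map_add]
    exact hf.add hu hg
  | monomial n a h =>
    show GE u (algebraMap (RatFunc k) L (algebraMap k[X] (RatFunc k) (C a * X ^ (n + 1)))) 0
    rw [pow_succ, ← mul_assoc, map_mul, map_mul, RatFunc.algebraMap_X]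
    have := h.mul hu hX
    rwa [add_zero] at this

lemma X_GE_of_fin (hu : IsOrd u)
    (hc : ∀ c : k, c ≠ 0 → u (algebraMap (RatFunc k) L (RatFunc.C c)) = 0) (a : k)
    (ha : 0 < u (algebraMap (RatFunc k) L (RatFunc.X - RatFunc.C a))) :
    GE u (algebraMap (RatFunc k) L RatFunc.X) 0 := by
  have h1 : algebraMap (RatFunc k) L RatFunc.X =
      algebraMap (RatFunc k) L (RatFunc.X - RatFunc.C a) +
      algebraMap (RatFunc k) L (RatFunc.C a) := by
    rw [← map_add, sub_add_cancel]
  rw [h1]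
  refine GE.add hu (Or.inr ?_) (const_GE hu hc a)
  exact_mod_cast ha.le

lemma pl_fin (hu : IsOrd u)
    (hc : ∀ c : k, c ≠ 0 → u (algebraMap (RatFunc k) L (RatFunc.C c)) = 0) (a : k)
    (ha : 0 < u (algebraMap (RatFunc k) L (RatFunc.X - RatFunc.C a))) (f : k[X]) (hf : f ≠ 0) :
    u ((fun f : k[X] => algebraMap (RatFunc k) L (algebraMap k[X] (RatFunc k) f)) f) = f.rootMultiplicity a * u (algebraMap (RatFunc k) L (RatFunc.X - RatFunc.C a)) := by
  classical
  have hX := X_GE_of_fin hu hc a ha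
  have hXa : (fun f : k[X] => algebraMap (RatFunc k) L (algebraMap k[X] (RatFunc k) f)) (X - C a) = algebraMap (RatFunc k) L (RatFunc.X - RatFunc.C a) := by
    show algebraMap (RatFunc k) L (algebraMap k[X] (RatFunc k) (X - C a)) = _
    rw [map_sub, RatFunc.algebraMap_X, RatFunc.algebraMap_C]
  obtain ⟨g, hg1, hg2⟩ := exists_eq_pow_rootMultiplicity_mul_and_not_dvd f hf a
  have hg0 : g ≠ 0 := by
    rintro rfl
    exact hg2 (dvd_zero _)
  have hga : g.eval a ≠ 0 := by
    intro h
    exact hg2 (dvd_iff_isRoot.2 h)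
  obtain ⟨g1, hg3⟩ := X_sub_C_dvd_sub_C_eval (a := a) (p := g)
  have hug : u ((fun f : k[X] => algebraMap (RatFunc k) L (algebraMap k[X] (RatFunc k) f)) g) = 0 := by
    have h1 : (fun f : k[X] => algebraMap (RatFunc k) L (algebraMap k[X] (RatFunc k) f)) g = algebraMap (RatFunc k) L (RatFunc.C (g.eval a)) + (fun f : k[X] => algebraMap (RatFunc k) L (algebraMap k[X] (RatFunc k) f)) ((X - C a) * g1) := by
      show algebraMap (RatFunc k) L (algebraMap k[X] (RatFunc k) g) = _ +
        algebraMap (RatFunc k) L (algebraMap k[X] (RatFunc k) _)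
      rw [← hg3, ← RatFunc.algebraMap_C, ← map_add, ← map_add, add_sub_cancel]
    have h2 : algebraMap (RatFunc k) L (RatFunc.C (g.eval a)) ≠ 0 := by
      rw [← RatFunc.algebraMap_C]
      exact pl_ne (C_ne_zero.2 hga)
    have h3 := hu.add_eq (x := algebraMap (RatFunc k) L (RatFunc.C (g.eval a)))
      (y := (fun f : k[X] => algebraMap (RatFunc k) L (algebraMap k[X] (RatFunc k) f)) ((X - C a) * g1)) h2 (by
        by_cases hg10 : g1 = 0
        · left
          simp [hg10]
        · right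
          rw [hc _ hga]
          have h4 : (fun f : k[X] => algebraMap (RatFunc k) L (algebraMap k[X] (RatFunc k) f)) ((X - C a) * g1) = (fun f : k[X] => algebraMap (RatFunc k) L (algebraMap k[X] (RatFunc k) f)) (X - C a) * (fun f : k[X] => algebraMap (RatFunc k) L (algebraMap k[X] (RatFunc k) f)) g1 := by
            show algebraMap (RatFunc k) L (algebraMap k[X] (RatFunc k) _) =
              algebraMap (RatFunc k) L (algebraMap k[X] (RatFunc k) _) *
              algebraMap (RatFunc k) L (algebraMap k[X] (RatFunc k) _)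
            rw [map_mul, map_mul]
          rw [h4, hu.mul _ _ (pl_ne (X_sub_C_ne_zero a)) (pl_ne hg10), hXa]
          have h5 := (pl_GE hu hc hX g1).ord (pl_ne hg10)
          have h6 : 0 ≤ u ((fun f : k[X] => algebraMap (RatFunc k) L (algebraMap k[X] (RatFunc k) f)) g1) := by exact_mod_cast h5
          omega)
    rw [h1, h3.2, hc _ hga]
  have h1 : (fun f : k[X] => algebraMap (RatFunc k) L (algebraMap k[X] (RatFunc k) f)) f = (fun f : k[X] => algebraMap (RatFunc k) L (algebraMap k[X] (RatFunc k) f)) (X - C a) ^ (f.rootMultiplicity a) * (fun f : k[X] => algebraMap (RatFunc k) L (algebraMap k[X] (RatFunc k) f)) g := by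
    show algebraMap (RatFunc k) L (algebraMap k[X] (RatFunc k) f) =
      algebraMap (RatFunc k) L (algebraMap k[X] (RatFunc k) _) ^ _ *
      algebraMap (RatFunc k) L (algebraMap k[X] (RatFunc k) _)
    rw [← map_pow, ← map_pow, ← map_mul, ← map_mul, ← hg1]
  rw [h1, hu.mul _ _ (pow_ne_zero _ (pl_ne (X_sub_C_ne_zero a))) (pl_ne hg0),
    hu.pow (pl_ne (X_sub_C_ne_zero a)), hug, hXa, add_zero]

/-- the order restricted to `k(T)` at a finite place -/
lemma uK_fin (hu : IsOrd u)
    (hc : ∀ c : k, c ≠ 0 → u (algebraMap (RatFunc k) L (RatFunc.C c)) = 0) (a : k)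
    (ha : 0 < u (algebraMap (RatFunc k) L (RatFunc.X - RatFunc.C a))) (f : RatFunc k)
    (hf : f ≠ 0) : u (algebraMap (RatFunc k) L f) =
      Y0.ratOrd (some a) f * u (algebraMap (RatFunc k) L (RatFunc.X - RatFunc.C a)) := by
  obtain ⟨x, y, hx, hy, hxy⟩ := Y0.exists_mk' hf
  rw [hxy, map_div₀, hu.div (pl_ne hx) (pl_ne hy)]
  have h1 := pl_fin hu hc a ha x hx
  have h2 := pl_fin hu hc a ha y hy
  show u ((fun f : k[X] => algebraMap (RatFunc k) L (algebraMap k[X] (RatFunc k) f)) x) - u ((fun f : k[X] => algebraMap (RatFunc k) L (algebraMap k[X] (RatFunc k) f)) y) = Y0.ordc a _ * _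
  rw [h1, h2, Y0.ordc_mk a x y hx hy]
  ring

lemma pl_inf_GE (hu : IsOrd u)
    (hc : ∀ c : k, c ≠ 0 → u (algebraMap (RatFunc k) L (RatFunc.C c)) = 0)
    (hX : u (algebraMap (RatFunc k) L RatFunc.X) < 0) (n : ℕ) (f : k[X]) (hf : f.natDegree ≤ n) :
    GE u ((fun f : k[X] => algebraMap (RatFunc k) L (algebraMap k[X] (RatFunc k) f)) f) (n * u (algebraMap (RatFunc k) L RatFunc.X)) := by
  have hX0 : algebraMap (RatFunc k) L RatFunc.X ≠ 0 := by
    rw [Ne, map_eq_zero_iff _ (algebraMap (RatFunc k) L).injective]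
    exact RatFunc.X_ne_zero
  show GE u (algebraMap (RatFunc k) L (algebraMap k[X] (RatFunc k) f)) _
  rw [f.as_sum_range_C_mul_X_pow, map_sum, map_sum]
  refine GE.sum hu _ _ fun i hi => ?_
  rw [map_mul, map_mul, map_pow, map_pow, RatFunc.algebraMap_C, RatFunc.algebraMap_X]
  have hi' : i ≤ n := by
    have := Finset.mem_range.1 hi
    omega
  have h1 := (const_GE hu hc (f.coeff i)).mul hu
    (GE.self (u := u) ((algebraMap (RatFunc k) L RatFunc.X) ^ i))
  refine h1.mono ?_
  rw [hu.pow hX0]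
  push_cast
  rw [zero_add]
  have h3 : (i : ℝ) ≤ n := by exact_mod_cast hi'
  have h4 : (u (algebraMap (RatFunc k) L RatFunc.X) : ℝ) ≤ 0 := by exact_mod_cast hX.le
  exact mul_le_mul_of_nonpos_right h3 h4

lemma pl_inf (hu : IsOrd u)
    (hc : ∀ c : k, c ≠ 0 → u (algebraMap (RatFunc k) L (RatFunc.C c)) = 0)
    (hX : u (algebraMap (RatFunc k) L RatFunc.X) < 0) (f : k[X]) (hf : f ≠ 0) :
    u ((fun f : k[X] => algebraMap (RatFunc k) L (algebraMap k[X] (RatFunc k) f)) f) = f.natDegree * u (algebraMap (RatFunc k) L RatFunc.X) := by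
  have hX0 : algebraMap (RatFunc k) L RatFunc.X ≠ 0 := by
    rw [Ne, map_eq_zero_iff _ (algebraMap (RatFunc k) L).injective]
    exact RatFunc.X_ne_zero
  set n := f.natDegree with hn
  have hlc : f.leadingCoeff ≠ 0 := leadingCoeff_ne_zero.2 hf
  have h1 : (fun f : k[X] => algebraMap (RatFunc k) L (algebraMap k[X] (RatFunc k) f)) f = (fun f : k[X] => algebraMap (RatFunc k) L (algebraMap k[X] (RatFunc k) f)) (C f.leadingCoeff * X ^ n) + (fun f : k[X] => algebraMap (RatFunc k) L (algebraMap k[X] (RatFunc k) f)) f.eraseLead := by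
    show algebraMap (RatFunc k) L (algebraMap k[X] (RatFunc k) f) =
      algebraMap (RatFunc k) L (algebraMap k[X] (RatFunc k) _) +
      algebraMap (RatFunc k) L (algebraMap k[X] (RatFunc k) _)
    rw [← map_add, ← map_add]
    congr 2
    rw [add_comm, C_mul_X_pow_eq_monomial, hn, eraseLead_add_monomial_natDegree_leadingCoeff]
  have h2 : (fun f : k[X] => algebraMap (RatFunc k) L (algebraMap k[X] (RatFunc k) f)) (C f.leadingCoeff * X ^ n) ≠ 0 :=
    pl_ne (mul_ne_zero (C_ne_zero.2 hlc) (pow_ne_zero _ X_ne_zero))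
  have h3 : u ((fun f : k[X] => algebraMap (RatFunc k) L (algebraMap k[X] (RatFunc k) f)) (C f.leadingCoeff * X ^ n)) =
      n * u (algebraMap (RatFunc k) L RatFunc.X) := by
    show u (algebraMap (RatFunc k) L (algebraMap k[X] (RatFunc k) _)) = _
    rw [map_mul, map_mul, map_pow, map_pow, RatFunc.algebraMap_C, RatFunc.algebraMap_X,
      hu.mul _ _ (by rw [← RatFunc.algebraMap_C]; exact pl_ne (C_ne_zero.2 hlc))
      (pow_ne_zero _ hX0), hc _ hlc, hu.pow hX0, zero_add]
  have h4 := hu.add_eq h2 (y := (fun f : k[X] => algebraMap (RatFunc k) L (algebraMap k[X] (RatFunc k) f)) f.eraseLead) (by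
    by_cases h0 : f.eraseLead = 0
    · left
      simp [h0]
    · right
      have hn1 : 1 ≤ n := by
        by_contra hcon
        have hn0 : f.natDegree = 0 := by omega
        apply h0
        rw [eq_C_of_natDegree_eq_zero hn0]
        simp [eraseLead_C]
      have h5 := pl_inf_GE hu hc hX (n - 1) f.eraseLead (by
        rw [hn]
        exact eraseLead_natDegree_le f)
      have h6 := h5.ord (pl_ne h0)
      have h7 : ((n - 1 : ℕ) : ℤ) * u (algebraMap (RatFunc k) L RatFunc.X) ≤ u ((fun f : k[X] => algebraMap (RatFunc k) L (algebraMap k[X] (RatFunc k) f)) f.eraseLead) := by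
        exact_mod_cast h6
      rw [h3]
      have h8 : ((n - 1 : ℕ) : ℤ) = (n : ℤ) - 1 := by omega
      rw [h8] at h7
      nlinarith)
  rw [h1, h4.2, h3]

/-- the order restricted to `k(T)` at an infinite place -/
lemma uK_inf (hu : IsOrd u)
    (hc : ∀ c : k, c ≠ 0 → u (algebraMap (RatFunc k) L (RatFunc.C c)) = 0)
    (hX : u (algebraMap (RatFunc k) L RatFunc.X) < 0) (f : RatFunc k) (hf : f ≠ 0) :
    u (algebraMap (RatFunc k) L f) = f.intDegree * u (algebraMap (RatFunc k) L RatFunc.X) := by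
  obtain ⟨x, y, hx, hy, hxy⟩ := Y0.exists_mk' hf
  rw [hxy, map_div₀, hu.div (pl_ne hx) (pl_ne hy)]
  have h1 := pl_inf hu hc hX x hx
  have h2 := pl_inf hu hc hX y hy
  rw [Y0.intDegree_mk x y hx hy]
  show u ((fun f : k[X] => algebraMap (RatFunc k) L (algebraMap k[X] (RatFunc k) f)) x) - u ((fun f : k[X] => algebraMap (RatFunc k) L (algebraMap k[X] (RatFunc k) f)) y) = _
  rw [h1, h2]
  ring

end Pool.Agent.TH923.DM
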