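import Mathlib
import Pool.Agent.TH923.DM.Defs
import Pool.Agent.TH923.DM.KVal

/-!
# The global sum
-/

set_option autoImplicit false

namespace Pool.Agent.TH923.DM

open Polynomial

universe w

section

variable {k L : Type w} [Field k] [Field L] [Algebra (RatFunc k) L] {E : ℕ}

/-- The global contradiction. -/
lemma core_sum (P : PD k L E) {G : Type w} [Fintype G] (act : G → Equiv.Perm P.Pl)
    (hu : ∀ σ q, P.wt (act σ q) = P.wt q) (F : Finset P.Pl) (hF : ∀ σ q, q ∈ F ↔ act σ q ∈ F)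
    (ℓ : G → ℕ) (h : ℕ) (p : ℕ) (bq : P.Pl → Fin h → L)
    (X : Finset L) (hX : X.Nonempty) (hX0 : ∀ x ∈ X, x ≠ 0)
    (hXF : ∀ x ∈ X, ∀ q, q ∉ F → P.u q x = 0)
    (Δ : L) (hΔ : Δ ≠ 0) (hΔF : ∀ q, q ∉ F → P.u q Δ = 0)
    (s : P.Pl → (Σ σ : G, Fin (ℓ σ)) → Fin h) (der : P.Pl → ℝ)
    (hb : ∀ q ∈ F, ∑ σ : G, ∑ l : Fin (ℓ σ),
      (p : ℝ) ^ (l : ℕ) * P.u (act σ q) (bq (act σ q) (s q ⟨σ, l⟩)) + der q ≤ P.u q Δ)
    (W : ℝ) (inf : P.Pl → Prop) [DecidablePred inf]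
    (hl : ∀ q ∈ F, W * ∑ x ∈ X, (P.u q x : ℝ) + (if inf q then (X.card : ℝ) else 0) ≤
      X.card * (∑ σ : G, ∑ l : Fin (ℓ σ),
        (p : ℝ) ^ (l : ℕ) * P.u q (bq q (s ((act σ).symm q) ⟨σ, l⟩)) + der q))
    (hinf : ∃ q ∈ F, inf q) : False := by
  classical
  have hXc : (0 : ℝ) < X.card := by exact_mod_cast hX.card_pos
  have hwt : ∀ q, (0 : ℝ) ≤ P.wt q := fun q => by
    have := P.wt_pos q
    exact_mod_cast (by omega : (0 : ℤ) ≤ P.wt q)
  -- product formula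
  have h1 : ∀ x, x ≠ 0 → (∀ q, q ∉ F → P.u q x = 0) →
      ∑ q ∈ F, (P.wt q : ℝ) * P.u q x = 0 := by
    intro x hx hq
    have := P.prod x hx F hq
    exact_mod_cast this
  -- sum of the bounds
  have h2 : ∑ q ∈ F, (P.wt q : ℝ) * (∑ σ : G, ∑ l : Fin (ℓ σ),
      (p : ℝ) ^ (l : ℕ) * P.u (act σ q) (bq (act σ q) (s q ⟨σ, l⟩)) + der q) ≤ 0 := by
    rw [← h1 Δ hΔ hΔF]
    exact Finset.sum_le_sum fun q hq => mul_le_mul_of_nonneg_left (hb q hq) (hwt q)
  -- reindex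
  have h3 : ∑ q ∈ F, (P.wt q : ℝ) * (∑ σ : G, ∑ l : Fin (ℓ σ),
      (p : ℝ) ^ (l : ℕ) * P.u (act σ q) (bq (act σ q) (s q ⟨σ, l⟩)) + der q) =
      ∑ q ∈ F, (P.wt q : ℝ) * (∑ σ : G, ∑ l : Fin (ℓ σ),
      (p : ℝ) ^ (l : ℕ) * P.u q (bq q (s ((act σ).symm q) ⟨σ, l⟩)) + der q) := by
    simp only [mul_add, Finset.sum_add_distrib]
    congr 1
    simp only [Finset.mul_sum]
    rw [Finset.sum_comm]
    conv_rhs => rw [Finset.sum_comm]
    refine Finset.sum_congr rfl fun σ _ => ?_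
    rw [Finset.sum_comm]
    conv_rhs => rw [Finset.sum_comm]
    refine Finset.sum_congr rfl fun l _ => ?_
    refine Finset.sum_equiv (act σ) (fun q => hF σ q) fun q _ => ?_
    rw [hu σ q, Equiv.symm_apply_apply]
  rw [h3] at h2
  -- local inequalities
  have h4 : ∑ q ∈ F, (P.wt q : ℝ) * (W * ∑ x ∈ X, (P.u q x : ℝ) +
      (if inf q then (X.card : ℝ) else 0)) ≤ 0 := by
    have h5 : ∑ q ∈ F, (P.wt q : ℝ) * (W * ∑ x ∈ X, (P.u q x : ℝ) +
        (if inf q then (X.card : ℝ) else 0)) ≤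
        ∑ q ∈ F, (P.wt q : ℝ) * (X.card * (∑ σ : G, ∑ l : Fin (ℓ σ),
          (p : ℝ) ^ (l : ℕ) * P.u q (bq q (s ((act σ).symm q) ⟨σ, l⟩)) + der q)) :=
      Finset.sum_le_sum fun q hq => mul_le_mul_of_nonneg_left (hl q hq) (hwt q)
    refine h5.trans ?_
    have h6 : ∑ q ∈ F, (P.wt q : ℝ) * (X.card * (∑ σ : G, ∑ l : Fin (ℓ σ),
          (p : ℝ) ^ (l : ℕ) * P.u q (bq q (s ((act σ).symm q) ⟨σ, l⟩)) + der q)) =
        X.card * ∑ q ∈ F, (P.wt q : ℝ) * (∑ σ : G, ∑ l : Fin (ℓ σ),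
          (p : ℝ) ^ (l : ℕ) * P.u q (bq q (s ((act σ).symm q) ⟨σ, l⟩)) + der q) := by
      rw [Finset.mul_sum]
      exact Finset.sum_congr rfl fun q _ => by ring
    rw [h6]
    exact mul_nonpos_of_nonneg_of_nonpos hXc.le h2
  have h7 : ∑ q ∈ F, (P.wt q : ℝ) * (W * ∑ x ∈ X, (P.u q x : ℝ) +
      (if inf q then (X.card : ℝ) else 0)) =
      ∑ q ∈ F, (P.wt q : ℝ) * (if inf q then (X.card : ℝ) else 0) := by
    simp only [mul_add, Finset.sum_add_distrib]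
    have h8 : ∑ q ∈ F, (P.wt q : ℝ) * (W * ∑ x ∈ X, (P.u q x : ℝ)) = 0 := by
      have h9 : ∀ q ∈ F, (P.wt q : ℝ) * (W * ∑ x ∈ X, (P.u q x : ℝ)) =
          ∑ x ∈ X, W * ((P.wt q : ℝ) * P.u q x) := by
        intro q _
        rw [Finset.mul_sum, Finset.mul_sum]
        exact Finset.sum_congr rfl fun x _ => by ring
      rw [Finset.sum_congr rfl h9, Finset.sum_comm]
      refine Finset.sum_eq_zero fun x hx => ?_
      rw [← Finset.mul_sum, h1 x (hX0 x hx) (hXF x hx), mul_zero]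
    rw [h8, zero_add]
  rw [h7] at h4
  obtain ⟨q, hqF, hq⟩ := hinf
  have h10 : 0 < ∑ q ∈ F, (P.wt q : ℝ) * (if inf q then (X.card : ℝ) else 0) := by
    apply Finset.sum_pos'
    · intro q _
      refine mul_nonneg (hwt q) ?_
      split_ifs
      · exact hXc.le
      · exact le_rfl
    · refine ⟨q, hqF, ?_⟩
      rw [if_pos hq]
      have := P.wt_pos q
      exact mul_pos (by exact_mod_cast (by omega : (0 : ℤ) < P.wt q)) hXc
  linarith

/-- bound for the zeros of a polynomial -/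
lemma poly_bound (P : PD k L E) (f : k[X]) (hf : f ≠ 0) (T : Finset P.Pl)
    (hT : ∀ q ∈ T, ¬ (P.u q (algebraMap (RatFunc k) L RatFunc.X) < 0)) :
    ∑ q ∈ T, P.wt q * P.u q (algebraMap (RatFunc k) L (algebraMap k[X] (RatFunc k) f)) ≤
      f.natDegree * E := by
  classical
  set y := algebraMap (RatFunc k) L (algebraMap k[X] (RatFunc k) f) with hy
  have hy0 : y ≠ 0 := pl_ne hf
  set S := T ∪ (P.fin y hy0).toFinset with hS
  have h1 := P.prod y hy0 S (by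
    intro v hv
    by_contra h
    exact hv (by simp [hS, h]))
  set S1 := S.filter (fun q => P.u q (algebraMap (RatFunc k) L RatFunc.X) < 0) with hS1
  set S2 := S.filter (fun q => ¬ (P.u q (algebraMap (RatFunc k) L RatFunc.X) < 0)) with hS2
  have h2 : ∑ v ∈ S1, P.wt v * P.u v y + ∑ v ∈ S2, P.wt v * P.u v y = 0 := by
    rw [hS1, hS2, Finset.sum_filter_add_sum_filter_not, h1]
  have h3 : ∀ q, ¬ (P.u q (algebraMap (RatFunc k) L RatFunc.X) < 0) → 0 ≤ P.u q y := by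
    intro q hq
    have h4 := (pl_GE (P.isOrd q) (P.const q) (by
      right
      exact_mod_cast (not_lt.1 hq)) f).ord hy0
    exact_mod_cast h4
  have h4 : ∑ v ∈ T, P.wt v * P.u v y ≤ ∑ v ∈ S2, P.wt v * P.u v y := by
    apply Finset.sum_le_sum_of_subset_of_nonneg
    · intro q hq
      rw [hS2, Finset.mem_filter, hS]
      exact ⟨Finset.mem_union_left _ hq, hT q hq⟩
    · intro q hq _
      rw [hS2, Finset.mem_filter] at hq
      have := P.wt_pos q
      exact mul_nonneg (by omega) (h3 q hq.2)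
  have h5 : - ∑ v ∈ S1, P.wt v * P.u v y ≤ f.natDegree * E := by
    have h6 : - ∑ v ∈ S1, P.wt v * P.u v y =
        f.natDegree * ∑ v ∈ S1, P.wt v * (- P.u v (algebraMap (RatFunc k) L RatFunc.X)) := by
      rw [← Finset.sum_neg_distrib, Finset.mul_sum]
      refine Finset.sum_congr rfl fun v hv => ?_
      rw [hS1, Finset.mem_filter] at hv
      rw [hy, pl_inf (P.isOrd v) (P.const v) hv.2 f hf]
      ring
    rw [h6]
    refine mul_le_mul_of_nonneg_left (P.inf_bound S1 ?_) (by positivity)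
    intro v hv
    rw [hS1, Finset.mem_filter] at hv
    exact hv.2
  linarith

lemma ram_bound (P : PD k L E) (q : P.Pl) (a : k)
    (ha : 0 < P.u q (algebraMap (RatFunc k) L (RatFunc.X - RatFunc.C a))) :
    P.u q (algebraMap (RatFunc k) L (RatFunc.X - RatFunc.C a)) ≤ E := by
  have h1 : ¬ (P.u q (algebraMap (RatFunc k) L RatFunc.X) < 0) := by
    have h2 := X_GE_of_fin (P.isOrd q) (P.const q) a ha
    have h3 := h2.ord (by
      rw [Ne, map_eq_zero_iff _ (algebraMap (RatFunc k) L).injective]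
      exact RatFunc.X_ne_zero)
    have h4 : 0 ≤ P.u q (algebraMap (RatFunc k) L RatFunc.X) := by exact_mod_cast h3
    omega
  have h2 := poly_bound P (X - C a) (X_sub_C_ne_zero a) {q} (by simpa using h1)
  rw [Finset.sum_singleton, natDegree_X_sub_C] at h2
  have h3 : algebraMap (RatFunc k) L (algebraMap k[X] (RatFunc k) (X - C a)) =
      algebraMap (RatFunc k) L (RatFunc.X - RatFunc.C a) := by
    rw [map_sub, RatFunc.algebraMap_X, RatFunc.algebraMap_C]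
  rw [h3, Nat.cast_one, one_mul] at h2
  have h4 := P.wt_pos q
  nlinarith

lemma inf_card (P : PD k L E) (T : Finset P.Pl)
    (hT : ∀ q ∈ T, P.u q (algebraMap (RatFunc k) L RatFunc.X) < 0) : T.card ≤ E := by
  have h1 := P.inf_bound T hT
  have h2 : (T.card : ℤ) ≤
      ∑ v ∈ T, P.wt v * (- P.u v (algebraMap (RatFunc k) L RatFunc.X)) := by
    rw [Finset.card_eq_sum_ones]
    push_cast
    refine Finset.sum_le_sum fun v hv => ?_
    have h3 := hT v hv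
    have h4 := P.wt_pos v
    nlinarith
  exact_mod_cast h2.trans h1

end

section Loc

variable {L : Type*} [Field L] {u : L → ℤ} {p r : ℕ} {g : ℕ → L}

lemma exists_loc (hp : 2 ≤ p) (hr : 1 ≤ r) (hg : g r ≠ 0) : ∃ c, Loc p u g r c := by
  classical
  set S := (Finset.Icc 1 r).filter (fun i => g i ≠ 0) with hS
  have hne : S.Nonempty := ⟨r, by simp [hS, hr, hg]⟩
  obtain ⟨i, hi, hmax⟩ := S.exists_max_image (fun i => -(u (g i) : ℝ) / ((p : ℝ) ^ i - 1)) hne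
  have hpos : ∀ i : ℕ, 1 ≤ i → (0 : ℝ) < (p : ℝ) ^ i - 1 := by
    intro i hi
    have h1 : (1 : ℝ) < p := by exact_mod_cast (by omega : 1 < p)
    have := one_lt_pow₀ h1 (by omega : i ≠ 0)
    linarith
  rw [hS, Finset.mem_filter, Finset.mem_Icc] at hi
  refine ⟨-(u (g i) : ℝ) / ((p : ℝ) ^ i - 1), ?_, ?_⟩
  · intro j hj1 hj2
    by_cases hgj : g j = 0
    · exact Or.inl hgj
    right
    have h1 := hmax j (by rw [hS, Finset.mem_filter, Finset.mem_Icc]; exact ⟨⟨hj1, hj2⟩, hgj⟩)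
    have h2 := hpos j hj1
    rw [div_le_iff₀ h2] at h1
    linarith
  · refine ⟨i, hi.1.1, hi.1.2, hi.2, ?_⟩
    have h2 := hpos i hi.1.1
    field_simp

lemma loc_gap (hp : 2 ≤ p) {c : ℝ} (hL : Loc p u g r c) (x : L) (hx : (u x : ℝ) < c) :
    1 ≤ ((p : ℝ) ^ r - 1) * (c - u x) := by
  obtain ⟨i, hi1, hi2, _, hi4⟩ := hL.eq
  have h1 : (1 : ℝ) ≤ p := by exact_mod_cast (by omega : 1 ≤ p)
  have h2 : (p : ℝ) ^ i ≤ (p : ℝ) ^ r := pow_le_pow_right₀ h1 hi2
  have h3 : (0 : ℝ) < (p : ℝ) ^ i - 1 := by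
    have h1 : (1 : ℝ) < p := by exact_mod_cast (by omega : 1 < p)
    have := one_lt_pow₀ h1 (by omega : i ≠ 0)
    linarith
  have h4 : ((p : ℝ) ^ i - 1) * (c - u x) = ((- u (g i) - ((p : ℤ) ^ i - 1) * u x : ℤ) : ℝ) := by
    push_cast
    rw [hi4]
    ring
  have h5 : 0 < ((p : ℝ) ^ i - 1) * (c - u x) := mul_pos h3 (by linarith)
  rw [h4] at h5
  have h6 : (0 : ℤ) < - u (g i) - ((p : ℤ) ^ i - 1) * u x := by exact_mod_cast h5
  have h7 : (1 : ℤ) ≤ - u (g i) - ((p : ℤ) ^ i - 1) * u x := h6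
  have h8 : (1 : ℝ) ≤ ((p : ℝ) ^ i - 1) * (c - u x) := by
    rw [h4]
    exact_mod_cast h7
  refine h8.trans ?_
  exact mul_le_mul_of_nonneg_right (by linarith) (by linarith)

end Loc

end Pool.Agent.TH923.DM
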