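import Mathlib
import Pool.Agent.TH923.DM.Defs
import Pool.Agent.TH923.DM.Sum

/-!
# Counting the admissible points
-/

set_option autoImplicit false

namespace Pool.Agent.TH923.DM

open Polynomial

universe w

section

variable {k L : Type w} [Field k] [Field L] [Algebra (RatFunc k) L] (p : ℕ) [Fact p.Prime]
  [CharP L p] [Algebra (ZMod p) L] {E : ℕ}

lemma count_X (P : PD k L E) (F : Finset P.Pl) (M V : Submodule (ZMod p) L)
    [FiniteDimensional (ZMod p) M] (hVM : V ≤ M) (h : ℕ)
    (hVh : Module.finrank (ZMod p) V = h) (c : P.Pl → ℝ) (ind : P.Pl → L → Fin h)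
    (hind : ∀ q, ∀ (X : Finset L), (∀ x ∈ X, x ∈ V ∧ x ≠ 0) → ∀ i ≤ h,
      (X.filter (fun x => i ≤ (ind q x : ℕ))).card ≤ p ^ (h - i))
    (t1 S1 A b2 : ℕ) (hb2 : b2 ≤ A) (hA : A ≤ h)
    (ht1 : ∀ q, ¬ (P.u q (algebraMap (RatFunc k) L RatFunc.X) < 0) →
      Module.finrank (ZMod p) (levG p (P.isOrd q) M (c q)) ≤ t1)
    (hS1 : ∀ T : Finset P.Pl, (∀ q ∈ T, ¬ (P.u q (algebraMap (RatFunc k) L RatFunc.X) < 0) ∧
      levG p (P.isOrd q) M (c q) ≠ ⊥) → T.card ≤ S1) :
    ∃ X : Finset L, (∀ x ∈ X, x ∈ V ∧ x ≠ 0) ∧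
      (∀ x ∈ X, ∀ q ∈ F, ¬ (P.u q (algebraMap (RatFunc k) L RatFunc.X) < 0) →
        (P.u q x : ℝ) ≤ c q) ∧
      (∀ x ∈ X, ∀ q ∈ F, P.u q (algebraMap (RatFunc k) L RatFunc.X) < 0 →
        (ind q x : ℕ) < A - b2) ∧
      p ^ h ≤ X.card + (1 + S1 * p ^ t1 + E * p ^ b2) * p ^ (h - A) := by
  classical
  haveI : FiniteDimensional (ZMod p) V := Submodule.finiteDimensional_of_le hVM
  haveI : Finite V := Module.finite_of_finite (ZMod p)
  haveI hfin : ∀ q, Finite (levG p (P.isOrd q) M (c q)) := fun q => by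
    haveI : FiniteDimensional (ZMod p) (levG p (P.isOrd q) M (c q)) :=
      Submodule.finiteDimensional_of_le (S₂ := M) (fun x hx => hx.1)
    exact Module.finite_of_finite (ZMod p)
  have hVfin : (V : Set L).Finite := Set.toFinite _
  set V0 : Finset L := hVfin.toFinset.erase 0 with hV0
  have hV0mem : ∀ x, x ∈ V0 ↔ x ∈ V ∧ x ≠ 0 := by
    intro x
    simp [hV0, and_comm]
  have hp0 : 0 < p := (Fact.out : p.Prime).pos
  have hV0card : V0.card + 1 = p ^ h := by
    have h1 : hVfin.toFinset.card = p ^ h := by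
      rw [← hVh, ← Set.ncard_eq_toFinset_card _ hVfin]
      have h2 := Module.natCard_eq_pow_finrank (K := ZMod p) (V := V)
      rw [Nat.card_zmod] at h2
      rw [← h2]
      rfl
    rw [hV0, Finset.card_erase_of_mem (by simp)]
    have h2 : 0 < hVfin.toFinset.card := by rw [h1]; positivity
    rw [h1] at h2 ⊢
    omega
  set infl := fun q : P.Pl => P.u q (algebraMap (RatFunc k) L RatFunc.X) < 0 with hinfl
  set X := V0.filter (fun x => (∀ q ∈ F, ¬ infl q → (P.u q x : ℝ) ≤ c q) ∧
    (∀ q ∈ F, infl q → (ind q x : ℕ) < A - b2)) with hX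
  refine ⟨X, ?_, ?_, ?_, ?_⟩
  · intro x hx
    rw [hX, Finset.mem_filter] at hx
    exact (hV0mem x).1 hx.1
  · intro x hx
    rw [hX, Finset.mem_filter] at hx
    exact hx.2.1
  · intro x hx
    rw [hX, Finset.mem_filter] at hx
    exact hx.2.2
  · set Sp := F.filter (fun q => ¬ infl q ∧ levG p (P.isOrd q) M (c q) ≠ ⊥) with hSp
    set Inf := F.filter infl with hInf
    have hlf : ∀ q, (levG p (P.isOrd q) M (c q) : Set L).Finite := fun q => Set.toFinite _
    have h1 : V0 \ X ⊆ (Sp.biUnion fun q => (hlf q).toFinset) ∪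
        (Inf.biUnion fun q => V0.filter (fun x => A - b2 ≤ (ind q x : ℕ))) := by
      intro x hx
      rw [Finset.mem_sdiff, hX, Finset.mem_filter] at hx
      obtain ⟨hxV, hx2⟩ := hx
      have hxV' := (hV0mem x).1 hxV
      rw [Finset.mem_union]
      by_contra hcon
      rw [not_or] at hcon
      apply hx2
      refine ⟨hxV, ?_, ?_⟩
      · intro q hq hni
        by_contra hlt
        rw [not_le] at hlt
        apply hcon.1
        have hmem : x ∈ levG p (P.isOrd q) M (c q) := ⟨hVM hxV'.1, Or.inr hlt⟩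
        rw [Finset.mem_biUnion]
        refine ⟨q, ?_, by simpa using hmem⟩
        rw [hSp, Finset.mem_filter]
        refine ⟨hq, hni, ?_⟩
        intro hbot
        rw [hbot] at hmem
        exact hxV'.2 (by simpa using hmem)
      · intro q hq hi
        by_contra hlt
        rw [not_lt] at hlt
        apply hcon.2
        rw [Finset.mem_biUnion]
        refine ⟨q, ?_, ?_⟩
        · rw [hInf, Finset.mem_filter]
          exact ⟨hq, hi⟩
        · rw [Finset.mem_filter]
          exact ⟨hxV, hlt⟩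
    have h2 : (Sp.biUnion fun q => (hlf q).toFinset).card ≤ S1 * p ^ t1 := by
      refine (Finset.card_biUnion_le_card_mul _ _ (p ^ t1) fun q hq => ?_).trans
        (Nat.mul_le_mul_right _ (hS1 Sp fun q hq => ?_))
      · rw [hSp, Finset.mem_filter] at hq
        rw [← Set.ncard_eq_toFinset_card _ (hlf q)]
        have h3 := Module.natCard_eq_pow_finrank (K := ZMod p)
          (V := (levG p (P.isOrd q) M (c q)))
        rw [Nat.card_zmod] at h3
        have h4 : (levG p (P.isOrd q) M (c q) : Set L).ncard =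
            p ^ Module.finrank (ZMod p) (levG p (P.isOrd q) M (c q)) := by
          rw [← h3]
          rfl
        rw [h4]
        exact Nat.pow_le_pow_right hp0 (ht1 q hq.2.1)
      · rw [hSp, Finset.mem_filter] at hq
        exact hq.2
    have h3 : (Inf.biUnion fun q => V0.filter (fun x => A - b2 ≤ (ind q x : ℕ))).card ≤
        E * p ^ (h - (A - b2)) := by
      refine (Finset.card_biUnion_le_card_mul _ _ (p ^ (h - (A - b2))) fun q hq => ?_).trans
        (Nat.mul_le_mul_right _ (inf_card P Inf fun q hq => ?_))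
      · exact hind q V0 (fun x hx => (hV0mem x).1 hx) _ (by omega)
      · rw [hInf, Finset.mem_filter] at hq
        exact hq.2
    have h4 : (V0 \ X).card ≤ S1 * p ^ t1 + E * p ^ (h - (A - b2)) :=
      (Finset.card_le_card h1).trans ((Finset.card_union_le _ _).trans (Nat.add_le_add h2 h3))
    have h5 : V0.card ≤ X.card + (V0 \ X).card := by
      have h6 := Finset.card_sdiff_add_card_eq_card (Finset.filter_subset (fun x =>
        (∀ q ∈ F, ¬ infl q → (P.u q x : ℝ) ≤ c q) ∧
        (∀ q ∈ F, infl q → (ind q x : ℕ) < A - b2)) V0)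
      rw [← hX] at h6
      omega
    have h6 : E * p ^ (h - (A - b2)) = E * p ^ b2 * p ^ (h - A) := by
      rw [mul_assoc, ← pow_add]
      congr 2
      omega
    have h7 : 1 ≤ p ^ (h - A) := Nat.one_le_pow _ _ hp0
    have h8 : S1 * p ^ t1 ≤ S1 * p ^ t1 * p ^ (h - A) := Nat.le_mul_of_pos_right _ (by omega)
    have h9 : (1 + S1 * p ^ t1 + E * p ^ b2) * p ^ (h - A) =
        p ^ (h - A) + S1 * p ^ t1 * p ^ (h - A) + E * p ^ b2 * p ^ (h - A) := by ring
    rw [h9]
    omega

end

end Pool.Agent.TH923.DM
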