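import Mathlib
import Pool.Agent.TH923.DM.Defs

/-!
# The local inequalities in terms of orders
-/

set_option autoImplicit false

namespace Pool.Agent.TH923.DM

open Polynomial

universe w

section

variable {p n A b w' b2 h J1 : ℕ} {G : Type w} [Fintype G] {e : G} {ℓ : G → ℕ}
  {s : G → ℕ → Fin h} {sD : Fin h} {L : Type w} {u : L → ℤ} {bq : Fin h → L}
  {ind : L → Fin h} {X : Finset L}

/-- finite places -/
lemma local_fin (hLOC : S_LOC.{w}) (hp : 2 ≤ p) (hb : b ≤ w') (hw : w' ≤ A) (hA : A + 1 ≤ h)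
    (hJ : 2 * J1 ≤ p ^ A) (hE : 2 * (n + 2 * (n + 1) * J1 + 1) ≤ p ^ b)
    (hG : Fintype.card G ≤ n) (hℓe : ℓ e = A) (hℓ : ∀ σ, ℓ σ ≤ A)
    (hs : ∀ σ, ∀ l < ℓ σ, ∀ l' < ℓ σ, s σ l = s σ l' → l = l') (hsD : ∀ l < A, s e l ≠ sD)
    (hX : ∀ i ≤ h, (X.filter (fun x => i ≤ (ind x : ℕ))).card ≤ p ^ (h - i))
    (hXc : p ^ h ≤ X.card + J1 * p ^ (h - A))
    (c : ℝ) (hmono : Monotone (fun i => u (bq i)))
    (hXu : ∀ x ∈ X, u x = u (bq (ind x))) (hXn : ∀ x ∈ X, (u x : ℝ) ≤ c)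
    (hdec : ∀ i i0 : Fin h, (i : ℕ) = 0 → (i0 : ℕ) = A - w' →
      (1 + (p : ℝ) ^ w') * max 0 (c - u (bq i0)) ≤ max 0 (c - u (bq i))) :
    (∑ σ, ∑ l ∈ Finset.range (ℓ σ), (p : ℝ) ^ l + (p : ℝ) ^ b) * ∑ x ∈ X, (u x : ℝ) ≤
      X.card * (∑ σ, ∑ l ∈ Finset.range (ℓ σ), (p : ℝ) ^ l * u (bq (s σ l)) +
        ((p : ℝ) ^ b * c - (p : ℝ) ^ w' * max 0 (c - u (bq sD)))) := by
  have h1 := hLOC p n A b w' h J1 hp hb hw hA hJ hE G e hG ℓ hℓe hℓ s sD hs hsD L X ind hX hXc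
    (fun i => max 0 (c - u (bq i))) (by
      intro i j hij
      have h2 : (u (bq i) : ℝ) ≤ u (bq j) := by exact_mod_cast hmono hij
      exact max_le_max le_rfl (by linarith)) (fun i => le_max_left _ _) hdec
  have h2 : ∑ x ∈ X, max 0 (c - (u (bq (ind x)) : ℝ)) = X.card * c - ∑ x ∈ X, (u x : ℝ) := by
    rw [← nsmul_eq_mul, ← Finset.sum_const, ← Finset.sum_sub_distrib]
    refine Finset.sum_congr rfl fun x hx => ?_
    rw [← hXu x hx, max_eq_right (by have := hXn x hx; linarith)]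
  rw [h2] at h1
  have h3 : ∑ σ, ∑ l ∈ Finset.range (ℓ σ), (p : ℝ) ^ l * c -
      ∑ σ, ∑ l ∈ Finset.range (ℓ σ), (p : ℝ) ^ l * u (bq (s σ l)) ≤
      ∑ σ, ∑ l ∈ Finset.range (ℓ σ), (p : ℝ) ^ l * max 0 (c - u (bq (s σ l))) := by
    rw [← Finset.sum_sub_distrib]
    refine Finset.sum_le_sum fun σ _ => ?_
    rw [← Finset.sum_sub_distrib]
    refine Finset.sum_le_sum fun l _ => ?_
    rw [← mul_sub]
    exact mul_le_mul_of_nonneg_left (le_max_right _ _) (by positivity)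
  have h4 : ∑ σ, ∑ l ∈ Finset.range (ℓ σ), (p : ℝ) ^ l * c =
      (∑ σ, ∑ l ∈ Finset.range (ℓ σ), (p : ℝ) ^ l) * c := by
    rw [Finset.sum_mul]
    refine Finset.sum_congr rfl fun σ _ => ?_
    rw [Finset.sum_mul]
  rw [h4] at h3
  have hcard : (0 : ℝ) ≤ X.card := by positivity
  have h5 := mul_le_mul_of_nonneg_left h3 hcard
  nlinarith

/-- infinite places -/
lemma local_inf (hLOC : S_LOCinf.{w}) (hp : 2 ≤ p) (hb2 : b2 ≤ b) (hbA : 2 * b ≤ A)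
    (hA : A + 1 ≤ h) (hJ : 2 * J1 ≤ p ^ A) (hE : 2 * (n + 2 * (n + 1) * J1 + 1) ≤ p ^ b)
    (hn : n + 3 ≤ p ^ b2) (hEA : 2 * (n + 1) * J1 ≤ p ^ (A - b))
    (hG : Fintype.card G ≤ n) (hℓe : ℓ e = A) (hℓ : ∀ σ, ℓ σ ≤ A)
    (hs : ∀ σ, ∀ l < ℓ σ, ∀ l' < ℓ σ, s σ l = s σ l' → l = l') (hsD : ∀ l < A, s e l ≠ sD)
    (hX : ∀ i ≤ h, (X.filter (fun x => i ≤ (ind x : ℕ))).card ≤ p ^ (h - i))
    (hXc : p ^ h ≤ X.card + J1 * p ^ (h - A))
    (hmono : Monotone (fun i => u (bq i)))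
    (hXu : ∀ x ∈ X, u x = u (bq (ind x))) (hXi : ∀ x ∈ X, (ind x : ℕ) < A - b2)
    (hdec : ∀ i i0 : Fin h, (i : ℕ) = 0 → (i0 : ℕ) = A - b2 → u (bq i) + 1 ≤ u (bq i0)) :
    (∑ σ, ∑ l ∈ Finset.range (ℓ σ), (p : ℝ) ^ l + (p : ℝ) ^ b) * ∑ x ∈ X, (u x : ℝ) + X.card ≤
      X.card * (∑ σ, ∑ l ∈ Finset.range (ℓ σ), (p : ℝ) ^ l * u (bq (s σ l)) +
        (p : ℝ) ^ b * u (bq sD)) := by
  have h0 : 0 < h := by omega
  set i1 : Fin h := ⟨A - b2, by omega⟩ with hi1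
  set i0 : Fin h := ⟨0, h0⟩ with hi0
  set c : ℝ := ((u (bq i1) : ℤ) : ℝ) with hc
  have h1 := hLOC p n A b b2 h J1 hp hb2 hbA hA hJ hE hn hEA G e hG ℓ hℓe hℓ s sD hs hsD L X ind
    hX hXc (fun i => max 0 (c - u (bq i))) (by
      intro i j hij
      have h2 : (u (bq i) : ℝ) ≤ u (bq j) := by exact_mod_cast hmono hij
      exact max_le_max le_rfl (by linarith)) (fun i => le_max_left _ _) (by
      intro i hi
      have h2 : u (bq i1) ≤ u (bq i) := hmono (show i1 ≤ i from hi)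
      have h3 : (u (bq i1) : ℝ) ≤ u (bq i) := by exact_mod_cast h2
      exact max_eq_left (by linarith)) i0 rfl
  have h2 : ∑ x ∈ X, max 0 (c - (u (bq (ind x)) : ℝ)) = X.card * c - ∑ x ∈ X, (u x : ℝ) := by
    rw [← nsmul_eq_mul, ← Finset.sum_const, ← Finset.sum_sub_distrib]
    refine Finset.sum_congr rfl fun x hx => ?_
    have h3 : u (bq (ind x)) ≤ u (bq i1) := hmono (show ind x ≤ i1 from (hXi x hx).le)
    have h4 : (u (bq (ind x)) : ℝ) ≤ u (bq i1) := by exact_mod_cast h3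
    rw [max_eq_right (by linarith), hXu x hx]
  rw [h2] at h1
  have h3 : ∑ σ, ∑ l ∈ Finset.range (ℓ σ), (p : ℝ) ^ l * c -
      ∑ σ, ∑ l ∈ Finset.range (ℓ σ), (p : ℝ) ^ l * u (bq (s σ l)) ≤
      ∑ σ, ∑ l ∈ Finset.range (ℓ σ), (p : ℝ) ^ l * max 0 (c - u (bq (s σ l))) := by
    rw [← Finset.sum_sub_distrib]
    refine Finset.sum_le_sum fun σ _ => ?_
    rw [← Finset.sum_sub_distrib]
    refine Finset.sum_le_sum fun l _ => ?_
    rw [← mul_sub]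
    exact mul_le_mul_of_nonneg_left (le_max_right _ _) (by positivity)
  have h4 : ∑ σ, ∑ l ∈ Finset.range (ℓ σ), (p : ℝ) ^ l * c =
      (∑ σ, ∑ l ∈ Finset.range (ℓ σ), (p : ℝ) ^ l) * c := by
    rw [Finset.sum_mul]
    refine Finset.sum_congr rfl fun σ _ => ?_
    rw [Finset.sum_mul]
  rw [h4] at h3
  have h6 : (1 : ℝ) ≤ max 0 (c - u (bq i0)) := by
    have h7 := hdec i0 i1 rfl rfl
    have h8 : (u (bq i0) : ℝ) + 1 ≤ u (bq i1) := by exact_mod_cast h7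
    exact le_max_of_le_right (by linarith)
  have h7 : (p : ℝ) ^ b * (c - u (bq sD)) ≤ (p : ℝ) ^ b * max 0 (c - u (bq sD)) :=
    mul_le_mul_of_nonneg_left (le_max_right _ _) (by positivity)
  have hcard : (0 : ℝ) ≤ X.card := by positivity
  have h5 := mul_le_mul_of_nonneg_left h3 hcard
  have h8 := mul_le_mul_of_nonneg_left h7 hcard
  have h9 := mul_le_mul_of_nonneg_left h6 hcard
  nlinarith

end

end Pool.Agent.TH923.DM
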