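import Mathlib
import Pool.Agent.TH923.DM.Defs

/-!
# The determinant at a place
-/

set_option autoImplicit false

namespace Pool.Agent.TH923.DM

open Polynomial

universe w

section Det

variable {L T : Type w} [Field L] [Fintype T] [DecidableEq T]

lemma det_update_span (M : Matrix (Option T) (Option T) L) (v : Option T → L)
    (hv : v ∈ Submodule.span L (Set.range (fun t : T => M (some t)))) :
    (M.updateRow none v).det = 0 := by
  induction hv using Submodule.span_induction with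
  | mem x hx =>
    obtain ⟨t, rfl⟩ := hx
    apply Matrix.det_zero_of_row_eq (i := none) (j := some t) (by simp)
    ext j
    rw [Matrix.updateRow_self, Matrix.updateRow_ne (by simp)]
  | zero =>
    apply Matrix.det_eq_zero_of_row_eq_zero none
    intro j
    simp
  | add x y _ _ hx hy => rw [Matrix.det_updateRow_add, hx, hy, add_zero]
  | smul c x _ hx => rw [Matrix.det_updateRow_smul, hx, mul_zero]

lemma det_add_span (M N : Matrix (Option T) (Option T) L) (hMN : ∀ t, N (some t) = M (some t))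
    (hv : N none - M none ∈ Submodule.span L (Set.range (fun t : T => M (some t)))) :
    N.det = M.det := by
  have h1 : N = M.updateRow none (M none + (N none - M none)) := by
    ext i j
    cases i with
    | none => simp
    | some t => rw [hMN t]; simp
  rw [h1, Matrix.det_updateRow_add, det_update_span M _ hv, add_zero, Matrix.updateRow_eq_self]

end Det

section Rows

variable {k L : Type w} [Field k] [Field L] [Algebra (RatFunc k) L] (p : ℕ) [Fact p.Prime]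
  [CharP L p]

/-- `x ↦ (σ x) ^ (p ^ l)` -/
noncomputable def rowF (σ : L ≃ₐ[RatFunc k] L) (l : ℕ) : L →+ L :=
  (iterateFrobenius L p l).toAddMonoidHom.comp (σ : L →+* L).toAddMonoidHom

omit [CharP L p] in
lemma rowF_apply [CharP L p] (σ : L ≃ₐ[RatFunc k] L) (l : ℕ) (x : L) :
    rowF p σ l x = (σ x) ^ (p ^ l) := by
  simp [rowF, iterateFrobenius_def]

variable [FiniteDimensional (RatFunc k) L]

/-- `x ↦ D x - ∑ σ, ν σ * σ x` -/
noncomputable def nab (D : Derivation ℤ L L) (ν : (L ≃ₐ[RatFunc k] L) → L) : L →+ L where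
  toFun := fun x => D x - ∑ σ, ν σ * σ x
  map_zero' := by simp
  map_add' := fun x y => by
    simp only [map_add, mul_add, Finset.sum_add_distrib]
    ring

/-- `x ↦ (D x - ∑ σ, ν σ * σ x) ^ (p ^ b)` -/
noncomputable def rowN (D : Derivation ℤ L L) (ν : (L ≃ₐ[RatFunc k] L) → L) (b : ℕ) : L →+ L :=
  (iterateFrobenius L p b).toAddMonoidHom.comp (nab D ν)

lemma rowN_apply (D : Derivation ℤ L L) (ν : (L ≃ₐ[RatFunc k] L) → L) (b : ℕ) (x : L) :
    rowN p D ν b x = (D x - ∑ σ, ν σ * σ x) ^ (p ^ b) := by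
  simp [rowN, nab, iterateFrobenius_def]

/-- the rows of the big determinant -/
noncomputable def rows (D : Derivation ℤ L L) (ℓ : (L ≃ₐ[RatFunc k] L) → ℕ) (b : ℕ)
    (ν : (L ≃ₐ[RatFunc k] L) → L) : Option (Σ σ : (L ≃ₐ[RatFunc k] L), Fin (ℓ σ)) → L →+ L
  | none => rowN p D ν b
  | some ρ => rowF p ρ.1 ρ.2

/-- The determinant does not depend on `ν`. -/
lemma det_rows (D : Derivation ℤ L L) (ℓ : (L ≃ₐ[RatFunc k] L) → ℕ) (b : ℕ)
    (ν : (L ≃ₐ[RatFunc k] L) → L) [DecidableEq (Σ σ : (L ≃ₐ[RatFunc k] L), Fin (ℓ σ))]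
    (x : Option (Σ σ : (L ≃ₐ[RatFunc k] L), Fin (ℓ σ)) → L)
    (hsp : ∀ σ : (L ≃ₐ[RatFunc k] L), (fun j => (σ (x j)) ^ (p ^ b)) ∈
      Submodule.span L (Set.range (fun (ρ : Σ σ : (L ≃ₐ[RatFunc k] L), Fin (ℓ σ)) j =>
        (ρ.1 (x j)) ^ (p ^ (ρ.2 : ℕ))))) :
    (Matrix.of fun ρ j => rows p D ℓ b ν ρ (x j)).det =
      (Matrix.of fun ρ j => rows p D ℓ b 0 ρ (x j)).det := by
  apply det_add_span
  · intro t
    rfl
  · have h1 : (Matrix.of fun ρ j => rows p D ℓ b ν ρ (x j)) none -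
        (Matrix.of fun ρ j => rows p D ℓ b 0 ρ (x j)) none =
        - ∑ σ, (ν σ) ^ (p ^ b) • (fun j => (σ (x j)) ^ (p ^ b)) := by
      ext j
      show rowN p D ν b (x j) - rowN p D 0 b (x j) = _
      rw [rowN_apply, rowN_apply, sub_pow_char_pow]
      simp only [Pi.zero_apply, zero_mul, Finset.sum_const_zero, sub_zero, Pi.neg_apply,
        Finset.sum_apply, Pi.smul_apply, smul_eq_mul]
      rw [sum_pow_char_pow]
      simp only [mul_pow]
      ring
    rw [h1]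
    refine Submodule.neg_mem _ (Submodule.sum_mem _ fun σ _ => Submodule.smul_mem _ _ ?_)
    have h2 : (fun (t : Σ σ : (L ≃ₐ[RatFunc k] L), Fin (ℓ σ)) =>
        (Matrix.of fun ρ j => rows p D ℓ b 0 ρ (x j)) (some t)) =
        (fun (ρ : Σ σ : (L ≃ₐ[RatFunc k] L), Fin (ℓ σ)) j =>
          (ρ.1 (x j)) ^ (p ^ (ρ.2 : ℕ))) := by
      funext t j
      show rowF p t.1 t.2 (x j) = _
      rw [rowF_apply]
    rw [h2]
    exact hsp σ

/-- The lower bound of the determinant at a place. -/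
lemma place_bound (hDET : S_DET.{w}) [Algebra (ZMod p) L] (D : Derivation ℤ L L)
    (ℓ : (L ≃ₐ[RatFunc k] L) → ℕ) (b : ℕ) (h : ℕ)
    (hcard : Fintype.card (Option (Σ σ : (L ≃ₐ[RatFunc k] L), Fin (ℓ σ))) = h)
    [DecidableEq (Σ σ : (L ≃ₐ[RatFunc k] L), Fin (ℓ σ))]
    (x : Option (Σ σ : (L ≃ₐ[RatFunc k] L), Fin (ℓ σ)) → L)
    (hsp : ∀ σ : (L ≃ₐ[RatFunc k] L), (fun j => (σ (x j)) ^ (p ^ b)) ∈
      Submodule.span L (Set.range (fun (ρ : Σ σ : (L ≃ₐ[RatFunc k] L), Fin (ℓ σ)) j =>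
        (ρ.1 (x j)) ^ (p ^ (ρ.2 : ℕ)))))
    (hΔ : (Matrix.of fun ρ j => rows p D ℓ b 0 ρ (x j)).det ≠ 0)
    (u : L → ℤ) (hu : IsOrd u) (bb : (L ≃ₐ[RatFunc k] L) → Fin h → L)
    (hbb : ∀ β j, x j ∈ Submodule.span (ZMod p) (Set.range (bb β)))
    (ν : (L ≃ₐ[RatFunc k] L) → L) (B : L → ℝ)
    (hB : ∀ i, GE u (D (bb 1 i) - ∑ σ, ν σ * σ (bb 1 i)) (B (bb 1 i))) :
    ∃ s : (Option (Σ σ : (L ≃ₐ[RatFunc k] L), Fin (ℓ σ))) → Fin h,
      (∀ σ, ∀ l l' : Fin (ℓ σ), s (some ⟨σ, l⟩) = s (some ⟨σ, l'⟩) → l = l') ∧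
      (∀ l : Fin (ℓ 1), s (some ⟨1, l⟩) ≠ s none) ∧
      ∑ σ : (L ≃ₐ[RatFunc k] L), ∑ l : Fin (ℓ σ),
        (p : ℝ) ^ (l : ℕ) * u (σ (bb σ (s (some ⟨σ, l⟩)))) + (p : ℝ) ^ b * B (bb 1 (s none)) ≤
      u (Matrix.of fun ρ j => rows p D ℓ b 0 ρ (x j)).det := by
  have h1 := det_rows p D ℓ b ν x hsp
  obtain ⟨s, hs1, hs2, hs3⟩ := hDET p L u hu (Option (Σ σ : (L ≃ₐ[RatFunc k] L), Fin (ℓ σ))) h
    hcard (rows p D ℓ b ν) x (L ≃ₐ[RatFunc k] L)
    (fun ρ => match ρ with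
      | none => 1
      | some ρ => ρ.1) bb hbb (by rw [h1]; exact hΔ)
  rw [h1] at hs3
  refine ⟨s, ?_, ?_, ?_⟩
  · intro σ l l' hll
    have h2 := hs1 (some ⟨σ, l⟩) (some ⟨σ, l'⟩) rfl hll
    simpa using h2
  · intro l hl
    have h2 := hs1 (some ⟨1, l⟩) none rfl hl
    simp at h2
  · have h4 : ((∑ ρ, u (rows p D ℓ b ν ρ (bb (match ρ with
      | none => 1
      | some ρ => ρ.1) (s ρ))) : ℤ) : ℝ) ≤
      (u (Matrix.of fun ρ j => rows p D ℓ b 0 ρ (x j)).det : ℝ) := by exact_mod_cast hs3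
    refine le_trans ?_ h4
    push_cast
    rw [Fintype.sum_option, add_comm, Fintype.sum_sigma]
    have hpb : p ^ b ≠ 0 := pow_ne_zero _ (Fact.out : p.Prime).ne_zero
    have h5 : (D (bb 1 (s none)) - ∑ σ, ν σ * σ (bb 1 (s none))) ≠ 0 := by
      have h6 := hs2 none
      intro h7
      apply h6
      show rowN p D ν b (bb 1 (s none)) = 0
      rw [rowN_apply, h7, zero_pow hpb]
    refine add_le_add ?_ ?_
    · show _ ≤ ((u (rowN p D ν b (bb 1 (s none))) : ℤ) : ℝ)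
      rw [rowN_apply, hu.pow h5]
      push_cast
      exact mul_le_mul_of_nonneg_left ((hB (s none)).ord h5) (by positivity)
    · refine Finset.sum_le_sum fun σ _ => Finset.sum_le_sum fun l _ => ?_
      show _ ≤ ((u (rowF p σ l (bb σ (s (some ⟨σ, l⟩)))) : ℤ) : ℝ)
      have h6 := hs2 (some ⟨σ, l⟩)
      have h7 : σ (bb σ (s (some ⟨σ, l⟩))) ≠ 0 := by
        intro h7
        apply h6
        show rowF p σ l (bb σ (s (some ⟨σ, l⟩))) = 0
        rw [rowF_apply, h7, zero_pow (pow_ne_zero _ (Fact.out : p.Prime).ne_zero)]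
      rw [rowF_apply, hu.pow h7]
      push_cast
      exact le_rfl

end Rows

end Pool.Agent.TH923.DM
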