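import Mathlib
import Pool.Agent.TH923.DM.Defs
import Pool.Agent.TH923.DM.PlDet

/-!
# Choice of the points
-/

set_option autoImplicit false

namespace Pool.Agent.TH923.DM

open Polynomial

universe w

section

variable {k L : Type w} [Field k] [Field L] [Algebra (RatFunc k) L] (p : ℕ) [Fact p.Prime]
  [CharP L p] [Algebra (ZMod p) L] [FiniteDimensional (RatFunc k) L]

lemma exists_points (hPTS : S_PTS.{w}) (M : Submodule (ZMod p) L) (D : Derivation ℤ L L)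
    (ℓ : (L ≃ₐ[RatFunc k] L) → ℕ) (b : ℕ)
    [DecidableEq (Σ σ : (L ≃ₐ[RatFunc k] L), Fin (ℓ σ))]
    (hli : LinearIndependent L (fun (ρ : Σ σ : (L ≃ₐ[RatFunc k] L), Fin (ℓ σ)) (x : M) =>
      (ρ.1 • (x : L)) ^ (p ^ (ρ.2 : ℕ))))
    (hD : (fun x : M => (D (x : L)) ^ (p ^ b)) ∉ Submodule.span L (Set.range
      (fun (ρ : Σ σ : (L ≃ₐ[RatFunc k] L), Fin (ℓ σ)) (x : M) =>
        (ρ.1 • (x : L)) ^ (p ^ (ρ.2 : ℕ))))) :
    ∃ x : Option (Σ σ : (L ≃ₐ[RatFunc k] L), Fin (ℓ σ)) → M,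
      (Matrix.of fun ρ j => rows p D ℓ b 0 ρ (x j : L)).det ≠ 0 := by
  have h1 : LinearIndependent L (fun (ρ : Option (Σ σ : (L ≃ₐ[RatFunc k] L), Fin (ℓ σ)))
      (x : M) => rows p D ℓ b 0 ρ (x : L)) := by
    rw [linearIndependent_option]
    have h2 : ((fun (ρ : Option (Σ σ : (L ≃ₐ[RatFunc k] L), Fin (ℓ σ)))
        (x : M) => rows p D ℓ b 0 ρ (x : L)) ∘ (fun t => some t)) =
        (fun (ρ : Σ σ : (L ≃ₐ[RatFunc k] L), Fin (ℓ σ)) (x : M) =>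
          (ρ.1 • (x : L)) ^ (p ^ (ρ.2 : ℕ))) := by
      funext ρ x
      show rowF p ρ.1 ρ.2 (x : L) = _
      rw [rowF_apply]
      rfl
    have h3 : (fun (x : M) => rows p D ℓ b 0 none (x : L)) =
        (fun x : M => (D (x : L)) ^ (p ^ b)) := by
      funext x
      show rowN p D 0 b (x : L) = _
      rw [rowN_apply]
      simp
    refine ⟨?_, ?_⟩
    · rw [h2]; exact hli
    · rw [h2, h3]; exact hD
  exact hPTS L M (Option (Σ σ : (L ≃ₐ[RatFunc k] L), Fin (ℓ σ))) _ h1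

lemma points_li (D : Derivation ℤ L L) (ℓ : (L ≃ₐ[RatFunc k] L) → ℕ) (b : ℕ)
    [DecidableEq (Σ σ : (L ≃ₐ[RatFunc k] L), Fin (ℓ σ))]
    (x : Option (Σ σ : (L ≃ₐ[RatFunc k] L), Fin (ℓ σ)) → L)
    (hx : (Matrix.of fun ρ j => rows p D ℓ b 0 ρ (x j)).det ≠ 0) :
    LinearIndependent (ZMod p) x := by
  rw [Fintype.linearIndependent_iff]
  intro c hc
  have h1 : (Matrix.of fun ρ j => rows p D ℓ b 0 ρ (x j)).mulVec
      (fun j => algebraMap (ZMod p) L (c j)) = 0 := by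
    funext ρ
    have h2 : rows p D ℓ b 0 ρ (∑ j, c j • x j) = 0 := by rw [hc, map_zero]
    rw [map_sum] at h2
    simp only [Matrix.mulVec, dotProduct, Matrix.of_apply, Pi.zero_apply]
    rw [← h2]
    refine Finset.sum_congr rfl fun j _ => ?_
    rw [ZMod.map_smul, Algebra.smul_def, mul_comm]
  have h3 := Matrix.eq_zero_of_mulVec_eq_zero hx h1
  intro j
  have h4 := congrFun h3 j
  simpa using h4

omit [CharP L p] in
lemma span_restrict [CharP L p] (M : Submodule (ZMod p) L) (ℓ : (L ≃ₐ[RatFunc k] L) → ℕ) (b A : ℕ)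
    (hbA : b < A)
    (hsp : ∀ (σ : L ≃ₐ[RatFunc k] L) (l : ℕ), l < A →
      (fun x : M => (σ • (x : L)) ^ (p ^ l)) ∈
      Submodule.span L (Set.range (fun (ρ : Σ σ : (L ≃ₐ[RatFunc k] L), Fin (ℓ σ)) (x : M) =>
        (ρ.1 • (x : L)) ^ (p ^ (ρ.2 : ℕ)))))
    {ι : Type w} (x : ι → M) (σ : L ≃ₐ[RatFunc k] L) :
    (fun j => (σ (x j : L)) ^ (p ^ b)) ∈
      Submodule.span L (Set.range (fun (ρ : Σ σ : (L ≃ₐ[RatFunc k] L), Fin (ℓ σ)) j =>
        (ρ.1 (x j : L)) ^ (p ^ (ρ.2 : ℕ)))) := by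
  have h1 := Submodule.mem_map_of_mem (f := LinearMap.funLeft L L x) (hsp σ b hbA)
  rw [Submodule.map_span, ← Set.range_comp] at h1
  exact h1

end

end Pool.Agent.TH923.DM
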