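import Mathlib
import Pool.Agent.TH923.DM.Defs

/-!
# Twisting the places by the Galois group
-/

set_option autoImplicit false

namespace Pool.Agent.TH923.DM

open Polynomial

universe w

variable {k L : Type w} [Field k] [Field L] [Algebra (RatFunc k) L] {E E' : ℕ}

/-- weaken the bound -/
noncomputable def PD.mono (h : E ≤ E') (P : PD k L E) : PD k L E' :=
  { P with
    inf_bound := fun T hT => (P.inf_bound T hT).trans (by exact_mod_cast h) }

variable [FiniteDimensional (RatFunc k) L]

/-- the twisted places -/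
noncomputable def PD.twist (P : PD k L E) : PD k L (Fintype.card (L ≃ₐ[RatFunc k] L) * E) where
  Pl := P.Pl × (L ≃ₐ[RatFunc k] L)
  wt := fun q => P.wt q.1
  u := fun q x => P.u q.1 (q.2 x)
  wt_pos := fun q => P.wt_pos q.1
  isOrd := fun q => (P.isOrd q.1).comp (q.2 : L →+* L)
  const := fun q c hc => by
    rw [AlgEquiv.commutes]
    exact P.const q.1 c hc
  fin := fun x hx => by
    have h1 : {q : P.Pl × (L ≃ₐ[RatFunc k] L) | P.u q.1 (q.2 x) ≠ 0} ⊆
        ⋃ σ : (L ≃ₐ[RatFunc k] L), (fun v => (v, σ)) '' {v | P.u v (σ x) ≠ 0} := by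
      rintro ⟨v, σ⟩ h
      exact Set.mem_iUnion.2 ⟨σ, v, h, rfl⟩
    refine Set.Finite.subset (Set.finite_iUnion fun σ => ?_) h1
    exact (P.fin (σ x) ((_root_.map_ne_zero _).2 hx)).image _
  prod := fun x hx T hT => by
    classical
    have h1 : ∑ q ∈ T, P.wt q.1 * P.u q.1 (q.2 x) =
        ∑ q ∈ (T.image Prod.fst) ×ˢ (Finset.univ : Finset (L ≃ₐ[RatFunc k] L)),
          P.wt q.1 * P.u q.1 (q.2 x) := by
      apply Finset.sum_subset
      · rintro ⟨v, σ⟩ h
        exact Finset.mem_product.2 ⟨Finset.mem_image.2 ⟨_, h, rfl⟩, Finset.mem_univ _⟩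
      · intro q _ hq
        rw [hT q hq, mul_zero]
    rw [h1, Finset.sum_product_right]
    refine Finset.sum_eq_zero fun σ _ => ?_
    refine P.prod (σ x) ((_root_.map_ne_zero _).2 hx) _ fun v hv => ?_
    refine hT (v, σ) fun h => hv ?_
    exact Finset.mem_image.2 ⟨_, h, rfl⟩
  cases := fun q => by
    simp only [AlgEquiv.commutes]
    exact P.cases q.1
  exists_inf := by
    obtain ⟨v, hv⟩ := P.exists_inf
    refine ⟨(v, 1), ?_⟩
    simp only [AlgEquiv.commutes]
    exact hv
  inf_bound := fun T hT => by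
    classical
    simp only [AlgEquiv.commutes] at hT ⊢
    have h1 : ∑ q ∈ T, P.wt q.1 * (- P.u q.1 (algebraMap (RatFunc k) L RatFunc.X)) ≤
        ∑ q ∈ (T.image Prod.fst) ×ˢ (Finset.univ : Finset (L ≃ₐ[RatFunc k] L)),
          P.wt q.1 * (- P.u q.1 (algebraMap (RatFunc k) L RatFunc.X)) := by
      apply Finset.sum_le_sum_of_subset_of_nonneg
      · rintro ⟨v, σ⟩ h
        exact Finset.mem_product.2 ⟨Finset.mem_image.2 ⟨_, h, rfl⟩, Finset.mem_univ _⟩
      · rintro ⟨v, σ⟩ hq _
        obtain ⟨q', hq', hv⟩ := Finset.mem_image.1 (Finset.mem_product.1 hq).1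
        have h2 := hT q' hq'
        have h3 := P.wt_pos v
        simp only at hv
        rw [hv] at h2
        show (0 : ℤ) ≤ P.wt v * (- P.u v (algebraMap (RatFunc k) L RatFunc.X))
        exact mul_nonneg (by omega) (by omega)
    refine h1.trans ?_
    rw [Finset.sum_product_right]
    simp only [Finset.sum_const, Finset.card_univ, nsmul_eq_mul]
    push_cast
    refine mul_le_mul_of_nonneg_left (P.inf_bound _ ?_) (by positivity)
    intro v hv
    obtain ⟨q', hq', rfl⟩ := Finset.mem_image.1 hv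
    exact hT q' hq'

end Pool.Agent.TH923.DM
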