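import Mathlib
import Pool.Agent.TH923.DM.Defs
import Pool.Agent.TH923.DM.Tw

/-!
# Existence of the twisted places with the Galois action
-/

set_option autoImplicit false

namespace Pool.Agent.TH923.DM

open Polynomial

universe w

variable {k L : Type w} [Field k] [Field L] [Algebra (RatFunc k) L] {E E' : ℕ}
  [FiniteDimensional (RatFunc k) L]

/-- the action on the twisted places -/
noncomputable def actPl (P0 : PD k L E) (σ : L ≃ₐ[RatFunc k] L) : Equiv.Perm (P0.Pl × (L ≃ₐ[RatFunc k] L)) where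
  toFun := fun q => (q.1, q.2 * σ)
  invFun := fun q => (q.1, q.2 * σ⁻¹)
  left_inv := fun q => by simp
  right_inv := fun q => by simp

/-- twisted places, abstractly -/
lemma exists_twist (P0 : PD k L E) (hE : Fintype.card (L ≃ₐ[RatFunc k] L) * E ≤ E') :
    ∃ (P : PD k L E') (act : (L ≃ₐ[RatFunc k] L) → Equiv.Perm P.Pl),
      (∀ σ q, P.wt (act σ q) = P.wt q) ∧ (∀ σ q y, P.u (act σ q) y = P.u q (σ y)) ∧
      (∀ q, act 1 q = q) ∧
      ∀ (Y : Set L), Y.Finite → (∀ y ∈ Y, y ≠ 0) → ∃ F : Finset P.Pl,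
        (∀ σ q, q ∈ F ↔ act σ q ∈ F) ∧ (∀ q, q ∉ F → ∀ y ∈ Y, P.u q y = 0) := by
  classical
  refine ⟨(P0.twist).mono hE, actPl P0, fun σ q => rfl, fun σ q y => rfl, ?_, ?_⟩
  · rintro ⟨v, τ⟩
    show (v, τ * 1) = (v, τ)
    rw [mul_one]
  · intro Y hYfin hY0
    have hF0fin : (⋃ σ : (L ≃ₐ[RatFunc k] L), ⋃ y ∈ Y, {v | P0.u v (σ y) ≠ 0}).Finite := by
      refine Set.finite_iUnion fun σ => hYfin.biUnion fun y hy => ?_
      exact P0.fin _ ((_root_.map_ne_zero σ).2 (hY0 y hy))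
    let F : Finset (P0.Pl × (L ≃ₐ[RatFunc k] L)) := hF0fin.toFinset ×ˢ Finset.univ
    have hmem : ∀ (v : P0.Pl) (τ : L ≃ₐ[RatFunc k] L), (v, τ) ∈ F ↔ v ∈ hF0fin.toFinset := by
      intro v τ
      show (v, τ) ∈ hF0fin.toFinset ×ˢ Finset.univ ↔ _
      rw [Finset.mem_product]
      simp
    refine ⟨F, ?_, ?_⟩
    · rintro σ ⟨v, τ⟩
      show (v, τ) ∈ F ↔ (v, τ * σ) ∈ F
      rw [hmem, hmem]
    · rintro ⟨v, τ⟩ hq y hy
      by_contra hne
      apply hq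
      show (v, τ) ∈ F
      rw [hmem, Set.Finite.mem_toFinset]
      exact Set.mem_iUnion.2 ⟨τ, Set.mem_biUnion hy hne⟩

end Pool.Agent.TH923.DM
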