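import Mathlib
import Pool.Agent.TH923.DM.Defs
import Pool.Agent.TH923.DM.KVal
import Pool.Agent.TH923.DM.Tw2
import Pool.Agent.TH923.DM.Local
import Pool.Agent.TH923.DM.PlDet
import Pool.Agent.TH923.DM.Sum
import Pool.Agent.TH923.DM.Pts
import Pool.Agent.TH923.DM.Cnt

/-!
# The core theorem
-/

set_option autoImplicit false

namespace Pool.Agent.TH923.DM

open Polynomial

universe w

/-- Large stable spaces are killed by the twisted derivation. -/
def S_CORE : Prop := ∀ (p : ℕ) [Fact p.Prime] (r n s : ℕ), 1 ≤ r → ∃ N : ℕ,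
  ∀ (k : Type w) [Field k] [IsAlgClosed k] [CharP k p] (L : Type w) [Field L] [CharP L p]
  [Algebra (ZMod p) L] [Algebra (RatFunc k) L] [FiniteDimensional (RatFunc k) L]
  [IsGalois (RatFunc k) L], Module.finrank (RatFunc k) L ≤ n →
  ∀ D : Derivation ℤ L L, (∀ f : RatFunc k, D (algebraMap (RatFunc k) L f) =
    algebraMap (RatFunc k) L (Y0.ratD k f)) → ∀ g : ℕ → L,
  g 0 = (algebraMap (RatFunc k) L RatFunc.X) ^ (p ^ s) → g r ≠ 0 →
  ∀ (M : Submodule (ZMod p) L) [FiniteDimensional (ZMod p) M], (∀ x ∈ M, ev p g r x ∈ M) →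
  N ≤ Module.finrank (ZMod p) M → D (g 0) = 0 ∧ ∃ α : L, ∀ x ∈ M, D x = α * x

lemma exists_params (p n r S1 t1 : ℕ) (hp : 2 ≤ p) :
    ∃ b2 J1 b r' A : ℕ, n + 3 ≤ p ^ b2 ∧ J1 = 1 + S1 * p ^ t1 + (n * n) * p ^ b2 ∧
      b2 ≤ b ∧ 2 * (n + 2 * (n + 1) * J1 + 1) ≤ p ^ b ∧ 1 + (n * n) * p ^ r ≤ p ^ r' ∧
      2 * b ≤ A ∧ 2 * (n + 1) * J1 ≤ p ^ (A - b) ∧ b + r' ≤ A ∧
      (r - 1) * (b + r' + 1) ≤ A - (b + r') ∧ r ≤ A - b2 ∧ 2 * J1 ≤ p ^ A ∧ 1 ≤ A ∧ b < A ∧
      b2 ≤ A := by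
  have hlt : ∀ m : ℕ, m < p ^ m := fun m => Nat.lt_pow_self (by omega)
  set b2 := n + 3 with hb2
  set J1 := 1 + S1 * p ^ t1 + (n * n) * p ^ b2 with hJ1
  set E1 := 2 * (n + 1) * J1 with hE1
  set b := b2 + 2 * (n + E1 + 1) with hb
  set r' := 1 + (n * n) * p ^ r with hr'
  set A := 2 * b + E1 + (b + r') + (r - 1) * (b + r' + 1) + b2 + r + 2 * J1 + 1 with hA
  refine ⟨b2, J1, b, r', A, (hlt b2).le, rfl, by omega, ?_, (hlt r').le, by omega, ?_, by omega,
    by omega, by omega, ?_, by omega, by omega, by omega⟩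
  · have := hlt b
    omega
  · have := hlt (A - b)
    omega
  · have := hlt A
    omega

section

variable {k L : Type w} [Field k] [Field L] [Algebra (RatFunc k) L] (p : ℕ) [Fact p.Prime]
  [CharP L p] [Algebra (ZMod p) L] [FiniteDimensional (RatFunc k) L]

/-- membership of the derivative row in the span contradicts rigidity -/
lemma mem_span_coeff (M : Submodule (ZMod p) L) (D : Derivation ℤ L L)
    (ℓ : (L ≃ₐ[RatFunc k] L) → ℕ) (b A : ℕ) (hℓ : ∀ σ, ℓ σ ≤ A)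
    (h : (fun x : M => (D (x : L)) ^ (p ^ b)) ∈ Submodule.span L (Set.range
      (fun (ρ : Σ σ : (L ≃ₐ[RatFunc k] L), Fin (ℓ σ)) (x : M) =>
        (ρ.1 • (x : L)) ^ (p ^ (ρ.2 : ℕ))))) :
    ∃ c : (L ≃ₐ[RatFunc k] L) → ℕ → L, ∀ x ∈ M, (D x) ^ (p ^ b) =
      ∑ σ : (L ≃ₐ[RatFunc k] L), ∑ l ∈ Finset.range A, c σ l * (σ • x) ^ (p ^ l) := by
  classical
  rw [Submodule.mem_span_range_iff_exists_fun] at h
  obtain ⟨c, hc⟩ := h
  refine ⟨fun σ l => if hl : l < ℓ σ then c ⟨σ, ⟨l, hl⟩⟩ else 0, ?_⟩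
  intro x hx
  have h1 := congrFun hc ⟨x, hx⟩
  simp only [Finset.sum_apply, Pi.smul_apply, smul_eq_mul] at h1
  rw [← h1, Fintype.sum_sigma]
  refine Finset.sum_congr rfl fun σ _ => ?_
  have h2 : ∑ l ∈ Finset.range A, (if hl : l < ℓ σ then c ⟨σ, ⟨l, hl⟩⟩ else 0) *
      (σ • x) ^ (p ^ l) = ∑ l ∈ Finset.range (ℓ σ),
      (if hl : l < ℓ σ then c ⟨σ, ⟨l, hl⟩⟩ else 0) * (σ • x) ^ (p ^ l) := by
    symm
    apply Finset.sum_subset (Finset.range_mono (hℓ σ))
    intro l _ hl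
    rw [dif_neg (by simpa using hl), zero_mul]
  rw [h2, Finset.sum_range]
  refine Finset.sum_congr rfl fun l _ => ?_
  rw [dif_pos l.2]

end

theorem core (hRIG : S_RIG.{w}) (hROWS : S_ROWS.{w}) (hPTS : S_PTS.{w}) (hDET : S_DET.{w})
    (hPD : S_PD.{w}) (hSPC : S_SPC.{w}) (hNAB : S_NAB.{w}) (hLOC : S_LOC.{w})
    (hLOCinf : S_LOCinf.{w}) (hADAPT : S_ADAPT.{w}) (hIND : S_IND.{w}) (hDEC : S_DEC.{w})
    (hDECinf : S_DECinf.{w}) : S_CORE.{w} := by
  classical
  intro p _ r n s hr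
  have hp2 : 2 ≤ p := (Fact.out : p.Prime).two_le
  obtain ⟨t1, S1, hSPC'⟩ := hSPC p r (n * n) s hr
  obtain ⟨b2, J1, b, r', A, hn, hJ1, hb2, hE, hr', hbA, hEA, hwA, hjA, hrA, hJA, hA1, hbA', hb2A⟩ :=
    exists_params p n r S1 t1 hp2
  obtain ⟨N1, hRIG'⟩ := hRIG p n r A b hr
  refine ⟨max N1 (n * A + 1), ?_⟩
  intro k _ _ _ L _ _ _ _ _ _ hnL D hD g hg0 hgr M _ hM hN
  by_contra hcon
  have hX0 : algebraMap (RatFunc k) L RatFunc.X ≠ 0 := by
    rw [Ne, map_eq_zero_iff _ (algebraMap (RatFunc k) L).injective]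
    exact RatFunc.X_ne_zero
  have hg00 : g 0 ≠ 0 := by rw [hg0]; exact pow_ne_zero _ hX0
  have hGc : Fintype.card (L ≃ₐ[RatFunc k] L) ≤ n := by
    rw [← Nat.card_eq_fintype_card, IsGalois.card_aut_eq_finrank]
    exact hnL
  -- the powers of `g 0` are different
  have hpow : ∀ i j : ℕ, i ≠ j → (g 0) ^ (p ^ i) ≠ (g 0) ^ (p ^ j) := by
    intro i j hij h
    rw [hg0, ← pow_mul, ← pow_mul, ← pow_add, ← pow_add, ← map_pow, ← map_pow] at h
    have h1 := (algebraMap (RatFunc k) L).injective h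
    rw [← RatFunc.algebraMap_X, ← map_pow, ← map_pow] at h1
    have h2 := RatFunc.algebraMap_injective k h1
    have h3 := congrArg natDegree h2
    rw [natDegree_X_pow, natDegree_X_pow] at h3
    have h4 := Nat.pow_right_injective hp2 h3
    omega
  -- rows
  obtain ⟨ℓ, hℓ1, hℓA, hli, hspan⟩ := hROWS p L (L ≃ₐ[RatFunc k] L) M A hA1 (by
    have h1 : Fintype.card (L ≃ₐ[RatFunc k] L) * A ≤ n * A := Nat.mul_le_mul_right _ hGc
    have h2 := le_max_right N1 (n * A + 1)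
    omega)
  have hDn : (fun x : M => (D (x : L)) ^ (p ^ b)) ∉ Submodule.span L (Set.range
      (fun (ρ : Σ σ : (L ≃ₐ[RatFunc k] L), Fin (ℓ σ)) (x : M) =>
        (ρ.1 • (x : L)) ^ (p ^ (ρ.2 : ℕ)))) := by
    intro hmem
    obtain ⟨c, hc⟩ := mem_span_coeff p M D ℓ b A hℓA hmem
    exact hcon (hRIG' L (L ≃ₐ[RatFunc k] L) hGc D g hgr hpow M hM ((le_max_left _ _).trans hN) c hc)
  obtain ⟨x, hx⟩ := exists_points p hPTS M D ℓ b hli hDn
  -- the space `V`
  obtain ⟨h, hh⟩ : ∃ h, Fintype.card (Option (Σ σ : (L ≃ₐ[RatFunc k] L), Fin (ℓ σ))) = h :=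
    ⟨_, rfl⟩
  set V : Submodule (ZMod p) L := Submodule.span (ZMod p) (Set.range (fun j => (x j : L))) with hV
  have hVM : V ≤ M := by
    rw [hV, Submodule.span_le]
    rintro _ ⟨j, rfl⟩
    exact (x j).2
  have hVh : Module.finrank (ZMod p) V = h := by
    rw [hV, finrank_span_eq_card (points_li p D ℓ b (fun j => (x j : L)) hx), hh]
  have hAh : A + 1 ≤ h := by
    rw [← hh, Fintype.card_option, Fintype.card_sigma]
    simp only [Fintype.card_fin]
    have h1 := Finset.single_le_sum (f := fun σ : (L ≃ₐ[RatFunc k] L) => ℓ σ)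
      (fun _ _ => Nat.zero_le _) (Finset.mem_univ 1)
    omega
  haveI : FiniteDimensional (ZMod p) V := Submodule.finiteDimensional_of_le hVM
  haveI : Finite V := Module.finite_of_finite (ZMod p)
  have hVfin : (V : Set L).Finite := Set.toFinite _
  obtain ⟨Δ, hΔ⟩ : ∃ Δ, Δ = (Matrix.of fun ρ j => rows p D ℓ b 0 ρ (x j : L)).det := ⟨_, rfl⟩
  have hΔ0 : Δ ≠ 0 := by rw [hΔ]; exact hx
  -- places
  obtain ⟨P0⟩ := hPD k L
  have hE' : Fintype.card (L ≃ₐ[RatFunc k] L) * Module.finrank (RatFunc k) L ≤ n * n := Nat.mul_le_mul hGc hnL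
  obtain ⟨P, act, hactw, hactu, hact1, hactF⟩ := exists_twist P0 hE'
  have hact1' : ∀ q, (act 1).symm q = q := fun q => by
    rw [Equiv.symm_apply_eq, hact1]
  -- the finite set of places
  obtain ⟨Y, hY⟩ : ∃ Y : Set L, Y = ((V : Set L) \ {0}) ∪ {algebraMap (RatFunc k) L RatFunc.X, Δ} :=
    ⟨_, rfl⟩
  have hYV : ∀ y ∈ V, y ≠ 0 → y ∈ Y := fun y hy hy0 => by
    rw [hY]
    exact Or.inl ⟨hy, by simpa using hy0⟩
  have hYX : algebraMap (RatFunc k) L RatFunc.X ∈ Y := by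
    rw [hY]
    exact Or.inr (by simp)
  have hYΔ : Δ ∈ Y := by
    rw [hY]
    exact Or.inr (by simp)
  have hYfin : Y.Finite := by
    rw [hY]
    exact (hVfin.subset Set.sdiff_subset).union (Set.toFinite _)
  have hY0 : ∀ y ∈ Y, y ≠ 0 := by
    intro y hy
    rw [hY] at hy
    rcases hy with hy | hy
    · simpa using hy.2
    · rcases hy with rfl | hy
      · exact hX0
      · rw [Set.mem_singleton_iff] at hy
        rw [hy]
        exact hΔ0
  obtain ⟨F, hFact, hFn⟩ := hactF Y hYfin hY0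
  -- critical radii, adapted bases
  choose c hc using fun q : P.Pl => exists_loc (u := P.u q) (g := g) hp2 hr hgr
  choose bq hbq using fun q : P.Pl => hADAPT p L (P.u q) (P.isOrd q) V h hVh
  choose ind hind1 hind2 using fun q : P.Pl =>
    hIND p L (P.u q) (P.isOrd q) V h (bq q) (by omega) (hbq q)
  obtain ⟨hS1, hS2⟩ := hSPC' k L P g hg0 M hM c hc
  obtain ⟨X, hXV, hXfin, hXinf, hXcard⟩ := count_X p P F M V hVM h hVh c ind hind2 t1 S1 A b2
    hb2A (by omega) hS1 hS2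
  rw [← hJ1] at hXcard
  have hbqV : ∀ q i, bq q i ∈ V := by
    intro q i
    rw [← (hbq q).span]
    exact Submodule.subset_span ⟨i, rfl⟩
  have hbq0 : ∀ q i, bq q i ≠ 0 := fun q i => (hbq q).li.ne_zero i
  -- the bound at each place
  have hpl : ∀ q : P.Pl, ∃ sq : Option (Σ σ : (L ≃ₐ[RatFunc k] L), Fin (ℓ σ)) → Fin h,
      (∀ σ, ∀ l l' : Fin (ℓ σ), sq (some ⟨σ, l⟩) = sq (some ⟨σ, l'⟩) → l = l') ∧
      (∀ l : Fin (ℓ 1), sq (some ⟨1, l⟩) ≠ sq none) ∧
      ∑ σ : (L ≃ₐ[RatFunc k] L), ∑ l : Fin (ℓ σ),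
        (p : ℝ) ^ (l : ℕ) * P.u (act σ q) (bq (act σ q) (sq (some ⟨σ, l⟩))) +
        (if P.u q (algebraMap (RatFunc k) L RatFunc.X) < 0 then (p : ℝ) ^ b * P.u q (bq q (sq none)) else
          (p : ℝ) ^ b * c q - (p : ℝ) ^ (b + r') * max 0 (c q - P.u q (bq q (sq none)))) ≤
      P.u q Δ := by
    intro q
    have hnab := hNAB p k L D hD (P.u q) (P.isOrd q) (P.const q) (hVfin.toFinset)
    have hgen : ∀ (ν : (L ≃ₐ[RatFunc k] L) → L) (B : L → ℝ),
        (∀ i, GE (P.u q) (D (bq q i) - ∑ σ, ν σ * σ (bq q i)) (B (bq q i))) →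
        ∃ sq : Option (Σ σ : (L ≃ₐ[RatFunc k] L), Fin (ℓ σ)) → Fin h,
        (∀ σ, ∀ l l' : Fin (ℓ σ), sq (some ⟨σ, l⟩) = sq (some ⟨σ, l'⟩) → l = l') ∧
        (∀ l : Fin (ℓ 1), sq (some ⟨1, l⟩) ≠ sq none) ∧
        ∑ σ : (L ≃ₐ[RatFunc k] L), ∑ l : Fin (ℓ σ),
          (p : ℝ) ^ (l : ℕ) * P.u (act σ q) (bq (act σ q) (sq (some ⟨σ, l⟩))) +
          (p : ℝ) ^ b * B (bq q (sq none)) ≤ P.u q Δ := by
      intro ν B hB
      have h1 := place_bound p hDET D ℓ b h hh (fun j => (x j : L))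
        (fun σ => span_restrict p M ℓ b A hbA' hspan x σ) hx (P.u q) (P.isOrd q)
        (fun σ => bq (act σ q)) (by
          intro σ j
          rw [(hbq (act σ q)).span]
          exact Submodule.subset_span ⟨j, rfl⟩) ν B (by
          intro i
          show GE (P.u q) (D (bq (act 1 q) i) - ∑ σ, ν σ * σ (bq (act 1 q) i))
            (B (bq (act 1 q) i))
          rw [hact1 q]
          exact hB i)
      obtain ⟨sq, h2, h3, h4⟩ := h1
      refine ⟨sq, h2, h3, ?_⟩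
      simp only [hact1 q] at h4
      rw [hΔ]
      refine le_trans (le_of_eq ?_) h4
      congr 1
      refine Finset.sum_congr rfl fun σ _ => Finset.sum_congr rfl fun l _ => ?_
      rw [hactu σ q]
    by_cases hinf : P.u q (algebraMap (RatFunc k) L RatFunc.X) < 0
    · obtain ⟨ν, hν⟩ := hnab.2 hinf
      obtain ⟨sq, h2, h3, h4⟩ := hgen ν (fun y => P.u q y) (by
        intro i
        exact hν _ (by simpa using hbqV q i) (hbq0 q i))
      refine ⟨sq, h2, h3, ?_⟩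
      rw [if_pos hinf]
      exact h4
    · obtain ⟨a, ha⟩ := (P.cases q).resolve_right hinf
      obtain ⟨ν, hν⟩ := hnab.1 a ha (c q)
      obtain ⟨sq, h2, h3, h4⟩ := hgen ν (fun y => c q - (p : ℝ) ^ r' * max 0 (c q - P.u q y)) (by
        intro i
        obtain ⟨h5, h6⟩ := hν _ (by simpa using hbqV q i) (hbq0 q i)
        by_cases hle : c q ≤ P.u q (bq q i)
        · refine (h6 hle).mono ?_
          rw [max_eq_left (by linarith)]
          simp
        · rw [not_le] at hle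
          refine h5.mono ?_
          rw [max_eq_right (by linarith)]
          have h7 := loc_gap hp2 (hc q) _ hle
          have h8 := ram_bound P q a ha
          have h9 : (P.u q (algebraMap (RatFunc k) L (RatFunc.X - RatFunc.C a)) : ℝ) ≤ (n * n : ℕ) := by
            exact_mod_cast h8
          have h10 : (1 : ℝ) + ((n * n : ℕ) : ℝ) * (p : ℝ) ^ r ≤ (p : ℝ) ^ r' := by
            exact_mod_cast hr'
          have h11 : (0 : ℝ) ≤ ((n * n : ℕ) : ℝ) := Nat.cast_nonneg _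
          set z : ℝ := c q - P.u q (bq q i) with hz
          have hz0 : 0 < z := by linarith
          have h12 : ((n * n : ℕ) : ℝ) * 1 ≤ ((n * n : ℕ) : ℝ) * (((p : ℝ) ^ r - 1) * z) :=
            mul_le_mul_of_nonneg_left h7 h11
          have h13 : (1 + ((n * n : ℕ) : ℝ) * (p : ℝ) ^ r) * z ≤ (p : ℝ) ^ r' * z :=
            mul_le_mul_of_nonneg_right h10 hz0.le
          have h14 : 0 ≤ ((n * n : ℕ) : ℝ) * z := mul_nonneg h11 hz0.le
          have h15 : (P.u q (bq q i) : ℝ) = c q - z := by rw [hz]; ring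
          rw [h15]
          nlinarith)
      refine ⟨sq, h2, h3, ?_⟩
      rw [if_neg hinf]
      refine le_trans (le_of_eq ?_) h4
      rw [pow_add]
      ring
  choose sq hsq1 hsq2 hsq3 using hpl
  -- finish
  have hp0 : 0 < p := by omega
  refine core_sum P act hactw F hFact ℓ h p bq X ?_ (fun y hy => (hXV y hy).2) ?_ Δ hΔ0
    ?_ (fun q ρ => sq q (some ρ))
    (fun q => if P.u q (algebraMap (RatFunc k) L RatFunc.X) < 0 then
      (p : ℝ) ^ b * P.u q (bq q (sq q none)) else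
      (p : ℝ) ^ b * c q - (p : ℝ) ^ (b + r') * max 0 (c q - P.u q (bq q (sq q none))))
    (fun q _ => hsq3 q) (∑ σ, ∑ l ∈ Finset.range (ℓ σ), (p : ℝ) ^ l + (p : ℝ) ^ b)
    (fun q => P.u q (algebraMap (RatFunc k) L RatFunc.X) < 0) ?_ ?_
  · -- X nonempty
    rw [← Finset.card_pos]
    have h1 : 2 * (J1 * p ^ (h - A)) ≤ p ^ h := by
      calc 2 * (J1 * p ^ (h - A)) = (2 * J1) * p ^ (h - A) := by ring
        _ ≤ p ^ A * p ^ (h - A) := Nat.mul_le_mul_right _ hJA
        _ = p ^ h := by rw [← pow_add]; congr 1; omega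
    have h2 : 0 < p ^ h := by positivity
    omega
  · intro y hy q hq
    exact hFn q hq y (hYV y (hXV y hy).1 (hXV y hy).2)
  · intro q hq
    exact hFn q hq Δ hYΔ
  · -- local inequalities
    intro q hqF
    set s' : (L ≃ₐ[RatFunc k] L) → ℕ → Fin h := fun σ l =>
      if hl : l < ℓ σ then sq ((act σ).symm q) (some ⟨σ, ⟨l, hl⟩⟩) else ⟨0, by omega⟩ with hs'
    have hs'1 : ∀ σ, ∀ l < ℓ σ, ∀ l' < ℓ σ, s' σ l = s' σ l' → l = l' := by
      intro σ l hl l' hl' hll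
      simp only [hs', dif_pos hl, dif_pos hl'] at hll
      have := hsq1 ((act σ).symm q) σ ⟨l, hl⟩ ⟨l', hl'⟩ hll
      simpa using this
    have hs'2 : ∀ l < A, s' 1 l ≠ sq q none := by
      intro l hl hll
      have hl' : l < ℓ 1 := by omega
      simp only [hs', dif_pos hl'] at hll
      rw [hact1' q] at hll
      exact hsq2 q ⟨l, hl'⟩ hll
    have hsum : ∑ σ : (L ≃ₐ[RatFunc k] L), ∑ l : Fin (ℓ σ),
        (p : ℝ) ^ (l : ℕ) * P.u q (bq q (sq ((act σ).symm q) (some ⟨σ, l⟩))) =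
        ∑ σ : (L ≃ₐ[RatFunc k] L), ∑ l ∈ Finset.range (ℓ σ), (p : ℝ) ^ l * P.u q (bq q (s' σ l)) := by
      refine Finset.sum_congr rfl fun σ _ => ?_
      rw [Finset.sum_range]
      refine Finset.sum_congr rfl fun l _ => ?_
      simp only [hs', dif_pos l.2]
    rw [hsum]
    by_cases hinf : P.u q (algebraMap (RatFunc k) L RatFunc.X) < 0
    · simp only [if_pos hinf]
      exact local_inf hLOCinf hp2 hb2 hbA hAh hJA hE hn hEA hGc hℓ1 hℓA hs'1 hs'2
        (hind2 q X hXV) hXcard (hbq q).mono (fun y hy => hind1 q y (hXV y hy).1 (hXV y hy).2)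
        (fun y hy => hXinf y hy q hqF hinf) (by
          intro i i0 hi hi0
          refine hDECinf p L (P.u q) (P.isOrd q) g r hr hg00 ?_ M hM V hVM h (bq q) (hbq q) i i0
            hi (by omega)
          rw [hg0, (P.isOrd q).pow hX0]
          have h1 : (1 : ℤ) ≤ ((p ^ s : ℕ) : ℤ) := by exact_mod_cast Nat.one_le_pow _ _ hp0
          nlinarith)
    · simp only [if_neg hinf, add_zero]
      exact local_fin hLOC hp2 (by omega : b ≤ b + r') hwA hAh hJA hE hGc hℓ1 hℓA hs'1 hs'2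
        (hind2 q X hXV) hXcard (c q) (hbq q).mono
        (fun y hy => hind1 q y (hXV y hy).1 (hXV y hy).2)
        (fun y hy => hXfin y hy q hqF hinf) (by
          intro i i0 hi hi0
          have hge : GE (P.u q) (g 0) 0 := by
            right
            rw [hg0, (P.isOrd q).pow hX0]
            have h1 : (0 : ℤ) ≤ ((p ^ s : ℕ) : ℤ) * P.u q (algebraMap (RatFunc k) L RatFunc.X) :=
              mul_nonneg (by positivity) (by omega)
            exact_mod_cast h1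
          have h1 := hDEC p L (P.u q) (P.isOrd q) g r (c q) hr (hc q) hge M hM V hVM h (bq q)
            (hbq q) (b + r' + 1) i i0 hi (by rw [hi0]; exact hjA)
          rcases le_total (c q - P.u q (bq q i0)) 0 with hle | hle
          · rw [max_eq_left hle, mul_zero]
            exact le_max_left _ _
          · rw [max_eq_right hle]
            refine le_trans (mul_le_mul_of_nonneg_right ?_ hle) h1
            have h2 : (1 : ℝ) ≤ (p : ℝ) ^ (b + r') :=
              one_le_pow₀ (by exact_mod_cast (by omega : 1 ≤ p))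
            have h3 : (2 : ℝ) ≤ p := by exact_mod_cast hp2
            rw [pow_succ]
            nlinarith)
  · -- an infinite place
    obtain ⟨q, hq⟩ := P.exists_inf
    refine ⟨q, ?_, hq⟩
    by_contra hqF
    have h1 := hFn q hqF (algebraMap (RatFunc k) L RatFunc.X) hYX
    rw [h1] at hq
    exact lt_irrefl _ hq

end Pool.Agent.TH923.DM
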