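import Mathlib
import Pool.Agent.TH923.DM.Defs
import Pool.Agent.TH923.DM.Core

/-!
# The claim from the core theorem and the descent
-/

set_option autoImplicit false

namespace Pool.Agent.TH923.DM

open Polynomial

universe w

theorem claim (hCORE : S_CORE.{w}) (hDER : S_DER.{w}) (hDESC : S_DESC.{w}) : S_CLAIM.{w} := by
  intro p _ r n s hr
  induction s with
  | zero =>
    obtain ⟨N, hN⟩ := hCORE p r n 0 hr
    refine ⟨N, ?_⟩
    intro k _ _ _ L _ _ _ _ _ _ hnL g hg0 hgr M _ hM
    by_contra hcon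
    rw [not_le] at hcon
    obtain ⟨D, hD, _⟩ := hDER p k L
    obtain ⟨h1, _⟩ := hN k L hnL D hD g hg0 hgr M hM hcon.le
    rw [hg0, pow_zero, pow_one, hD, ← RatFunc.algebraMap_X, Y0.ratD_alg, derivative_X, map_one,
      map_one] at h1
    exact one_ne_zero h1
  | succ s ih =>
    obtain ⟨N1, hN1⟩ := ih
    obtain ⟨N, hN⟩ := hCORE p r n (s + 1) hr
    refine ⟨max N (max r N1), ?_⟩
    intro k _ _ _ L _ _ _ _ _ _ hnL g hg0 hgr M _ hM
    by_contra hcon
    rw [not_le] at hcon
    obtain ⟨D, hD, hker⟩ := hDER p k L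
    obtain ⟨h1, α, hα⟩ := hN k L hnL D hD g hg0 hgr M hM (le_trans (le_max_left _ _) hcon.le)
    have hr2 : r < Module.finrank (ZMod p) M :=
      lt_of_le_of_lt ((le_max_left _ _).trans (le_max_right _ _)) hcon
    obtain ⟨g', M', h2, h3, h4, h5, h6⟩ := hDESC p L D hker g r hgr h1 M hM hr2 α hα
    have h7 : g' 0 = (algebraMap (RatFunc k) L RatFunc.X) ^ (p ^ s) := by
      apply frobenius_inj L p
      rw [frobenius_def, frobenius_def, h2, hg0, ← pow_mul, pow_succ]
    have h8 := hN1 k L hnL g' h7 h3 M' h5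
    rw [h6] at h8
    have h9 : N1 < Module.finrank (ZMod p) M :=
      lt_of_le_of_lt ((le_max_right _ _).trans (le_max_right _ _)) hcon
    omega

end Pool.Agent.TH923.DM
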