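import Pool.Agent.TH923.DM.Defs

/-!
# Points with nonzero determinant; the multilinear determinant estimate
-/

set_option autoImplicit false

namespace Pool.Agent.TH923.DM

universe w

theorem lemPTS : S_PTS.{w} := by
  intro L _ ι R _ _ f hf
  classical
  let v : ι → (R → L) := fun y i => f i y
  have hspan : Submodule.span L (Set.range v) = ⊤ := by
    by_contra hne
    obtain ⟨φ, hφ0, hφ⟩ := Submodule.exists_le_ker_of_lt_top _ (lt_top_iff_ne_top.2 hne)
    apply hφ0
    have h1 : ∀ y, ∑ i, φ (Pi.single i 1) * f i y = 0 := by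
      intro y
      have h2 : φ (v y) = 0 := hφ (Submodule.subset_span ⟨y, rfl⟩)
      have h3 : v y = ∑ i, (f i y) • (Pi.single i (1 : L) : R → L) := by
        ext j
        simp [v, Finset.sum_apply, Pi.single_apply]
      rw [h3, map_sum] at h2
      rw [← h2]
      refine Finset.sum_congr rfl fun i _ => ?_
      rw [map_smul, smul_eq_mul, mul_comm]
    have h4 := Fintype.linearIndependent_iff.1 hf (fun i => φ (Pi.single i 1)) (by
      ext y
      simpa [Finset.sum_apply] using h1 y)
    apply LinearMap.pi_ext'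
    intro i
    ext
    simpa using h4 i
  obtain ⟨κ, a, _, ha2, ha3⟩ := exists_linearIndependent' L v
  rw [hspan] at ha2
  let bas : Module.Basis κ L (R → L) := Module.Basis.mk ha3 (by rw [ha2])
  let e : R ≃ κ := (Pi.basisFun L R).indexEquiv bas
  refine ⟨fun j => a (e j), ?_⟩
  have h5 : LinearIndependent L (fun j : R => (Matrix.of fun i j => f i (a (e j))).col j) := by
    have h6 : (fun j : R => (Matrix.of fun i j => f i (a (e j))).col j) = (v ∘ a) ∘ e := by
      funext j
      rfl
    rw [h6]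
    exact ha3.comp e e.injective
  rw [Matrix.linearIndependent_cols_iff_isUnit, Matrix.isUnit_iff_isUnit_det] at h5
  exact h5.ne_zero

theorem lemDET : S_DET.{w} := by
  intro p _ L _ _ _ u hu R _ _ h hR row x B β bb hx hdet
  classical
  have hc : ∀ b j, ∃ c : Fin h → ZMod p, ∑ i, c i • bb b i = x j := fun b j =>
    (Submodule.mem_span_range_iff_exists_fun (ZMod p)).1 (hx b j)
  choose c hc using hc
  let lin : R → L →ₗ[ZMod p] L := fun ρ => AddMonoidHom.toZModLinearMap p (row ρ)
  have hlin : ∀ ρ y, lin ρ y = row ρ y := fun _ _ => rfl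
  have hrow : ∀ ρ j, row ρ (x j) = ∑ i, row ρ (bb (β ρ) i) *
      algebraMap (ZMod p) L (c (β ρ) j i) := by
    intro ρ j
    rw [← hc (β ρ) j, ← hlin, map_sum]
    refine Finset.sum_congr rfl fun i _ => ?_
    rw [map_smul, hlin, Algebra.smul_def, mul_comm]
  -- expansion of the determinant
  let D : (R → Fin h) → ZMod p := fun s => (Matrix.of fun ρ j => c (β ρ) j (s ρ)).det
  have hexp : (Matrix.of fun ρ j => row ρ (x j)).det =
      ∑ s : R → Fin h, (∏ ρ, row ρ (bb (β ρ) (s ρ))) * algebraMap (ZMod p) L (D s) := by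
    have h1 : (Matrix.of fun ρ j => row ρ (x j)) =
        fun ρ => ∑ i : Fin h, (fun j => row ρ (bb (β ρ) i) *
          algebraMap (ZMod p) L (c (β ρ) j i)) := by
      funext ρ j
      rw [Matrix.of_apply, hrow, Finset.sum_apply]
    have h2 := (Matrix.detRowAlternating (n := R) (R := L)).toMultilinearMap.map_sum
      (fun (ρ : R) (i : Fin h) (j : R) => row ρ (bb (β ρ) i) *
          algebraMap (ZMod p) L (c (β ρ) j i))
    have h3 : (Matrix.of fun ρ j => row ρ (x j)).det =
        (Matrix.detRowAlternating (n := R) (R := L)).toMultilinearMap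
          (fun ρ => ∑ i : Fin h, (fun j => row ρ (bb (β ρ) i) *
          algebraMap (ZMod p) L (c (β ρ) j i))) := by
      rw [h1]; rfl
    rw [h3, h2]
    refine Finset.sum_congr rfl fun s _ => ?_
    have h4 := Matrix.det_mul_column (fun ρ => row ρ (bb (β ρ) (s ρ)))
      (Matrix.of fun ρ j => algebraMap (ZMod p) L (c (β ρ) j (s ρ)))
    have h5 : (Matrix.of fun ρ j => algebraMap (ZMod p) L (c (β ρ) j (s ρ))).det =
        algebraMap (ZMod p) L (D s) := by
      rw [RingHom.map_det]
      rfl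
    rw [← h5, ← h4]
    rfl
  set Δ := (Matrix.of fun ρ j => row ρ (x j)).det with hΔ
  -- a term with small order
  have hterm : ∃ s : R → Fin h, (∏ ρ, row ρ (bb (β ρ) (s ρ))) * algebraMap (ZMod p) L (D s) ≠ 0 ∧
      u ((∏ ρ, row ρ (bb (β ρ) (s ρ))) * algebraMap (ZMod p) L (D s)) ≤ u Δ := by
    by_contra hcon
    push Not at hcon
    have h6 : GE u Δ ((u Δ : ℝ) + 1) := by
      conv_lhs => rw [hexp]
      refine GE.sum hu _ _ fun s _ => ?_
      by_cases h0 : (∏ ρ, row ρ (bb (β ρ) (s ρ))) * algebraMap (ZMod p) L (D s) = 0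
      · exact Or.inl h0
      · right
        have := hcon s h0
        have h7 : u Δ + 1 ≤ u ((∏ ρ, row ρ (bb (β ρ) (s ρ))) *
          algebraMap (ZMod p) L (D s)) := this
        exact_mod_cast h7
    have h8 := h6.ord hdet
    linarith
  obtain ⟨s, hs0, hs⟩ := hterm
  have hprod : (∏ ρ, row ρ (bb (β ρ) (s ρ))) ≠ 0 := left_ne_zero_of_mul hs0
  have hDalg : algebraMap (ZMod p) L (D s) ≠ 0 := right_ne_zero_of_mul hs0
  have hD : D s ≠ 0 := fun h0 => hDalg (by rw [h0, map_zero])
  have hne : ∀ ρ, row ρ (bb (β ρ) (s ρ)) ≠ 0 := fun ρ =>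
    Finset.prod_ne_zero_iff.1 hprod ρ (Finset.mem_univ ρ)
  refine ⟨s, ?_, hne, ?_⟩
  · intro ρ ρ' hβ hsρ
    by_contra hne'
    apply hD
    apply Matrix.det_zero_of_row_eq hne'
    funext j
    simp only [Matrix.of_apply, hβ, hsρ]
  · rw [hu.mul _ _ hprod hDalg, hu.algZMod p hD, add_zero,
      hu.prod _ _ (fun ρ _ => hne ρ)] at hs
    exact hs

end Pool.Agent.TH923.DM
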