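import Pool.Agent.TH923.DM.Defs

/-!
# The rigidity lemma (elimination of skew polynomials)
-/

set_option autoImplicit false

namespace Pool.Agent.TH923.DM

open Finset

universe w

namespace RigX

section Alg

variable {L : Type w} [Field L] (p : ℕ)

/-- `f` has degree at most `d` -/
def Bd (f : ℕ → L) (d : ℕ) : Prop := ∀ i, d < i → f i = 0

variable {p}

lemma Bd.mono {f : ℕ → L} {d e : ℕ} (h : Bd f d) (hde : d ≤ e) : Bd f e :=
  fun i hi => h i (lt_of_le_of_lt hde hi)

lemma Bd.add {f g : ℕ → L} {d : ℕ} (h : Bd f d) (h' : Bd g d) : Bd (fun i => f i + g i) d :=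
  fun i hi => by simp [h i hi, h' i hi]

lemma Bd.sub {f g : ℕ → L} {d : ℕ} (h : Bd f d) (h' : Bd g d) : Bd (fun i => f i - g i) d :=
  fun i hi => by simp [h i hi, h' i hi]

lemma Bd.smul {f : ℕ → L} {d : ℕ} (h : Bd f d) (c : L) : Bd (fun i => c * f i) d :=
  fun i hi => by simp [h i hi]

lemma exists_top {f : ℕ → L} {d : ℕ} (h : Bd f d) (hne : f ≠ 0) :
    ∃ e ≤ d, Bd f e ∧ f e ≠ 0 := by
  induction d with
  | zero =>
    refine ⟨0, le_rfl, h, fun h0 => hne ?_⟩
    funext i
    rcases Nat.eq_zero_or_pos i with rfl | hi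
    · exact h0
    · exact h i hi
  | succ d ih =>
    by_cases hd : f (d + 1) = 0
    · have h2 : Bd f d := by
        intro i hi
        rcases Nat.lt_or_ge (d + 1) i with h3 | h3
        · exact h i h3
        · have : i = d + 1 := by omega
          rw [this, hd]
      obtain ⟨e, he, h3⟩ := ih h2
      exact ⟨e, by omega, h3⟩
    · exact ⟨d + 1, le_rfl, h, hd⟩

lemma top_unique {f : ℕ → L} {d e : ℕ} (h : Bd f d) (hd : f d ≠ 0) (h' : Bd f e) (he : f e ≠ 0) :
    d = e := by
  rcases lt_trichotomy d e with h1 | h1 | h1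
  · exact absurd (h e h1) he
  · exact h1
  · exact absurd (h' d h1) hd

variable (p)

lemma ev_bd {f : ℕ → L} {d m : ℕ} (h : Bd f d) (hdm : d ≤ m) (x : L) :
    ev p f m x = ev p f d x := by
  unfold ev
  symm
  refine sum_subset (range_subset_range.2 (by omega)) fun i _ hi => ?_
  rw [mem_range, not_lt] at hi
  rw [h i (by omega), zero_mul]

lemma ev_bd2 {f : ℕ → L} {d m m' : ℕ} (h : Bd f d) (hdm : d ≤ m) (hdm' : d ≤ m') (x : L) :
    ev p f m x = ev p f m' x := by
  rw [ev_bd p h hdm, ev_bd p h hdm']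

lemma evf_add (f g : ℕ → L) (m : ℕ) (x : L) :
    ev p (fun i => f i + g i) m x = ev p f m x + ev p g m x := by
  unfold ev
  rw [← sum_add_distrib]
  exact sum_congr rfl fun i _ => by ring

lemma evf_sub (f g : ℕ → L) (m : ℕ) (x : L) :
    ev p (fun i => f i - g i) m x = ev p f m x - ev p g m x := by
  unfold ev
  rw [← sum_sub_distrib]
  exact sum_congr rfl fun i _ => by ring

lemma evf_smul (c : L) (f : ℕ → L) (m : ℕ) (x : L) :
    ev p (fun i => c * f i) m x = c * ev p f m x := by
  unfold ev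
  rw [mul_sum]
  exact sum_congr rfl fun i _ => by ring

/-- composition of skew polynomials -/
def cp (f h : ℕ → L) (n : ℕ) : L := ∑ i ∈ range (n + 1), f i * (h (n - i)) ^ (p ^ i)

variable [hp : Fact p.Prime]

lemma ppos (i : ℕ) : p ^ i ≠ 0 := pow_ne_zero _ hp.out.ne_zero

lemma cp_bd {f h : ℕ → L} {d e : ℕ} (hf : Bd f d) (hh : Bd h e) : Bd (cp p f h) (d + e) := by
  intro n hn
  refine sum_eq_zero fun i hi => ?_
  rcases Nat.lt_or_ge d i with h1 | h1
  · rw [hf i h1, zero_mul]
  · rw [hh (n - i) (by omega), zero_pow (ppos p i), mul_zero]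

lemma cp_top {f h : ℕ → L} {d e : ℕ} (hf : Bd f d) (hh : Bd h e) :
    cp p f h (d + e) = f d * (h e) ^ (p ^ d) := by
  unfold cp
  rw [sum_eq_single d]
  · rw [Nat.add_sub_cancel_left]
  · intro i _ hi
    rcases Nat.lt_or_ge d i with h1 | h1
    · rw [hf i h1, zero_mul]
    · rw [hh (d + e - i) (by omega), zero_pow (ppos p i), mul_zero]
  · intro h1
    exact absurd (mem_range.2 (by omega)) h1

lemma cp_top_ne {f h : ℕ → L} {d e : ℕ} (hf : Bd f d) (hh : Bd h e) (hfd : f d ≠ 0)
    (hhe : h e ≠ 0) : cp p f h (d + e) ≠ 0 := by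
  rw [cp_top p hf hh]
  exact mul_ne_zero hfd (pow_ne_zero _ hhe)

omit hp in
lemma cp_sub_left (f f' h : ℕ → L) :
    cp p (fun i => f i - f' i) h = fun n => cp p f h n - cp p f' h n := by
  funext n
  unfold cp
  rw [← sum_sub_distrib]
  exact sum_congr rfl fun i _ => by ring

variable [CharP L p]

lemma ev_cp {f h : ℕ → L} {d e m m1 m2 : ℕ} (hf : Bd f d) (hh : Bd h e) (hm : d + e ≤ m)
    (hm1 : d ≤ m1) (hm2 : e ≤ m2) (x : L) :
    ev p (cp p f h) m x = ev p f m1 (ev p h m2 x) := by
  rw [ev_bd p (cp_bd p hf hh) hm, ev_bd p hf hm1, ev_bd p hh hm2]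
  unfold ev cp
  have h1 : ∀ n, (∑ i ∈ range (n + 1), f i * h (n - i) ^ p ^ i) * x ^ p ^ n =
      ∑ i ∈ range (n + 1), (fun i j => f i * h j ^ p ^ i * x ^ p ^ (i + j)) i (n - i) := by
    intro n
    rw [sum_mul]
    refine sum_congr rfl fun i hi => ?_
    have : i + (n - i) = n := by have := mem_range.1 hi; omega
    simp only [this]
  rw [sum_congr rfl fun n _ => h1 n,
    sum_range_diag_flip (d + e + 1) fun i j => f i * h j ^ p ^ i * x ^ p ^ (i + j)]
  have h2 : ∀ i, i ∈ range (d + e + 1) → i ∉ range (d + 1) →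
      ∑ k ∈ range (d + e + 1 - i), f i * h k ^ p ^ i * x ^ p ^ (i + k) = 0 := by
    intro i _ hi
    rw [mem_range, not_lt] at hi
    refine sum_eq_zero fun k _ => ?_
    rw [hf i (by omega), zero_mul, zero_mul]
  rw [← sum_subset (range_subset_range.2 (by omega)) h2]
  refine sum_congr rfl fun i hi => ?_
  have hi' := mem_range.1 hi
  have h3 : ∀ k, k ∈ range (d + e + 1 - i) → k ∉ range (e + 1) →
      f i * h k ^ p ^ i * x ^ p ^ (i + k) = 0 := by
    intro k _ hk
    rw [mem_range, not_lt] at hk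
    rw [hh k (by omega), zero_pow (ppos p i), mul_zero, zero_mul]
  rw [← sum_subset (range_subset_range.2 (by omega)) h3, sum_pow_char_pow, mul_sum]
  refine sum_congr rfl fun k _ => ?_
  rw [mul_pow, ← pow_mul, ← pow_add, add_comm k i]
  ring

/-- a skew polynomial of small degree vanishing on `M` is zero -/
lemma vanish [Algebra (ZMod p) L] {f : ℕ → L} {d : ℕ} (hf : Bd f d)
    (M : Submodule (ZMod p) L) [FiniteDimensional (ZMod p) M]
    (hd : d < Module.finrank (ZMod p) M) (h : ∀ x ∈ M, ev p f d x = 0) : f = 0 := by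
  classical
  have hfin : Finite M := Module.finite_of_finite (ZMod p)
  have : Fintype M := Fintype.ofFinite M
  have hcard : Fintype.card M = p ^ Module.finrank (ZMod p) M := by
    rw [Module.card_eq_pow_finrank (K := ZMod p), ZMod.card]
  set P : Polynomial L := ∑ i ∈ range (d + 1), Polynomial.C (f i) * Polynomial.X ^ (p ^ i) with hP
  have hdeg : P.natDegree ≤ p ^ d := by
    refine Polynomial.natDegree_sum_le_of_forall_le _ _ fun i hi => ?_
    refine (Polynomial.natDegree_C_mul_X_pow_le _ _).trans ?_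
    exact Nat.pow_le_pow_right hp.out.pos (by have := mem_range.1 hi; omega)
  have hev : ∀ x, P.eval x = ev p f d x := by
    intro x
    rw [hP, Polynomial.eval_finsetSum]
    simp [ev]
  have hP0 : P = 0 := by
    refine Polynomial.eq_zero_of_natDegree_lt_card_of_eval_eq_zero P
      (f := fun x : M => (x : L)) Subtype.val_injective (fun x => ?_) ?_
    · rw [hev]; exact h x x.2
    · rw [hcard]
      exact lt_of_le_of_lt hdeg (Nat.pow_lt_pow_right hp.out.one_lt hd)
  funext i
  rcases Nat.lt_or_ge d i with h1 | h1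
  · exact hf i h1
  · have h2 : P.coeff (p ^ i) = f i := by
      rw [hP, Polynomial.finsetSum_coeff, sum_eq_single i]
      · simp
      · intro j _ hj
        rw [Polynomial.coeff_C_mul, Polynomial.coeff_X_pow, if_neg, mul_zero]
        intro h3
        exact hj (Nat.pow_right_injective hp.out.two_le h3).symm
      · intro h3; exact absurd (mem_range.2 (by omega)) h3
    rw [← h2, hP0, Polynomial.coeff_zero]; rfl

end Alg

/-! ### common left multiples -/

section Ore

variable {L : Type w} [Field L] (p : ℕ)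

/-- extension by zero -/
def extz {m : ℕ} (v : Fin m → L) (i : ℕ) : L := if h : i < m then v ⟨i, h⟩ else 0

lemma extz_bd {m : ℕ} (v : Fin (m + 1) → L) : Bd (extz v) m := by
  intro i hi
  unfold extz
  rw [dif_neg (by omega)]

lemma extz_add {m : ℕ} (v v' : Fin m → L) (i : ℕ) : extz (v + v') i = extz v i + extz v' i := by
  unfold extz
  split_ifs <;> simp

lemma extz_smul {m : ℕ} (c : L) (v : Fin m → L) (i : ℕ) : extz (c • v) i = c * extz v i := by
  unfold extz
  split_ifs <;> simp

lemma extz_ne {m : ℕ} {v : Fin m → L} (hv : v ≠ 0) : extz v ≠ 0 := by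
  intro h
  apply hv
  funext i
  have h1 := congrFun h i
  unfold extz at h1
  rw [dif_pos i.2] at h1
  exact h1

/-- the linear map whose kernel gives the common left multiples -/
noncomputable def oreMap (f f' : ℕ → L) (m m' k : ℕ) :
    ((Fin m → L) × (Fin m' → L)) →ₗ[L] (Fin k → L) where
  toFun v n := cp p (extz v.1) f n - cp p (extz v.2) f' n
  map_add' v v' := by
    funext n
    simp only [Prod.fst_add, Prod.snd_add, Pi.add_apply, cp, extz_add, add_mul, sum_add_distrib]
    ring
  map_smul' c v := by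
    funext n
    simp only [Prod.smul_fst, Prod.smul_snd, Pi.smul_apply, cp, extz_smul, smul_eq_mul,
      RingHom.id_apply, mul_sub, mul_sum, mul_assoc]

variable [hp : Fact p.Prime]

lemma ore {f f' : ℕ → L} {d r : ℕ} (hf : Bd f d) (hfd : f d ≠ 0) (hf' : Bd f' (d + r))
    (hfd' : f' (d + r) ≠ 0) :
    ∃ (β γ : ℕ → L) (e : ℕ), e ≤ d ∧ Bd γ e ∧ γ e ≠ 0 ∧ Bd β (e + r) ∧ β (e + r) ≠ 0 ∧
      cp p β f = cp p γ f' := by
  have hk : LinearMap.ker (oreMap p f f' (d + r + 1) (d + 1) (2 * d + r + 1)) ≠ ⊥ := by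
    apply LinearMap.ker_ne_bot_of_finrank_lt
    rw [Module.finrank_prod]
    simp only [Module.finrank_fin_fun]
    omega
  obtain ⟨v, hv, hv0⟩ := Submodule.exists_mem_ne_zero_of_ne_bot hk
  set β := extz v.1 with hβ
  set γ := extz v.2 with hγ
  have hβb : Bd β (d + r) := extz_bd _
  have hγb : Bd γ d := extz_bd _
  have heq : cp p β f = cp p γ f' := by
    funext n
    rcases Nat.lt_or_ge n (2 * d + r + 1) with h1 | h1
    · have h2 := congrFun (LinearMap.mem_ker.1 hv) ⟨n, h1⟩
      exact sub_eq_zero.1 h2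
    · rw [cp_bd p hβb hf n (by omega), cp_bd p hγb hf' n (by omega)]
  have hγ0 : γ ≠ 0 := by
    intro h0
    have hβ0 : β ≠ 0 := by
      intro h1
      apply hv0
      have h2 : v.1 = 0 := by by_contra h; exact extz_ne h h1
      have h3 : v.2 = 0 := by by_contra h; exact extz_ne h h0
      exact Prod.ext h2 h3
    obtain ⟨e, _, he, he0⟩ := exists_top hβb hβ0
    have h2 := cp_top_ne p he hf he0 hfd
    rw [heq, h0] at h2
    apply h2
    unfold cp
    exact sum_eq_zero fun i _ => by simp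
  obtain ⟨e, hed, heγ, heγ0⟩ := exists_top hγb hγ0
  have h1 := cp_top_ne p heγ hf' heγ0 hfd'
  have hβ0 : β ≠ 0 := by
    intro h0
    rw [← heq, h0] at h1
    apply h1
    unfold cp
    exact sum_eq_zero fun i _ => by simp
  obtain ⟨e', _, heβ, heβ0⟩ := exists_top hβb hβ0
  have h2 := cp_top_ne p heβ hf heβ0 hfd
  have h3 := cp_bd p heβ hf
  rw [heq] at h2 h3
  have h4 := top_unique h3 h2 (cp_bd p heγ hf') h1
  have h5 : e' = e + r := by omega
  rw [h5] at heβ heβ0
  exact ⟨β, γ, e, hed, heγ, heγ0, heβ, heβ0, heq⟩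

end Ore

/-! ### the relation -/

section Main

variable {L : Type w} [Field L] (p : ℕ) [hp : Fact p.Prime] [CharP L p]

lemma D_ev (D : Derivation ℤ L L) (g : ℕ → L) (r : ℕ) (x : L) :
    D (ev p g r x) = ev p (fun i => D (g i)) r x + g 0 * D x := by
  have hpow : ∀ i, i ≠ 0 → D (x ^ p ^ i) = 0 := by
    intro i hi
    rw [Derivation.leibniz_pow]
    have : ((p ^ i : ℕ) : L) = 0 := by
      rw [Nat.cast_pow, CharP.cast_eq_zero, zero_pow hi]
    rw [nsmul_eq_mul, this, zero_mul]
  unfold ev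
  rw [map_sum]
  have h1 : ∀ i ∈ range (r + 1), D (g i * x ^ p ^ i) =
      D (g i) * x ^ p ^ i + (if i = 0 then g 0 * D x else 0) := by
    intro i _
    rw [Derivation.leibniz, smul_eq_mul, smul_eq_mul]
    split_ifs with h
    · subst h; simp; ring
    · rw [hpow i h]; ring
  rw [sum_congr rfl h1, sum_add_distrib, sum_ite_eq' (range (r + 1)) 0]
  simp

omit hp [CharP L p] in
lemma s_ev (s : L →+* L) (g : ℕ → L) (r : ℕ) (x : L) :
    s (ev p g r x) = ev p (fun i => s (g i)) r (s x) := by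
  unfold ev
  rw [map_sum]
  exact sum_congr rfl fun i _ => by rw [map_mul, map_pow]

omit hp [CharP L p] in
lemma ev_mul_arg (Q : ℕ → L) (J : ℕ) (θ y : L) :
    ev p Q J (θ * y) = ev p (fun j => Q j * θ ^ p ^ j) J y := by
  unfold ev
  exact sum_congr rfl fun i _ => by rw [mul_pow]; ring

/-- the data: `D`, `g`, `M` -/
structure Dat [Algebra (ZMod p) L] (r : ℕ) (D : Derivation ℤ L L) (g : ℕ → L)
    (M : Submodule (ZMod p) L) : Prop where
  bd : Bd g r
  top : g r ≠ 0
  zero : ∀ i j : ℕ, i ≠ j → (g 0) ^ (p ^ i) ≠ (g 0) ^ (p ^ j)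
  stab : ∀ x ∈ M, ev p g r x ∈ M

variable {p}

/-- substitution of `φ x` in the relation, minus `T` times the relation -/
lemma subst [Algebra (ZMod p) L] {r : ℕ} {D : Derivation ℤ L L} {g : ℕ → L}
    {M : Submodule (ZMod p) L} (hd : Dat p r D g M) {k B : ℕ} (s : Fin k → (L →+* L))
    {Q F0 : ℕ → L} {F : Fin k → ℕ → L} (hQ : Bd Q B) (hF0 : Bd F0 B) (hF : ∀ i, Bd (F i) B)
    (hrel : ∀ x ∈ M, ev p Q B (D x) = ev p F0 B x + ∑ i, ev p (F i) B (s i x)) (T : L)
    {B' : ℕ} (hB' : B + r ≤ B') :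
    ∀ x ∈ M, ev p (fun j => Q j * (g 0) ^ p ^ j - T * Q j) B' (D x) =
      ev p (fun n => cp p F0 g n - T * F0 n - cp p Q (fun i => D (g i)) n) B' x +
      ∑ i, ev p (fun n => cp p (F i) (fun j => s i (g j)) n - T * F i n) B' (s i x) := by
  intro x hx
  have hDg : Bd (fun i => D (g i)) r := fun i hi => by simp [hd.bd i hi]
  have hsg : ∀ i, Bd (fun j => s i (g j)) r := fun i j hj => by simp [hd.bd j hj]
  have h1 := hrel _ (hd.stab x hx)
  rw [D_ev, ev_add, ev_mul_arg] at h1
  simp_rw [s_ev p] at h1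
  have h2 := hrel x hx
  rw [evf_sub, evf_smul, evf_sub, evf_sub, evf_smul]
  simp_rw [evf_sub, evf_smul]
  rw [ev_cp p hF0 hd.bd hB' le_rfl le_rfl, ev_cp p hQ hDg hB' le_rfl le_rfl]
  have h3 : ∀ i, ev p (cp p (F i) fun j => s i (g j)) B' (s i x) =
      ev p (F i) B (ev p (fun j => s i (g j)) r (s i x)) := fun i =>
    ev_cp p (hF i) (hsg i) hB' le_rfl le_rfl _
  simp_rw [h3]
  have hQθ : Bd (fun j => Q j * (g 0) ^ p ^ j) B := fun j hj => by simp [hQ j hj]
  rw [ev_bd p hQθ (by omega), ev_bd p hQ (show B ≤ B' by omega),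
    ev_bd p hF0 (show B ≤ B' by omega)]
  have h4 : ∀ i, ev p (F i) B' (s i x) = ev p (F i) B (s i x) := fun i =>
    ev_bd p (hF i) (by omega) _
  simp_rw [h4]
  rw [sum_sub_distrib, ← mul_sum]
  linear_combination h1 - T * h2

/-- the end of the base case -/
lemma base_end [Algebra (ZMod p) L] {r : ℕ} (hr : 1 ≤ r) {D : Derivation ℤ L L} {g : ℕ → L}
    {M : Submodule (ZMod p) L} (hd : Dat p r D g M) (hM : M ≠ ⊥) {e B K : ℕ} {Q F : ℕ → L}
    (hQ : Bd Q e) (hQe : Q e ≠ 0) (hF : Bd F B) (heK : e ≤ K)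
    (hrel : ∀ x ∈ M, ev p Q K (D x) = ev p F K x)
    (h1 : ∀ j, Q j * (g 0) ^ p ^ j - (g 0) ^ p ^ e * Q j = 0)
    (h2 : ∀ n, cp p F g n - (g 0) ^ p ^ e * F n - cp p Q (fun i => D (g i)) n = 0) :
    D (g 0) = 0 ∧ ∃ α : L, ∀ x ∈ M, D x = α * x := by
  have hDg : Bd (fun i => D (g i)) r := fun i hi => by simp [hd.bd i hi]
  have hQ0 : ∀ j, j ≠ e → Q j = 0 := by
    intro j hj
    have h3 : Q j * ((g 0) ^ p ^ j - (g 0) ^ p ^ e) = 0 := by linear_combination h1 j
    exact (mul_eq_zero.1 h3).resolve_right (sub_ne_zero.2 (hd.zero j e hj))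
  have hcQ : ∀ n, n < e → cp p Q (fun i => D (g i)) n = 0 := by
    intro n hn
    refine sum_eq_zero fun i hi => ?_
    rw [hQ0 i (by have := mem_range.1 hi; omega), zero_mul]
  have hcF : ∀ n, (∀ i < n, F i = 0) → cp p F g n = F n * (g 0) ^ p ^ n := by
    intro n hn
    unfold cp
    rw [sum_range_succ, sum_eq_zero fun i hi => by rw [hn i (mem_range.1 hi), zero_mul], zero_add,
      Nat.sub_self]
  have hF0 : ∀ n, n < e → F n = 0 := by
    intro n
    induction n using Nat.strong_induction_on with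
    | _ n ih =>
      intro hn
      have h3 := h2 n
      rw [hcQ n hn, hcF n fun i hi => ih i hi (hi.trans hn)] at h3
      have h4 : F n * ((g 0) ^ p ^ n - (g 0) ^ p ^ e) = 0 := by linear_combination h3
      exact (mul_eq_zero.1 h4).resolve_right (sub_ne_zero.2 (hd.zero n e hn.ne))
  have hD0 : D (g 0) = 0 := by
    have h3 := h2 e
    rw [hcF e hF0] at h3
    have h4 : cp p Q (fun i => D (g i)) e = Q e * (D (g 0)) ^ p ^ e := by
      unfold cp
      rw [sum_range_succ, sum_eq_zero fun i hi => by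
        rw [hQ0 i (by have := mem_range.1 hi; omega), zero_mul], zero_add, Nat.sub_self]
    rw [h4] at h3
    have h5 : Q e * (D (g 0)) ^ p ^ e = 0 := by linear_combination -h3
    exact pow_eq_zero_iff (ppos p e) |>.1 ((mul_eq_zero.1 h5).resolve_left hQe)
  refine ⟨hD0, ?_⟩
  have hFe : Bd F e := by
    by_cases hF00 : F = 0
    · intro i _; rw [hF00]; rfl
    obtain ⟨t, _, ht, ht0⟩ := exists_top hF hF00
    refine ht.mono ?_
    by_contra hcon
    push Not at hcon
    have h3 := h2 (t + r)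
    rw [cp_bd p hQ hDg (t + r) (by omega), ht (t + r) (by omega)] at h3
    have h4 := cp_top_ne p ht hd.bd ht0 hd.top
    apply h4
    linear_combination h3
  have hev : ∀ f : ℕ → L, (∀ j, j ≠ e → f j = 0) → ∀ x, ev p f K x = f e * x ^ p ^ e := by
    intro f hf x
    unfold ev
    rw [sum_eq_single e]
    · intro j _ hj; rw [hf j hj, zero_mul]
    · intro h; exact absurd (mem_range.2 (by omega)) h
  have hFne : ∀ j, j ≠ e → F j = 0 := by
    intro j hj
    rcases lt_or_gt_of_ne hj with h | h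
    · exact hF0 j h
    · exact hFe j h
  obtain ⟨y, hy, hy0⟩ := Submodule.exists_mem_ne_zero_of_ne_bot hM
  refine ⟨D y / y, fun x hx => ?_⟩
  have e1 := hrel x hx
  have e2 := hrel y hy
  rw [hev Q hQ0, hev F hFne] at e1 e2
  have e3 : (D x) ^ p ^ e = (D y / y * x) ^ p ^ e := by
    have h5 : (D y / y) ^ p ^ e = F e / Q e := by
      rw [div_pow, div_eq_div_iff (pow_ne_zero _ hy0) hQe]
      linear_combination e2
    rw [mul_pow, h5, div_mul_eq_mul_div, eq_div_iff hQe]
    linear_combination e1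
  have := iterateFrobenius_inj L p e (a₁ := D x) (a₂ := D y / y * x)
    (by rw [iterateFrobenius_def, iterateFrobenius_def]; exact e3)
  exact this

/-- one step of the base case -/
lemma base_step [Algebra (ZMod p) L] {r : ℕ} (hr : 1 ≤ r) {D : Derivation ℤ L L} {g : ℕ → L}
    {M : Submodule (ZMod p) L} [FiniteDimensional (ZMod p) M] (hd : Dat p r D g M)
    {J B : ℕ} {Q F : ℕ → L} (hQ : Bd Q J) (hQ0 : Q ≠ 0) (hF : Bd F B)
    (hM : J + B + r < Module.finrank (ZMod p) M)
    (hrel : ∀ x ∈ M, ev p Q (J + B) (D x) = ev p F (J + B) x) :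
    (D (g 0) = 0 ∧ ∃ α : L, ∀ x ∈ M, D x = α * x) ∨
    ∃ (Q' F' : ℕ → L), 1 ≤ J ∧ Bd Q' (J - 1) ∧ Q' ≠ 0 ∧ Bd F' (J + B + r) ∧
      ∀ x ∈ M, ev p Q' (J + B + r) (D x) = ev p F' (J + B + r) x := by
  obtain ⟨e, heJ, hQe, hQe0⟩ := exists_top hQ hQ0
  have hDg : Bd (fun i => D (g i)) r := fun i hi => by simp [hd.bd i hi]
  have hsub := subst hd (k := 0) (B := J + B) (B' := J + B + r) (fun i => i.elim0)
    (F := fun i => i.elim0) (hQ.mono (by omega)) (hF.mono (by omega)) (fun i => i.elim0)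
    (fun x hx => by simpa using hrel x hx) ((g 0) ^ p ^ e) le_rfl
  simp only [univ_eq_empty, sum_empty, add_zero] at hsub
  set Q' : ℕ → L := fun j => Q j * (g 0) ^ p ^ j - (g 0) ^ p ^ e * Q j with hQ'
  set F' : ℕ → L := fun n => cp p F g n - (g 0) ^ p ^ e * F n - cp p Q (fun i => D (g i)) n
    with hF'
  have hF'b : Bd F' (J + B + r) := by
    intro n hn
    simp only [hF']
    rw [cp_bd p hF hd.bd n (by omega), hF n (by omega), cp_bd p hQ hDg n (by omega)]
    ring
  by_cases h0 : Q' = 0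
  · left
    have hF'0 : F' = 0 := by
      refine vanish p hF'b M hM fun x hx => ?_
      rw [← hsub x hx, h0]
      unfold ev
      exact sum_eq_zero fun i _ => by simp
    have hMb : M ≠ ⊥ := by
      intro h
      rw [h, finrank_bot] at hM
      omega
    exact base_end hr hd hMb hQe hQe0 hF (show e ≤ J + B by omega) hrel
      (fun j => congrFun h0 j) (fun n => congrFun hF'0 n)
  · right
    have he : e ≠ 0 := by
      rintro rfl
      apply h0
      funext j
      rcases Nat.eq_zero_or_pos j with rfl | hj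
      · simp only [hQ']; simp; ring
      · simp only [hQ', hQe j hj]; simp
    refine ⟨Q', F', by omega, ?_, h0, hF'b, hsub⟩
    intro j hj
    simp only [hQ']
    rcases Nat.lt_trichotomy j e with h | h | h
    · omega
    · subst h; ring
    · rw [hQe j h]; ring

end Main

section Final

variable (p : ℕ) [hp : Fact p.Prime]

/-- the base case: no automorphisms -/
lemma base (r : ℕ) (hr : 1 ≤ r) (J : ℕ) : ∀ B : ℕ, ∃ N : ℕ, ∀ (L : Type w) [Field L] [CharP L p]
    [Algebra (ZMod p) L] (D : Derivation ℤ L L) (g : ℕ → L) (M : Submodule (ZMod p) L)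
    [FiniteDimensional (ZMod p) M], Dat p r D g M → N ≤ Module.finrank (ZMod p) M →
    ∀ (Q F : ℕ → L), Bd Q J → Q ≠ 0 → Bd F B →
    (∀ x ∈ M, ev p Q (J + B) (D x) = ev p F (J + B) x) →
    D (g 0) = 0 ∧ ∃ α : L, ∀ x ∈ M, D x = α * x := by
  induction J with
  | zero =>
    intro B
    refine ⟨0 + B + r + 1, fun L _ _ _ D g M _ hd hN Q F hQ hQ0 hF hrel => ?_⟩
    rcases base_step hr hd hQ hQ0 hF (by omega) hrel with h | ⟨_, _, h, _⟩
    · exact h
    · omega
  | succ J ih =>
    intro B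
    obtain ⟨N, hN⟩ := ih (J + 1 + B + r)
    refine ⟨max N (J + 1 + B + r + 1), fun L _ _ _ D g M _ hd hNM Q F hQ hQ0 hF hrel => ?_⟩
    have hN1 := (le_max_left _ _).trans hNM
    have hN2 := (le_max_right _ _).trans hNM
    rcases base_step hr hd hQ hQ0 hF (by omega) hrel with h | ⟨Q', F', _, hQ', hQ'0, hF', h⟩
    · exact h
    · refine hN L D g M hd hN1 Q' F' (by simpa using hQ') hQ'0 hF' fun x hx => ?_
      have h1 := h x hx
      have e1 : ev p Q' (J + (J + 1 + B + r)) (D x) = ev p Q' (J + 1 + B + r) (D x) :=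
        ev_bd2 p hQ' (by omega) (by omega) _
      have e2 : ev p F' (J + (J + 1 + B + r)) x = ev p F' (J + 1 + B + r) x :=
        ev_bd2 p hF' (by omega) (by omega) _
      rw [e1, e2, h1]

/-- the general statement -/
lemma gen (r : ℕ) (hr : 1 ≤ r) (k : ℕ) : ∀ B : ℕ, ∃ N : ℕ, ∀ (L : Type w) [Field L] [CharP L p]
    [Algebra (ZMod p) L] (D : Derivation ℤ L L) (g : ℕ → L) (M : Submodule (ZMod p) L)
    [FiniteDimensional (ZMod p) M], Dat p r D g M → N ≤ Module.finrank (ZMod p) M →
    ∀ (s : Fin k → (L →+* L)) (Q F0 : ℕ → L) (F : Fin k → ℕ → L), Bd Q B → Q ≠ 0 → Bd F0 B →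
    (∀ i, Bd (F i) B) →
    (∀ x ∈ M, ev p Q B (D x) = ev p F0 B x + ∑ i, ev p (F i) B (s i x)) →
    D (g 0) = 0 ∧ ∃ α : L, ∀ x ∈ M, D x = α * x := by
  induction k with
  | zero =>
    intro B
    obtain ⟨N, hN⟩ := base.{w} p r hr B B
    refine ⟨N, fun L _ _ _ D g M _ hd hNM s Q F0 F hQ hQ0 hF0 _ hrel => ?_⟩
    refine hN L D g M hd hNM Q F0 hQ hQ0 hF0 fun x hx => ?_
    have h1 := hrel x hx
    rw [univ_eq_empty, sum_empty, add_zero] at h1
    rw [ev_bd p hQ (show B ≤ B + B by omega), ev_bd p hF0 (show B ≤ B + B by omega), h1]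
  | succ k ih =>
    intro B
    obtain ⟨N1, hN1⟩ := ih B
    obtain ⟨N2, hN2⟩ := ih (2 * B + r)
    refine ⟨max N1 N2, fun L _ _ _ D g M _ hd hNM s Q F0 F hQ hQ0 hF0 hF hrel => ?_⟩
    have hNM1 := (le_max_left _ _).trans hNM
    have hNM2 := (le_max_right _ _).trans hNM
    by_cases hz : F 0 = 0
    · refine hN1 L D g M hd hNM1 (fun i => s i.succ) Q F0 (fun i => F i.succ) hQ hQ0 hF0
        (fun i => hF _) fun x hx => ?_
      rw [hrel x hx, Fin.sum_univ_succ, hz]
      have : ev p (0 : ℕ → L) B (s 0 x) = 0 := by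
        unfold ev
        exact sum_eq_zero fun i _ => by simp
      rw [this, zero_add]
    · obtain ⟨d, hdB, hFd, hFd0⟩ := exists_top (hF 0) hz
      obtain ⟨e, heB, hQe, hQe0⟩ := exists_top hQ hQ0
      have hsub := subst hd s hQ hF0 hF hrel 0 (B' := B + r) le_rfl
      simp only [zero_mul, sub_zero] at hsub
      set Q' : ℕ → L := fun j => Q j * (g 0) ^ p ^ j with hQ'
      set F0' : ℕ → L := fun n => cp p F0 g n - cp p Q (fun i => D (g i)) n with hF0'
      have hDg : Bd (fun i => D (g i)) r := fun i hi => by simp [hd.bd i hi]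
      have hsg : ∀ i, Bd (fun j => s i (g j)) r := fun i j hj => by simp [hd.bd j hj]
      have hQ'b : Bd Q' e := fun j hj => by simp [hQ', hQe j hj]
      have hF0'b : Bd F0' (B + r) := (cp_bd p hF0 hd.bd).sub (cp_bd p hQ hDg)
      have hF'b : ∀ i, Bd (cp p (F i) fun j => s i (g j)) (B + r) := fun i =>
        cp_bd p (hF i) (hsg i)
      have hF'0 : Bd (cp p (F 0) fun j => s 0 (g j)) (d + r) := cp_bd p hFd (hsg 0)
      have hF'0t : cp p (F 0) (fun j => s 0 (g j)) (d + r) ≠ 0 :=
        cp_top_ne p hFd (hsg 0) hFd0 ((map_ne_zero (s 0)).2 hd.top)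
      obtain ⟨β, γ, t, htd, hγ, hγ0, hβ, hβ0, hcp⟩ := ore p hFd hFd0 hF'0 hF'0t
      have hQ'e : Bd Q' (B + r) := hQ'b.mono (by omega)
      refine hN2 L D g M hd hNM2 (fun i => s i.succ)
        (fun n => cp p β Q n - cp p γ Q' n) (fun n => cp p β F0 n - cp p γ F0' n)
        (fun i n => cp p β (F i.succ) n - cp p γ (cp p (F i.succ) fun j => s i.succ (g j)) n)
        (Bd.sub ((cp_bd p hβ hQ).mono (by omega)) ((cp_bd p hγ hQ'e).mono (by omega))) ?_
        (Bd.sub ((cp_bd p hβ hF0).mono (by omega)) ((cp_bd p hγ hF0'b).mono (by omega)))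
        (fun i => Bd.sub ((cp_bd p hβ (hF _)).mono (by omega))
          ((cp_bd p hγ (hF'b _)).mono (by omega))) ?_
      · intro h0
        have h1 := congrFun h0 (t + r + e)
        have h2 : cp p γ Q' (t + r + e) = 0 := cp_bd p hγ hQ'b _ (by omega)
        have h3 : cp p β Q (t + r + e) ≠ 0 := cp_top_ne p hβ hQe hβ0 hQe0
        simp only [Pi.zero_apply] at h1
        rw [h2, sub_zero] at h1
        exact h3 h1
      · intro x hx
        have r1 := hrel x hx
        have r2 := hsub x hx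
        rw [evf_sub, evf_sub]
        simp_rw [evf_sub]
        rw [ev_cp p hβ hQ (by omega) (show t + r ≤ B + r by omega) le_rfl,
          ev_cp p hγ hQ'e (by omega) (show t ≤ B by omega) le_rfl,
          ev_cp p hβ hF0 (by omega) (show t + r ≤ B + r by omega) le_rfl,
          ev_cp p hγ hF0'b (by omega) (show t ≤ B by omega) le_rfl]
        have h1 : ∀ i : Fin k, ev p (cp p β (F i.succ)) (2 * B + r) (s i.succ x) =
            ev p β (B + r) (ev p (F i.succ) B (s i.succ x)) := fun i =>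
          ev_cp p hβ (hF _) (by omega) (by omega) le_rfl _
        have h2 : ∀ i : Fin k, ev p (cp p γ (cp p (F i.succ) fun j => s i.succ (g j))) (2 * B + r)
            (s i.succ x) =
            ev p γ B (ev p (cp p (F i.succ) fun j => s i.succ (g j)) (B + r) (s i.succ x)) :=
          fun i => ev_cp p hγ (hF'b _) (by omega) (by omega) le_rfl _
        simp_rw [h1, h2]
        rw [r1, r2, ev_add, ev_add, ← evL_apply p β (B + r) (∑ i, _),
          ← evL_apply p γ B (∑ i, _), map_sum, map_sum, Fin.sum_univ_succ, Fin.sum_univ_succ,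
          sum_sub_distrib]
        simp_rw [evL_apply]
        have h3 : ev p β (B + r) (ev p (F 0) B (s 0 x)) =
            ev p γ B (ev p (cp p (F 0) fun j => s 0 (g j)) (B + r) (s 0 x)) := by
          rw [← ev_cp p hβ hFd (m := 2 * B + r) (by omega) (show t + r ≤ B + r by omega) hdB,
            ← ev_cp p hγ hF'0 (m := 2 * B + r) (by omega) (show t ≤ B by omega)
              (show d + r ≤ B + r by omega), hcp]
        rw [h3]
        ring

end Final

end RigX

open RigX in
theorem lemRIG : S_RIG.{w} := by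
  intro p _ n r a b hr
  choose N hN using gen.{w} p r hr
  refine ⟨(range (n + 1)).sup fun k => N k (a + b), ?_⟩
  intro L _ _ _ G _ _ _ hG D g hgr hg0 M _ hM hNM c hc
  have hpp : p.Prime := Fact.out
  set g' : ℕ → L := fun i => if i ≤ r then g i else 0 with hg'
  have hev : ∀ x, ev p g' r x = ev p g r x := by
    intro x
    unfold ev
    refine sum_congr rfl fun i hi => ?_
    have : i ≤ r := by have := mem_range.1 hi; omega
    simp [hg', this]
  have hd : Dat p r D g' M := by
    refine ⟨fun i hi => by simp [hg', not_le.2 hi], by simpa [hg'] using hgr, ?_, ?_⟩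
    · intro i j hij
      simpa [hg'] using hg0 i j hij
    · intro x hx
      rw [hev]; exact hM x hx
  have hk : N (Fintype.card G) (a + b) ≤ Module.finrank (ZMod p) M :=
    (le_sup (f := fun k => N k (a + b)) (mem_range.2 (by omega))).trans hNM
  set φ := Fintype.equivFin G with hφ
  have key := hN (Fintype.card G) (a + b) L D g' M hd hk
    (fun i => MulSemiringAction.toRingHom G L (φ.symm i))
    (fun i => if i = b then 1 else 0) 0 (fun i l => if l < a then c (φ.symm i) l else 0)
    (fun i hi => if_neg (by omega)) (fun h => by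
      have := congrFun h b
      simp at this) (fun i _ => rfl) (fun i l hl => if_neg (by omega)) (fun x hx => by
      have e1 : ev p (fun i => if i = b then (1 : L) else 0) (a + b) (D x) = (D x) ^ p ^ b := by
        unfold ev
        rw [sum_eq_single b]
        · simp
        · intro i _ hi; simp [hi]
        · intro h; exact absurd (mem_range.2 (by omega)) h
      have e2 : ev p (0 : ℕ → L) (a + b) x = 0 := by
        unfold ev
        exact sum_eq_zero fun i _ => by simp
      have e3 : ∀ (σ : G) (z : L), ev p (fun l => if l < a then c σ l else 0) (a + b) z =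
          ∑ l ∈ range a, c σ l * z ^ p ^ l := by
        intro σ z
        unfold ev
        rw [← sum_subset (range_subset_range.2 (show a ≤ a + b + 1 by omega))]
        · refine sum_congr rfl fun l hl => ?_
          show (if l < a then c σ l else 0) * z ^ p ^ l = _
          rw [if_pos (mem_range.1 hl)]
        · intro l _ hl
          show (if l < a then c σ l else 0) * z ^ p ^ l = 0
          rw [if_neg fun h => hl (mem_range.2 h), zero_mul]
      rw [e1, e2, zero_add, hc x hx, ← Equiv.sum_comp φ.symm]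
      refine sum_congr rfl fun i _ => ?_
      rw [e3]
      rfl)
  simpa [hg'] using key

end Pool.Agent.TH923.DM
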