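import Mathlib
import Pool.Agent.TH923.DM.Basic
import Pool.Agent.TH923.DM.Defs
import Pool.Agent.TH923.DM.KVal

/-!
# Bound for the special finite places
-/

set_option autoImplicit false

namespace Pool.Agent.TH923.DM

open Polynomial

universe w

namespace SPC

section A

variable {k L : Type w} [Field k] [Field L] [Algebra (RatFunc k) L] {E : ℕ}

/-- the total number of zeros of a polynomial at non-infinite places is at most `deg F * E` -/
lemma sum_pl_le (P : PD k L E) (F : k[X]) (hF : F ≠ 0) (T0 : Finset P.Pl)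
    (hT0 : ∀ v ∈ T0, ¬ (P.u v (algebraMap (RatFunc k) L RatFunc.X) < 0)) :
    ∑ v ∈ T0, P.u v ((algebraMap (RatFunc k) L (algebraMap k[X] (RatFunc k) F))) ≤ (F.natDegree : ℤ) * E := by
  classical
  have hne : (algebraMap (RatFunc k) L (algebraMap k[X] (RatFunc k) F)) ≠ 0 := pl_ne hF
  set T : Finset P.Pl := T0 ∪ (P.fin ((algebraMap (RatFunc k) L (algebraMap k[X] (RatFunc k) F))) hne).toFinset with hT
  have h0 : ∑ v ∈ T, P.wt v * P.u v ((algebraMap (RatFunc k) L (algebraMap k[X] (RatFunc k) F))) = 0 := by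
    refine P.prod ((algebraMap (RatFunc k) L (algebraMap k[X] (RatFunc k) F))) hne T fun v hv => ?_
    by_contra hcon
    apply hv
    rw [hT, Finset.mem_union]
    right
    rw [Set.Finite.mem_toFinset]
    exact hcon
  rw [← Finset.sum_filter_add_sum_filter_not T
    (fun v => P.u v (algebraMap (RatFunc k) L RatFunc.X) < 0)] at h0
  have h1 : ∑ v ∈ T.filter (fun v => P.u v (algebraMap (RatFunc k) L RatFunc.X) < 0),
      P.wt v * P.u v ((algebraMap (RatFunc k) L (algebraMap k[X] (RatFunc k) F))) = - ((F.natDegree : ℤ) *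
      ∑ v ∈ T.filter (fun v => P.u v (algebraMap (RatFunc k) L RatFunc.X) < 0),
        P.wt v * (- P.u v (algebraMap (RatFunc k) L RatFunc.X))) := by
    rw [Finset.mul_sum, ← Finset.sum_neg_distrib]
    refine Finset.sum_congr rfl fun v hv => ?_
    have hX := (Finset.mem_filter.1 hv).2
    rw [pl_inf (P.isOrd v) (P.const v) hX F hF]
    ring
  have h2 := P.inf_bound
    (T.filter (fun v => P.u v (algebraMap (RatFunc k) L RatFunc.X) < 0))
    (fun v hv => (Finset.mem_filter.1 hv).2)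
  have h3 : (F.natDegree : ℤ) *
      ∑ v ∈ T.filter (fun v => P.u v (algebraMap (RatFunc k) L RatFunc.X) < 0),
        P.wt v * (- P.u v (algebraMap (RatFunc k) L RatFunc.X)) ≤ (F.natDegree : ℤ) * E :=
    mul_le_mul_of_nonneg_left h2 (Int.natCast_nonneg _)
  have hnn : ∀ v, ¬ (P.u v (algebraMap (RatFunc k) L RatFunc.X) < 0) → 0 ≤ P.u v ((algebraMap (RatFunc k) L (algebraMap k[X] (RatFunc k) F))) := by
    intro v hv
    have hX : GE (P.u v) (algebraMap (RatFunc k) L RatFunc.X) 0 := by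
      right
      exact_mod_cast not_lt.1 hv
    have h := (pl_GE (P.isOrd v) (P.const v) hX F).ord hne
    exact_mod_cast h
  have h4 : ∑ v ∈ T0, P.u v ((algebraMap (RatFunc k) L (algebraMap k[X] (RatFunc k) F))) ≤ ∑ v ∈ T0, P.wt v * P.u v ((algebraMap (RatFunc k) L (algebraMap k[X] (RatFunc k) F))) := by
    refine Finset.sum_le_sum fun v hv => ?_
    have ha := hnn v (hT0 v hv)
    have hb := P.wt_pos v
    nlinarith
  have h5 : ∑ v ∈ T0, P.wt v * P.u v ((algebraMap (RatFunc k) L (algebraMap k[X] (RatFunc k) F))) ≤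
      ∑ v ∈ T.filter (fun v => ¬ (P.u v (algebraMap (RatFunc k) L RatFunc.X) < 0)),
        P.wt v * P.u v ((algebraMap (RatFunc k) L (algebraMap k[X] (RatFunc k) F))) := by
    refine Finset.sum_le_sum_of_subset_of_nonneg ?_ ?_
    · intro v hv
      rw [Finset.mem_filter]
      exact ⟨Finset.mem_union_left _ hv, hT0 v hv⟩
    · intro v hv _
      have ha := hnn v (Finset.mem_filter.1 hv).2
      have hb := P.wt_pos v
      exact mul_nonneg (by omega) ha
  linarith

end A

section B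

variable {k : Type w} [Field k] (p : ℕ) [Fact p.Prime] [CharP k p] (s : ℕ)

/-- the polynomial `a (X ^ (p ^ s))` -/
noncomputable def Fp (a : (ZMod p)[X]) : k[X] :=
  expand k (p ^ s) (a.map (ZMod.castHom (dvd_refl p) k))

omit s in
lemma pow_pos' (s : ℕ) : 0 < p ^ s := pow_pos (Fact.out : p.Prime).pos s

lemma natDegree_Fp (a : (ZMod p)[X]) : (Fp (k := k) p s a).natDegree = a.natDegree * p ^ s := by
  unfold Fp
  rw [natDegree_expand, natDegree_map]

lemma Fp_ne {a : (ZMod p)[X]} (ha : a ≠ 0) : Fp (k := k) p s a ≠ 0 := by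
  unfold Fp
  rw [expand_ne_zero (pow_pos' p s)]
  exact (Polynomial.map_ne_zero_iff (RingHom.injective _)).2 ha

lemma pl_Fp {L : Type w} [Field L] [CharP L p] [Algebra (ZMod p) L] [Algebra (RatFunc k) L]
    (a : (ZMod p)[X]) :
    algebraMap (RatFunc k) L (algebraMap k[X] (RatFunc k) (Fp p s a)) =
      aeval ((algebraMap (RatFunc k) L RatFunc.X) ^ (p ^ s)) a := by
  have h : ((algebraMap (RatFunc k) L).comp ((algebraMap k[X] (RatFunc k)).comp
      ((expand k (p ^ s)).toRingHom.comp (mapRingHom (ZMod.castHom (dvd_refl p) k))))) =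
      ((aeval ((algebraMap (RatFunc k) L RatFunc.X) ^ (p ^ s)) :
        (ZMod p)[X] →ₐ[ZMod p] L) : (ZMod p)[X] →+* L) := by
    refine Polynomial.ringHom_ext' (Subsingleton.elim _ _) ?_
    simp
  have h2 := congrArg (fun f : (ZMod p)[X] →+* L => f a) h
  simpa [Fp] using h2

end B

/-- exponential beats linear -/
lemma exists_bound (p : ℕ) (hp : 1 < p) (C : ℝ) (hC : 0 ≤ C) :
    ∃ t1 : ℕ, ∀ t : ℕ, (p : ℝ) ^ t - 1 ≤ C * t → t ≤ t1 := by
  have hp' : (1 : ℝ) < p := by exact_mod_cast hp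
  have h := tendsto_pow_const_div_const_pow_of_one_lt 1 hp'
  have h1 : (0 : ℝ) < 1 / (C + 1) := by positivity
  have h2 := (h.eventually (gt_mem_nhds h1)).and (Filter.eventually_ge_atTop 1)
  obtain ⟨N, hN⟩ := Filter.eventually_atTop.1 h2
  refine ⟨N, fun t ht => ?_⟩
  by_contra hcon
  push Not at hcon
  obtain ⟨h3, h4⟩ := hN t hcon.le
  have h5 : (0 : ℝ) < (p : ℝ) ^ t := by positivity
  have h7 : (0 : ℝ) < C + 1 := by positivity
  rw [div_lt_div_iff₀ h5 h7] at h3
  have h6 : (1 : ℝ) ≤ t := by exact_mod_cast h4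
  rw [pow_one] at h3
  nlinarith

end SPC

open SPC in
theorem lemSPC (hS : S_SPEC.{w}) : S_SPC.{w} := by
  intro p _ r E s hr
  have hp1 : 1 < p := (Fact.out : p.Prime).one_lt
  have hp1' : (1 : ℝ) < p := by exact_mod_cast hp1
  have hpr : (0 : ℝ) < (p : ℝ) ^ r - 1 := by
    have := one_lt_pow₀ hp1' (by omega : r ≠ 0)
    linarith
  obtain ⟨t1, ht1⟩ := exists_bound p hp1 (((p : ℝ) ^ r - 1) * (p ^ s * E)) (by positivity)
  refine ⟨t1, p ^ (t1 + 1) * (t1 * p ^ s) * E, ?_⟩
  intro k _ _ _ L _ _ _ _ P g hg M _ hM c hc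
  have hX0 : algebraMap (RatFunc k) L RatFunc.X ≠ 0 := by
    rw [Ne, map_eq_zero_iff _ (algebraMap (RatFunc k) L).injective]
    exact RatFunc.X_ne_zero
  -- the special polynomial at `v`
  have key : ∀ v, ¬ (P.u v (algebraMap (RatFunc k) L RatFunc.X) < 0) →
      ∃ a : (ZMod p)[X], a ≠ 0 ∧
        a.natDegree = Module.finrank (ZMod p) (levG p (P.isOrd v) M (c v)) ∧
        (((p : ℝ) ^ (Module.finrank (ZMod p) (levG p (P.isOrd v) M (c v))) - 1) /
          ((p : ℝ) ^ r - 1)) ≤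
        P.u v (algebraMap (RatFunc k) L (algebraMap k[X] (RatFunc k) (Fp p s a))) := by
    intro v hv
    have hX : GE (P.u v) (algebraMap (RatFunc k) L RatFunc.X) 0 := by
      right
      exact_mod_cast not_lt.1 hv
    have hg0 : GE (P.u v) (g 0) 0 := by
      rw [hg]
      have h := hX.pow (P.isOrd v) (n := p ^ s) (pow_pos' p s).ne'
      rwa [mul_zero] at h
    obtain ⟨a, ha1, ha2, ha3⟩ := hS p L (P.u v) (P.isOrd v) g r (c v) hr (hc v) hg0 M hM
    refine ⟨a, ha1.ne_zero, ha2, ?_⟩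
    have hne : algebraMap (RatFunc k) L (algebraMap k[X] (RatFunc k) (Fp p s a)) ≠ 0 :=
      pl_ne (Fp_ne p s ha1.ne_zero)
    rw [hg, ← pl_Fp (k := k) p s a] at ha3
    exact ha3.ord hne
  have part1 : ∀ v, ¬ (P.u v (algebraMap (RatFunc k) L RatFunc.X) < 0) →
      Module.finrank (ZMod p) (levG p (P.isOrd v) M (c v)) ≤ t1 := by
    intro v hv
    obtain ⟨a, ha1, ha2, ha3⟩ := key v hv
    refine ht1 _ ?_
    have h1 := sum_pl_le P (Fp p s a) (Fp_ne p s ha1) {v} (by
      intro w hw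
      rw [Finset.mem_singleton.1 hw]
      exact hv)
    rw [Finset.sum_singleton, natDegree_Fp, ha2] at h1
    have h2 : (P.u v (algebraMap (RatFunc k) L (algebraMap k[X] (RatFunc k) (Fp p s a))) : ℝ) ≤
        (Module.finrank (ZMod p) (levG p (P.isOrd v) M (c v)) : ℝ) * (p : ℝ) ^ s * E := by
      exact_mod_cast h1
    have h3 := ha3.trans h2
    rw [div_le_iff₀ hpr] at h3
    calc _ ≤ _ := h3
      _ = _ := by ring
  refine ⟨part1, ?_⟩
  intro T hT
  classical
  -- the finite set of all nonzero polynomials of degree at most `t1`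
  set po : (Fin (t1 + 1) → ZMod p) → (ZMod p)[X] :=
    fun f => ∑ i : Fin (t1 + 1), C (f i) * X ^ (i : ℕ) with hpo
  set A : Finset (ZMod p)[X] :=
    (Finset.univ.image po).filter (fun a => a ≠ 0 ∧ a.natDegree ≤ t1) with hA
  have hAcard : A.card ≤ p ^ (t1 + 1) := by
    refine (Finset.card_filter_le _ _).trans (Finset.card_image_le.trans ?_)
    rw [Finset.card_univ, Fintype.card_fun, Fintype.card_fin, ZMod.card]
  have hAmem : ∀ a : (ZMod p)[X], a ≠ 0 → a.natDegree ≤ t1 → a ∈ A := by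
    intro a ha hd
    rw [hA, Finset.mem_filter]
    refine ⟨?_, ha, hd⟩
    rw [Finset.mem_image]
    refine ⟨fun i => a.coeff i, Finset.mem_univ _, ?_⟩
    show ∑ i : Fin (t1 + 1), C (a.coeff (i : ℕ)) * X ^ (i : ℕ) = a
    rw [Fin.sum_univ_eq_sum_range (fun i => C (a.coeff i) * X ^ i) (t1 + 1)]
    exact (a.as_sum_range_C_mul_X_pow' (by omega)).symm
  set Φ : k[X] := ∏ a ∈ A, Fp p s a with hΦ
  have hΦ0 : Φ ≠ 0 := by
    rw [hΦ, Finset.prod_ne_zero_iff]
    intro a ha
    exact Fp_ne p s (Finset.mem_filter.1 ha).2.1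
  have hΦd : Φ.natDegree ≤ p ^ (t1 + 1) * (t1 * p ^ s) := by
    rw [hΦ, natDegree_prod _ _ (fun a ha => Fp_ne p s (Finset.mem_filter.1 ha).2.1)]
    calc ∑ a ∈ A, (Fp (k := k) p s a).natDegree ≤ ∑ _a ∈ A, t1 * p ^ s := by
          refine Finset.sum_le_sum fun a ha => ?_
          rw [natDegree_Fp]
          exact Nat.mul_le_mul_right _ (Finset.mem_filter.1 ha).2.2
      _ = A.card * (t1 * p ^ s) := by rw [Finset.sum_const, smul_eq_mul]
      _ ≤ _ := Nat.mul_le_mul_right _ hAcard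
  have h1 := sum_pl_le P Φ hΦ0 T (fun v hv => (hT v hv).1)
  have h2 : ∀ v ∈ T, (1 : ℤ) ≤
      P.u v (algebraMap (RatFunc k) L (algebraMap k[X] (RatFunc k) Φ)) := by
    intro v hv
    obtain ⟨hv1, hv2⟩ := hT v hv
    have hX : GE (P.u v) (algebraMap (RatFunc k) L RatFunc.X) 0 := by
      right
      exact_mod_cast not_lt.1 hv1
    rw [hΦ, map_prod, map_prod, (P.isOrd v).prod _ _
      (fun a ha => pl_ne (Fp_ne p s (Finset.mem_filter.1 ha).2.1))]
    obtain ⟨a, ha1, ha2, ha3⟩ := key v hv1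
    have haA : a ∈ A := hAmem a ha1 (ha2 ▸ part1 v hv1)
    have hfr : Module.finrank (ZMod p) (levG p (P.isOrd v) M (c v)) ≠ 0 := by
      intro h0
      have hle : levG p (P.isOrd v) M (c v) ≤ M := fun x hx => hx.1
      have : FiniteDimensional (ZMod p) (levG p (P.isOrd v) M (c v)) :=
        Submodule.finiteDimensional_of_le hle
      exact hv2 (Submodule.finrank_eq_zero.1 h0)
    have hpos : (0 : ℝ) < ((p : ℝ) ^ (Module.finrank (ZMod p)
        (levG p (P.isOrd v) M (c v))) - 1) / ((p : ℝ) ^ r - 1) := by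
      refine div_pos ?_ hpr
      have := one_lt_pow₀ hp1' hfr
      linarith
    have h3 : (0 : ℝ) <
        P.u v (algebraMap (RatFunc k) L (algebraMap k[X] (RatFunc k) (Fp p s a))) :=
      hpos.trans_le ha3
    have h4 : (0 : ℤ) <
        P.u v (algebraMap (RatFunc k) L (algebraMap k[X] (RatFunc k) (Fp p s a))) := by
      exact_mod_cast h3
    have h5 : P.u v (algebraMap (RatFunc k) L (algebraMap k[X] (RatFunc k) (Fp p s a))) ≤
        ∑ a ∈ A, P.u v (algebraMap (RatFunc k) L (algebraMap k[X] (RatFunc k) (Fp p s a))) := by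
      refine Finset.single_le_sum (f := fun a => P.u v (algebraMap (RatFunc k) L
        (algebraMap k[X] (RatFunc k) (Fp p s a)))) (fun b hb => ?_) haA
      have hb0 : Fp (k := k) p s b ≠ 0 := Fp_ne p s (Finset.mem_filter.1 hb).2.1
      have := (pl_GE (P.isOrd v) (P.const v) hX (Fp p s b)).ord (pl_ne hb0)
      exact_mod_cast this
    exact (show (1 : ℤ) ≤ _ by omega : (1 : ℤ) ≤ P.u v (algebraMap (RatFunc k) L
      (algebraMap k[X] (RatFunc k) (Fp p s a)))).trans h5
  have h3 : (T.card : ℤ) ≤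
      ∑ v ∈ T, P.u v (algebraMap (RatFunc k) L (algebraMap k[X] (RatFunc k) Φ)) := by
    have := Finset.card_nsmul_le_sum T
      (fun v => P.u v (algebraMap (RatFunc k) L (algebraMap k[X] (RatFunc k) Φ))) 1 h2
    simpa using this
  have h4 : (Φ.natDegree : ℤ) * E ≤ ((p ^ (t1 + 1) * (t1 * p ^ s) * E : ℕ) : ℤ) := by
    have h := Nat.mul_le_mul_right E hΦd
    exact_mod_cast h
  have h5 : (T.card : ℤ) ≤ ((p ^ (t1 + 1) * (t1 * p ^ s) * E : ℕ) : ℤ) :=
    h3.trans (h1.trans h4)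
  exact_mod_cast h5

end Pool.Agent.TH923.DM
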