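import Mathlib
import Pool.Agent.TH923.DM.Defs
import Pool.Agent.TH923.DM.Core
import Pool.Agent.TH923.DM.Claim
import Pool.Agent.TH923.DM.Rig
import Pool.Agent.TH923.DM.Det
import Pool.Agent.TH923.DM.SPC
import Pool.Agent.TH541.DM.Spec
import Pool.Agent.TH989.DMAdapt
import Pool.Agent.TH737.DMRows
import Pool.Agent.TH412.DM.PD
import Pool.Agent.TH296.DM.Nab
import Pool.Agent.TH692.DMLOC.Loc
import Pool.Agent.TH761.DMDesc
import Pool.Agent.TH397.DM.Der
import Pool.Agent.TH811.DM.Red
import Pool.Agent.TH460.J1450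
import Pool.Agent.TH460.J1451
import Pool.Agent.TH460.J1454

/-!
# Assembly
-/

set_option autoImplicit false

namespace Pool.Agent.TH923.DM

universe w v

theorem core_all : S_CORE.{w} :=
  core lemRIG lemROWS lemPTS lemDET lemPD (lemSPC lemSPEC) TH296.DM.lemNAB
    TH692.DMLOC.lemLOC TH692.DMLOC.lemLOCinf lemADAPT lemIND (lemDEC (lemL1 lemN))
    (lemDECinf (lemLinf lemN))

theorem claim_all : S_CLAIM.{w} :=
  claim core_all TH397.DM.lemDER TH761.DMDesc.lemDESC

/-- The general statement: a finite `F_p`-subspace `M` of a field extension `L` of `k(X)` of degree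
at most `d` stable under `X x + g 1 x ^ p + ... + g r x ^ (p ^ r)`, `g r ≠ 0`, has bounded
dimension. -/
theorem gen_all : S_GEN.{w, v} :=
  TH811.DM.lemRED claim_all

end Pool.Agent.TH923.DM
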