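import Mathlib
import Pool.Agent.TH923.DM.Basic

/-!
# Preperiodic points of additive maps
-/

set_option autoImplicit false

namespace Pool.Agent.TH923.DM

universe v

section

variable {L : Type v} [Field L] (p : ℕ) [Fact p.Prime] [Algebra (ZMod p) L]

/-- If all finite dimensional stable subspaces have dimension at most `N`, the set of points with
finite orbit has at most `p ^ N` elements. -/
lemma preper_bound (f : L →ₗ[ZMod p] L) (N : ℕ)
    (h : ∀ (M : Submodule (ZMod p) L) [FiniteDimensional (ZMod p) M], (∀ x ∈ M, f x ∈ M) →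
      Module.finrank (ZMod p) M ≤ N) :
    {x : L | (Set.range (fun n : ℕ => (⇑f)^[n] x)).Finite}.Finite ∧
    {x : L | (Set.range (fun n : ℕ => (⇑f)^[n] x)).Finite}.ncard ≤ p ^ N := by
  classical
  have hp : 0 < p := (Fact.out : p.Prime).pos
  have key : ∀ S : Finset L,
      (∀ x ∈ S, x ∈ {x : L | (Set.range (fun n : ℕ => (⇑f)^[n] x)).Finite}) → S.card ≤ p ^ N := by
    intro S hS
    set O : Set L := ⋃ x ∈ S, Set.range (fun n : ℕ => (⇑f)^[n] x) with hO
    have hOfin : O.Finite := S.finite_toSet.biUnion fun x hx => hS x hx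
    set M : Submodule (ZMod p) L := Submodule.span (ZMod p) O with hM
    haveI : FiniteDimensional (ZMod p) M := FiniteDimensional.span_of_finite _ hOfin
    haveI : Finite M := Module.finite_of_finite (ZMod p)
    have hstab : ∀ x ∈ M, f x ∈ M := by
      intro x hx
      have h1 : M ≤ M.comap f := by
        rw [hM, Submodule.span_le]
        intro y hy
        rw [hO, Set.mem_iUnion₂] at hy
        obtain ⟨z, hz, n, rfl⟩ := hy
        show f ((⇑f)^[n] z) ∈ Submodule.span (ZMod p) O
        apply Submodule.subset_span
        rw [hO, Set.mem_iUnion₂]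
        refine ⟨z, hz, n + 1, ?_⟩
        show (⇑f)^[n + 1] z = _
        rw [Function.iterate_succ_apply']
      exact h1 hx
    have h1 := h M hstab
    have h2 : (S : Set L) ⊆ (M : Set L) := by
      intro x hx
      apply Submodule.subset_span
      rw [hO, Set.mem_iUnion₂]
      exact ⟨x, hx, 0, rfl⟩
    have h3 : (M : Set L).Finite := Set.toFinite _
    have h4 := Set.ncard_le_ncard h2 h3
    rw [Set.ncard_coe_finset] at h4
    have h5 : (M : Set L).ncard = p ^ Module.finrank (ZMod p) M := by
      have h6 := Module.natCard_eq_pow_finrank (K := ZMod p) (V := M)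
      rw [Nat.card_zmod] at h6
      rw [← h6]
      rfl
    rw [h5] at h4
    exact h4.trans (Nat.pow_le_pow_right hp h1)
  have hfin : {x : L | (Set.range (fun n : ℕ => (⇑f)^[n] x)).Finite}.Finite := by
    by_contra hinf
    obtain ⟨t, ht1, ht2⟩ := Set.Infinite.exists_subset_card_eq hinf (p ^ N + 1)
    have := key t (fun x hx => ht1 hx)
    omega
  refine ⟨hfin, ?_⟩
  rw [Set.ncard_eq_toFinset_card _ hfin]
  exact key _ fun x hx => by simpa using hx

end

end Pool.Agent.TH923.DM
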